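import Pool.Agent.Lib.MP_31c440_gt.H28.Weights

/-! # Relations between the elementary operators -/

namespace Pool.Agent.Lib.MP_31c440_gt.H28

open Pool.Agent.Lib.MP_31c440_gt.H23

/-- The two-cable of the braid relation, from relations holding up to scalars. -/
theorem cable_braid {K R : Type} [Field K] [Ring R] [Algebra K R] (r : K) (hr : r ≠ 0)
    (a b c d e : R)
    (hab : a * b * a = r • (b * a * b)) (hcb : c * b * c = r • (b * c * b))
    (hcd : c * d * c = r • (d * c * d)) (hed : e * d * e = r • (d * e * d))
    (hac : a * c = c * a) (had : a * d = d * a) (hae : a * e = e * a) (hbd : b * d = d * b)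
    (hbe : b * e = e * b) (hce : c * e = e * c) :
    (b * a * c * b) * (d * c * e * d) * (b * a * c * b) =
      (d * c * e * d) * (b * a * c * b) * (d * c * e * d) := by
  have hbcb : b * c * b = r⁻¹ • (c * b * c) := by rw [hcb, smul_smul, inv_mul_cancel₀ hr, one_smul]
  have hdcd : d * c * d = r⁻¹ • (c * d * c) := by rw [hcd, smul_smul, inv_mul_cancel₀ hr, one_smul]
  have hded : d * e * d = r⁻¹ • (e * d * e) := by rw [hed, smul_smul, inv_mul_cancel₀ hr, one_smul]
  have hbab : b * a * b = r⁻¹ • (a * b * a) := by rw [hab, smul_smul, inv_mul_cancel₀ hr, one_smul]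
  set P := b * a * c * b with hP
  set Q := d * c * e * d with hQ
  have Pa : P * a = c * P := by
    calc P * a = b * (a * c) * b * a := by rw [hP]; noncomm_ring
      _ = b * c * (a * b * a) := by rw [hac]; noncomm_ring
      _ = r • ((b * c * b) * a * b) := by rw [hab]; simp only [mul_smul_comm, smul_mul_assoc, mul_assoc]
      _ = r • (r⁻¹ • (c * (b * (c * a) * b))) := by
          rw [hbcb]; simp only [mul_smul_comm, smul_mul_assoc, mul_assoc]
      _ = c * P := by rw [smul_smul, mul_inv_cancel₀ hr, one_smul, ← hac, hP]; noncomm_ring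
  have Pc : P * c = a * P := by
    calc P * c = b * a * (c * b * c) := by rw [hP]; noncomm_ring
      _ = r • ((b * a * b) * c * b) := by rw [hcb]; simp only [mul_smul_comm, smul_mul_assoc, mul_assoc]
      _ = r • (r⁻¹ • (a * (b * a * c * b))) := by
          rw [hbab]; simp only [mul_smul_comm, smul_mul_assoc, mul_assoc]
      _ = a * P := by rw [smul_smul, mul_inv_cancel₀ hr, one_smul, hP]
  have Qc : Q * c = e * Q := by
    calc Q * c = d * (c * e) * d * c := by rw [hQ]; noncomm_ring
      _ = d * e * (c * d * c) := by rw [hce]; noncomm_ring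
      _ = r • ((d * e * d) * c * d) := by rw [hcd]; simp only [mul_smul_comm, smul_mul_assoc, mul_assoc]
      _ = r • (r⁻¹ • (e * (d * (e * c) * d))) := by
          rw [hded]; simp only [mul_smul_comm, smul_mul_assoc, mul_assoc]
      _ = e * Q := by rw [smul_smul, mul_inv_cancel₀ hr, one_smul, ← hce, hQ]; noncomm_ring
  have Pe : P * e = e * P := by
    calc P * e = b * a * c * (b * e) := by rw [hP]; noncomm_ring
      _ = b * a * (c * e) * b := by rw [hbe]; noncomm_ring
      _ = b * (a * e) * c * b := by rw [hce]; noncomm_ring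
      _ = (b * e) * a * c * b := by rw [hae]; noncomm_ring
      _ = e * P := by rw [hbe, hP]; noncomm_ring
  have Qa : Q * a = a * Q := by
    calc Q * a = d * c * e * (d * a) := by rw [hQ]; noncomm_ring
      _ = d * c * (e * a) * d := by rw [← had]; noncomm_ring
      _ = d * (c * a) * e * d := by rw [← hae]; noncomm_ring
      _ = (d * a) * c * e * d := by rw [← hac]; noncomm_ring
      _ = a * Q := by rw [← had, hQ]; noncomm_ring
  have PQb : P * Q * b = d * (P * Q) := by
    calc P * Q * b = b * a * c * b * (d * c * e * (d * b)) := by rw [hP, hQ]; noncomm_ring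
      _ = b * a * c * b * (d * c * (e * b) * d) := by rw [← hbd]; noncomm_ring
      _ = b * a * c * (b * d) * c * b * e * d := by rw [← hbe]; noncomm_ring
      _ = b * a * c * d * (b * c * b) * e * d := by rw [hbd]; noncomm_ring
      _ = r⁻¹ • (b * a * (c * d * c) * b * c * e * d) := by
          rw [hbcb]; simp only [mul_smul_comm, smul_mul_assoc, mul_assoc]
      _ = r⁻¹ • (r • (b * (a * d) * c * (d * b) * c * e * d)) := by
          rw [hcd]; simp only [mul_smul_comm, smul_mul_assoc, mul_assoc]
      _ = b * (a * d) * c * (d * b) * c * e * d := by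
          rw [smul_smul, inv_mul_cancel₀ hr, one_smul]
      _ = (b * d) * a * c * b * d * c * e * d := by rw [had, ← hbd]; noncomm_ring
      _ = d * (P * Q) := by rw [hbd, hP, hQ]; noncomm_ring
  have PQa : P * Q * a = c * (P * Q) := by rw [mul_assoc, Qa, ← mul_assoc, Pa, mul_assoc]
  have PQc : P * Q * c = e * (P * Q) := by rw [mul_assoc, Qc, ← mul_assoc, Pe, mul_assoc]
  calc P * Q * P = (P * Q * b) * a * c * b := by rw [hP]; noncomm_ring
    _ = d * (P * Q * a) * c * b := by rw [PQb]; noncomm_ring
    _ = d * c * (P * Q * c) * b := by rw [PQa]; noncomm_ring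
    _ = d * c * e * (P * Q * b) := by rw [PQc]; noncomm_ring
    _ = Q * P * Q := by rw [PQb, hQ]; noncomm_ring

end Pool.Agent.Lib.MP_31c440_gt.H28
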