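import Pool.Agent.Lib.MP_31c440_gt.H23.Defs

/-!
# The Kauffman bracket and the colour-two Jones polynomial of a diagram

Diagrams are read as words of elementary pieces (`H23/Defs.lean`).  The Kauffman bracket is given
by the Temperley-Lieb representation on tensor powers of a two-dimensional space: the strands at
every height are labelled by `Bool`, and every piece acts on the functions of the rows of labels
(the operator of a piece maps functions of the labels above it to functions of the labels below
it).  The colour-two polynomial is the bracket of the two-cable with Jones-Wenzl idempotents.
-/

namespace Pool.Agent.Lib.MP_31c440_gt.H28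

open Pool.Agent.Lib.MP_31c440_gt.H23

/-- Functions of the labels of a row of strands. -/
abbrev Fn (X K : Type) := List X → K

section
variable {X K : Type} [Field K]

/-- An operator acting on the strands after the first one. -/
def shift (T : Module.End K (Fn X K)) : Module.End K (Fn X K) where
  toFun f l := match l with
    | [] => 0
    | x :: l => T (fun b => f (x :: b)) l
  map_add' f g := by
    funext l
    cases l with
    | nil => simp
    | cons x l =>
      change T (fun b => f (x :: b) + g (x :: b)) l = T (fun b => f (x :: b)) l + T (fun b => g (x :: b)) l
      have := T.map_add (fun b => f (x :: b)) (fun b => g (x :: b))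
      exact congrFun this l
  map_smul' r f := by
    funext l
    cases l with
    | nil => simp
    | cons x l =>
      change T (fun b => r * f (x :: b)) l = r * T (fun b => f (x :: b)) l
      have := T.map_smul r (fun b => f (x :: b))
      exact congrFun this l

/-- Exchange of the first two labels. -/
def vE : Module.End K (Fn X K) where
  toFun f l := match l with
    | x :: y :: l => f (y :: x :: l)
    | _ => 0
  map_add' f g := by
    funext l
    match l with
    | [] => simp
    | [x] => simp
    | x :: y :: l => simp
  map_smul' r f := by
    funext l
    match l with
    | [] => simp
    | [x] => simp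
    | x :: y :: l => simp

end

section
variable {K : Type} [Field K] (A : K)

/-- Weight of a cap with the given labels of its two legs. -/
def capWeight : Bool → Bool → K
  | false, true => 1
  | true, false => -(A ^ 2)⁻¹
  | _, _ => 0

/-- The operator of a cup at the left end. -/
def bCup : Module.End K (Fn Bool K) where
  toFun f l := -A ^ 2 * f (false :: true :: l) + f (true :: false :: l)
  map_add' f g := by
    funext l
    simp only [Pi.add_apply]
    ring
  map_smul' r f := by
    funext l
    simp only [Pi.smul_apply, smul_eq_mul, RingHom.id_apply]
    ring

/-- The operator of a cap at the left end. -/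
def bCap : Module.End K (Fn Bool K) where
  toFun f l := match l with
    | x :: y :: l => capWeight A x y * f l
    | _ => 0
  map_add' f g := by
    funext l
    match l with
    | [] => simp
    | [x] => simp
    | x :: y :: l => simp [mul_add]
  map_smul' r f := by
    funext l
    match l with
    | [] => simp
    | [x] => simp
    | x :: y :: l => simp; ring

/-- The operators of the pieces at the left end.  A classical crossing is resolved by the
Kauffman relation `A · )( + A⁻¹ · (cap below, cup above)`, or the same with `A` and `A⁻¹`
exchanged. -/
def bE : Kind → Module.End K (Fn Bool K)
  | .cup => bCup A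
  | .cap => bCap A
  | .right => A • (1 : Module.End K (Fn Bool K)) + A⁻¹ • (bCap A * bCup A)
  | .left => A⁻¹ • (1 : Module.End K (Fn Bool K)) + A • (bCap A * bCup A)
  | .virt => vE

/-- The operator of a piece of kind `c` with `k` strands on its left. -/
def bAt (c : Kind) (k : ℕ) : Module.End K (Fn Bool K) := shift^[k] (bE A c)

/-- The Kauffman bracket of a diagram (the value of the empty diagram is `1`, the value of a
circle is `-A² - A⁻²`). -/
def bracket (D : Diagram) : K := (D.word.map fun p => bAt A p.kind p.pos).prod (fun _ => 1) []

/-- The value of a circle. -/
def loopVal : K := -A ^ 2 - (A ^ 2)⁻¹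

/-- The Jones-Wenzl idempotent on the strands `k` and `k + 1`. -/
def jonesWenzl (k : ℕ) : Module.End K (Fn Bool K) := 1 - (loopVal A)⁻¹ • (bAt A .cap k * bAt A .cup k)

/-- The operator of the two-cable of a piece with `k` strands on its left.  Strand `k` is replaced
by the strands `2k` and `2k + 1`; the two strands below the left leg of every cap carry the
Jones-Wenzl idempotent. -/
def cableAt : Kind → ℕ → Module.End K (Fn Bool K)
  | .cup, k => bAt A .cup (2 * k) * bAt A .cup (2 * k + 1)
  | .cap, k => jonesWenzl A (2 * k) * (bAt A .cap (2 * k + 1) * bAt A .cap (2 * k))
  | c, k => bAt A c (2 * k + 1) * (bAt A c (2 * k) * (bAt A c (2 * k + 2) * bAt A c (2 * k + 1)))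

/-- The colour-two (spin one, three-dimensional) Jones polynomial of a diagram with its blackboard
framing: the Kauffman bracket of the two-cable, with a Jones-Wenzl idempotent on every component
(inserted at every cap). -/
def colourTwo (D : Diagram) : K :=
  (D.word.map fun p => cableAt A p.kind p.pos).prod (fun _ => 1) []

end

end Pool.Agent.Lib.MP_31c440_gt.H28
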