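import Pool.Agent.Lib.MP_31c440_gt.H28.Braid

/-! # The elementary operators of the spin model of the two-cable -/

namespace Pool.Agent.Lib.MP_31c440_gt.H28

open Pool.Agent.Lib.MP_31c440_gt.H23

section
variable {X K : Type} [Field K]

/-- Multiplication by a weight of the first two labels. -/
def dE (W : X → X → K) : Module.End K (Fn X K) where
  toFun f l := match l with
    | x :: y :: l => W x y * f (x :: y :: l)
    | _ => 0
  map_add' f g := by
    funext l
    match l with
    | [] => simp
    | [x] => simp
    | x :: y :: l => simp [mul_add]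
  map_smul' r f := by
    funext l
    match l with
    | [] => simp
    | [x] => simp
    | x :: y :: l => simp; ring

@[simp] theorem dE_nil (W : X → X → K) (f : Fn X K) : dE W f [] = 0 := rfl
@[simp] theorem dE_one (W : X → X → K) (f : Fn X K) (x : X) : dE W f [x] = 0 := rfl
@[simp] theorem dE_cons (W : X → X → K) (f : Fn X K) (x y : X) (l : List X) :
    dE W f (x :: y :: l) = W x y * f (x :: y :: l) := rfl

@[simp] theorem vE_cons (f : Fn X K) (x y : X) (l : List X) :
    vE f (x :: y :: l) = f (y :: x :: l) := rfl
@[simp] theorem vE_nil (f : Fn X K) : vE f [] = 0 := rfl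
@[simp] theorem vE_one (f : Fn X K) (x : X) : vE f [x] = 0 := rfl

variable [Fintype X]

/-- A matrix acting on the first label. -/
def mE (V : X → X → K) : Module.End K (Fn X K) where
  toFun f l := match l with
    | [] => 0
    | x :: l => ∑ u, V x u * f (u :: l)
  map_add' f g := by
    funext l
    cases l with
    | nil => simp
    | cons x l => simp [mul_add, Finset.sum_add_distrib]
  map_smul' r f := by
    funext l
    cases l with
    | nil => simp
    | cons x l =>
      simp only [Pi.smul_apply, smul_eq_mul, RingHom.id_apply, Finset.mul_sum]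
      exact Finset.sum_congr rfl fun u _ => by ring

@[simp] theorem mE_nil (V : X → X → K) (f : Fn X K) : mE V f [] = 0 := rfl
@[simp] theorem mE_cons (V : X → X → K) (f : Fn X K) (x : X) (l : List X) :
    mE V f (x :: l) = ∑ u, V x u * f (u :: l) := rfl

/-- Sum over equal labels of two new strands. -/
def cupE : Module.End K (Fn X K) where
  toFun f l := ∑ x, f (x :: x :: l)
  map_add' f g := by
    funext l
    simp [Finset.sum_add_distrib]
  map_smul' r f := by
    funext l
    simp [Finset.mul_sum]

@[simp] theorem cupE_apply (f : Fn X K) (l : List X) : cupE f l = ∑ x, f (x :: x :: l) := rfl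

theorem mE_mul_shift (V : X → X → K) (T : Module.End K (Fn X K)) :
    mE V * shift T = shift T * mE V := by
  refine LinearMap.ext fun f => funext fun l => ?_
  cases l with
  | nil => rfl
  | cons x l =>
    simp only [Module.End.mul_apply, mE_cons, shift_cons]
    rw [apply_sum_fun T Finset.univ (fun u b => V x u * f (u :: b)) l]
    exact Finset.sum_congr rfl fun u _ => (apply_mul_fun T _ _ _).symm

omit [Fintype X] in
theorem dE_mul_shift (W : X → X → K) (T : Module.End K (Fn X K)) :
    dE W * shift (shift T) = shift (shift T) * dE W := by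
  refine LinearMap.ext fun f => funext fun l => ?_
  match l with
  | [] => rfl
  | [x] => rfl
  | x :: y :: l =>
    simp only [Module.End.mul_apply, dE_cons, shift_cons]
    exact (apply_mul_fun T _ _ _).symm

omit [Fintype X] in
theorem dE_mul_shift_dE (W W' : X → X → K) : dE W * shift (dE W') = shift (dE W') * dE W := by
  refine LinearMap.ext fun f => funext fun l => ?_
  match l with
  | [] => rfl
  | [x] => rfl
  | [x, y] => simp
  | x :: y :: z :: l =>
    simp only [Module.End.mul_apply, dE_cons, shift_cons]
    ring

theorem cupE_mul_shift (T : Module.End K (Fn X K)) :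
    cupE * shift (shift T) = T * cupE := by
  refine LinearMap.ext fun f => funext fun l => ?_
  simp only [Module.End.mul_apply, cupE_apply, shift_cons]
  exact (apply_sum_fun T Finset.univ (fun x b => f (x :: x :: b)) l).symm

omit [Fintype X] in
theorem vE_mul_shift (T : Module.End K (Fn X K)) :
    vE * shift (shift T) = shift (shift T) * vE := by
  refine LinearMap.ext fun f => funext fun l => ?_
  match l with
  | [] => rfl
  | [x] => rfl
  | x :: y :: l => rfl

end

section
variable {X K : Type} [Field K] [Fintype X] [DecidableEq X]

/-- Weight of a reduced cap. -/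
def cw (K : Type) [Field K] {X : Type} [Fintype X] [DecidableEq X] (x y : X) : K :=
  (if x = y then 1 else 0) - (Fintype.card X : K)⁻¹

/-- The reduced cap. -/
def capE : Module.End K (Fn X K) where
  toFun f l := match l with
    | x :: y :: l => cw K x y * f l
    | _ => 0
  map_add' f g := by
    funext l
    match l with
    | [] => simp
    | [x] => simp
    | x :: y :: l => simp [mul_add]
  map_smul' r f := by
    funext l
    match l with
    | [] => simp
    | [x] => simp
    | x :: y :: l => simp; ring

@[simp] theorem capE_nil (f : Fn X K) : capE f [] = 0 := rfl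
@[simp] theorem capE_one (f : Fn X K) (x : X) : capE f [x] = 0 := rfl
@[simp] theorem capE_cons (f : Fn X K) (x y : X) (l : List X) :
    capE f (x :: y :: l) = cw K x y * f l := rfl

theorem capE_mul (T : Module.End K (Fn X K)) :
    capE * T = shift (shift T) * capE := by
  refine LinearMap.ext fun f => funext fun l => ?_
  match l with
  | [] => rfl
  | [x] => rfl
  | x :: y :: l =>
    simp only [Module.End.mul_apply, capE_cons, shift_cons]
    exact (apply_mul_fun T _ _ _).symm

/-- The operator of a classical crossing. -/
noncomputable def xE (q : K) (c : Kind) : Module.End K (Fn X K) :=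
  (Fintype.card X : K)⁻¹ •
    (dE (wt q c) * mE (wt q c.flip) * shift (mE (wt q c.flip)) * dE (wt q c))

theorem xE_nil (q : K) (c : Kind) (f : Fn X K) : xE q c f [] = 0 := by
  simp [xE]

theorem xE_one (q : K) (c : Kind) (f : Fn X K) (x : X) : xE q c f [x] = 0 := by
  simp [xE]

theorem xE_cons (q : K) (c : Kind) (f : Fn X K) (x y : X) (l : List X) :
    xE q c f (x :: y :: l) = (Fintype.card X : K)⁻¹ * (wt q c x y * ∑ u, wt q c.flip x u *
      ∑ v, wt q c.flip y v * (wt q c u v * f (u :: v :: l))) := rfl

/-- The operators of the pieces: `d` is the weight of a cup. -/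
noncomputable def zE (q d : K) : Kind → Module.End K (Fn X K)
  | .cup => d • cupE
  | .cap => d⁻¹ • capE
  | .left => xE q .left
  | .right => xE q .right
  | .virt => vE

theorem xE_mul_shift (q : K) (c : Kind) (T : Module.End K (Fn X K)) :
    xE q c * shift (shift T) = shift (shift T) * xE q c := by
  unfold xE
  rw [smul_mul_assoc, mul_smul_comm]
  congr 1
  calc dE (wt q c) * mE (wt q c.flip) * shift (mE (wt q c.flip)) * dE (wt q c) * shift (shift T)
      = dE (wt q c) * mE (wt q c.flip) * shift (mE (wt q c.flip)) *
          (dE (wt q c) * shift (shift T)) := by noncomm_ring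
    _ = dE (wt q c) * mE (wt q c.flip) * (shift (mE (wt q c.flip)) * shift (shift T)) *
          dE (wt q c) := by rw [dE_mul_shift]; noncomm_ring
    _ = dE (wt q c) * (mE (wt q c.flip) * shift (shift T)) * shift (mE (wt q c.flip)) *
          dE (wt q c) := by rw [← shift_mul, mE_mul_shift, shift_mul]; noncomm_ring
    _ = (dE (wt q c) * shift (shift T)) * mE (wt q c.flip) * shift (mE (wt q c.flip)) *
          dE (wt q c) := by rw [mE_mul_shift]; noncomm_ring
    _ = _ := by rw [dE_mul_shift]; noncomm_ring

omit [Fintype X] [DecidableEq X] in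
theorem iter_two_add (T : Module.End K (Fn X K)) (k : ℕ) :
    shift^[2 + k] T = shift (shift (shift^[k] T)) := by
  rw [Nat.add_comm, Function.iterate_succ_apply', Function.iterate_succ_apply']

/-- Distant pieces commute. -/
theorem zE_far (q d : K) (a : Kind) (T : Module.End K (Fn X K)) (k : ℕ) :
    zE q d a * shift^[a.out + k] T = shift^[a.inn + k] T * zE q d a := by
  cases a with
  | cup =>
    simp only [Kind.out, Kind.inn, Nat.zero_add, zE, iter_two_add]
    rw [smul_mul_assoc, mul_smul_comm, cupE_mul_shift]
  | cap =>
    simp only [Kind.out, Kind.inn, Nat.zero_add, zE, iter_two_add]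
    rw [smul_mul_assoc, mul_smul_comm, capE_mul]
  | left => simp only [Kind.out, Kind.inn, zE, iter_two_add]; exact xE_mul_shift q _ _
  | right => simp only [Kind.out, Kind.inn, zE, iter_two_add]; exact xE_mul_shift q _ _
  | virt => simp only [Kind.out, Kind.inn, zE, iter_two_add]; exact vE_mul_shift _

/-- First star-triangle relation for operators. -/
theorem star_one {q : K} (hq : q ≠ 0) (hn : (Fintype.card X : K) = q + 2 + q⁻¹) {c : Kind}
    (hc : c = .left ∨ c = .right) :
    (mE (wt q c.flip) * dE (wt q c) * mE (wt q c.flip) : Module.End K (Fn X K)) =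
      dd q c • (dE (wt q c) * mE (wt q c.flip) * dE (wt q c)) := by
  refine LinearMap.ext fun f => funext fun l => ?_
  match l with
  | [] => simp
  | [x] => simp
  | x :: y :: l =>
    simp only [Module.End.mul_apply, dE_cons, mE_cons, LinearMap.smul_apply, Pi.smul_apply,
      smul_eq_mul, Finset.mul_sum]
    rw [Finset.sum_comm]
    refine Finset.sum_congr rfl fun v _ => ?_
    have h := wt_star hq hn hc x v y
    calc ∑ u, wt q c.flip x u * (wt q c u y * (wt q c.flip u v * f (v :: y :: l)))
        = (∑ u, wt q c.flip x u * wt q c.flip v u * wt q c y u) * f (v :: y :: l) := by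
          rw [Finset.sum_mul]
          refine Finset.sum_congr rfl fun u _ => ?_
          rw [wt_symm q c u y, wt_symm q c.flip u v]
          ring
      _ = _ := by
          rw [h]
          ring

/-- Second star-triangle relation for operators. -/
theorem star_two {q : K} (hq : q ≠ 0) (hn : (Fintype.card X : K) = q + 2 + q⁻¹) {c : Kind}
    (hc : c = .left ∨ c = .right) :
    (shift (mE (wt q c.flip)) * dE (wt q c) * shift (mE (wt q c.flip)) : Module.End K (Fn X K)) =
      dd q c • (dE (wt q c) * shift (mE (wt q c.flip)) * dE (wt q c)) := by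
  refine LinearMap.ext fun f => funext fun l => ?_
  match l with
  | [] => simp
  | [x] => simp
  | x :: y :: l =>
    simp only [Module.End.mul_apply, dE_cons, mE_cons, shift_cons, LinearMap.smul_apply,
      Pi.smul_apply, smul_eq_mul, Finset.mul_sum]
    rw [Finset.sum_comm]
    refine Finset.sum_congr rfl fun v _ => ?_
    have h := wt_star hq hn hc y v x
    calc ∑ u, wt q c.flip y u * (wt q c x u * (wt q c.flip u v * f (x :: v :: l)))
        = (∑ u, wt q c.flip y u * wt q c.flip v u * wt q c x u) * f (x :: v :: l) := by
          rw [Finset.sum_mul]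
          refine Finset.sum_congr rfl fun u _ => ?_
          rw [wt_symm q c.flip u v]
          ring
      _ = _ := by
          rw [h, wt_symm q c y x, wt_symm q c v x]
          ring

/-- The braid relation for the operators of the crossings. -/
theorem xE_braid {q : K} (hq : q ≠ 0) (hn : (Fintype.card X : K) = q + 2 + q⁻¹)
    (hn0 : (Fintype.card X : K) ≠ 0) {c : Kind} (hc : c = .left ∨ c = .right) :
    (xE q c * (shift (xE q c) * xE q c) : Module.End K (Fn X K)) =
      shift (xE q c) * (xE q c * shift (xE q c)) := by
  have h := cable_braid (K := K) (R := Module.End K (Fn X K)) (dd q c) (dd_ne hq hn hn0 c)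
    (mE (wt q c.flip)) (dE (wt q c)) (shift (mE (wt q c.flip))) (shift (dE (wt q c)))
    (shift (shift (mE (wt q c.flip)))) (star_one hq hn hc) (star_two hq hn hc)
    (by rw [← shift_mul, ← shift_mul, star_one hq hn hc, shift_smul, shift_mul, shift_mul])
    (by
      rw [← shift_mul, ← shift_mul, star_two hq hn hc, shift_smul, shift_mul, shift_mul])
    (mE_mul_shift _ _) (mE_mul_shift _ _) (mE_mul_shift _ _) (dE_mul_shift_dE _ _)
    (dE_mul_shift _ _) (by rw [← shift_mul, mE_mul_shift, shift_mul])
  have e1 : (xE q c : Module.End K (Fn X K)) = (Fintype.card X : K)⁻¹ •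
      (dE (wt q c) * mE (wt q c.flip) * shift (mE (wt q c.flip)) * dE (wt q c)) := rfl
  have e2 : (shift (xE q c) : Module.End K (Fn X K)) = (Fintype.card X : K)⁻¹ •
      (shift (dE (wt q c)) * shift (mE (wt q c.flip)) * shift (shift (mE (wt q c.flip))) *
        shift (dE (wt q c))) := by
    rw [e1, shift_smul, shift_mul, shift_mul, shift_mul]
  rw [e2, e1]
  simp only [smul_mul_assoc, mul_smul_comm]
  congr 3

end

end Pool.Agent.Lib.MP_31c440_gt.H28
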