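import Pool.Agent.Lib.MP_31c440_gt.H28.Moves

/-! # Invariance of the spin model -/

namespace Pool.Agent.Lib.MP_31c440_gt.H28

open Pool.Agent.Lib.MP_31c440_gt.H23

section
variable {X K : Type} [Field K] [Fintype X] [DecidableEq X]

theorem zE_loc (q d : K) (c : Kind) (r : ℕ) :
    Loc (zE q d c : Module.End K (Fn X K)) (c.inn + r) (c.out + r) := by
  intro f hf a ha
  cases c with
  | cup =>
    simp only [Kind.inn, Kind.out, Nat.zero_add] at ha hf
    simp only [zE, LinearMap.smul_apply, Pi.smul_apply, smul_eq_mul, cupE_apply]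
    rw [Finset.sum_eq_zero, mul_zero]
    intro x _
    exact hf _ (by simp [ha]; omega)
  | cap =>
    simp only [Kind.inn, Kind.out, Nat.zero_add] at ha hf
    match a, ha with
    | x :: y :: a, ha =>
      simp only [zE, LinearMap.smul_apply, Pi.smul_apply, smul_eq_mul, capE_cons]
      rw [hf a (by simp only [List.length_cons] at ha; omega)]
      simp
    | [x], ha => simp at ha; omega
    | [], ha => simp at ha; omega
  | left =>
    simp only [Kind.inn, Kind.out] at ha hf
    match a, ha with
    | x :: y :: a, ha =>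
      simp only [zE, xE_cons]
      have : ∀ u v : X, f (u :: v :: a) = 0 := fun u v => hf _ (by simpa using ha)
      simp [this]
    | [x], ha => simp at ha; omega
    | [], ha => simp at ha; omega
  | right =>
    simp only [Kind.inn, Kind.out] at ha hf
    match a, ha with
    | x :: y :: a, ha =>
      simp only [zE, xE_cons]
      have : ∀ u v : X, f (u :: v :: a) = 0 := fun u v => hf _ (by simpa using ha)
      simp [this]
    | [x], ha => simp at ha; omega
    | [], ha => simp at ha; omega
  | virt =>
    simp only [Kind.inn, Kind.out] at ha hf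
    match a, ha with
    | x :: y :: a, ha =>
      simp only [zE, vE_cons]
      exact hf _ (by simpa using ha)
    | [x], ha => simp at ha; omega
    | [], ha => simp at ha; omega

omit [Fintype X] [DecidableEq X] in
theorem shift_iter_loc {T : Module.End K (Fn X K)} {m n : ℕ} (h : Loc T m n) (k : ℕ) :
    Loc (shift^[k] T) (m + k) (n + k) := by
  induction k with
  | zero => exact h
  | succ k ih =>
    rw [Function.iterate_succ_apply']
    exact ih.shift

theorem shift_iter_pred {T : Module.End K (Fn X K)} {m n : ℕ} (h : Loc T m n) (h' : PRed T m n)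
    (k : ℕ) : PRed (shift^[k] T) (m + k) (n + k) := by
  induction k with
  | zero => exact h'
  | succ k ih =>
    rw [Function.iterate_succ_apply']
    exact ih.shift (shift_iter_loc h k)

theorem xE_pred {q : K} (hq : q ≠ 0) (hn : (Fintype.card X : K) = q + 2 + q⁻¹)
    (hn0 : (Fintype.card X : K) ≠ 0) {c : Kind}
    (hc : c = .left ∨ c = .right) (r : ℕ) :
    PRed (xE q c : Module.End K (Fn X K)) (2 + r) (2 + r) := by
  intro f hf a b hab
  match a with
  | [] =>
    simp only [List.nil_append]
    simp only [List.length_nil] at hab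
    match b, hab with
    | y :: b, hab =>
      rw [sum_xE_one hq hn hn0 hc]
      exact hf [y] b (by simp only [List.length_cons, List.length_nil] at hab ⊢; omega)
    | [], hab => simp at hab; omega
  | [x] =>
    simp only [List.cons_append, List.nil_append]
    rw [sum_xE_two hq hn hn0 hc]
    exact hf [] (x :: b) (by simp only [List.length_cons, List.length_nil] at hab ⊢; omega)
  | x :: y :: a =>
    simp only [List.cons_append, xE_cons]
    rw [← Finset.mul_sum, ← Finset.mul_sum, Finset.sum_comm]
    have : ∀ u : X, ∑ z, wt q c.flip x u * ∑ v, wt q c.flip y v * (wt q c u v *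
        f (u :: v :: (a ++ z :: b))) = 0 := by
      intro u
      rw [← Finset.mul_sum, Finset.sum_comm]
      have h2 : ∀ v : X, ∑ z, wt q c.flip y v * (wt q c u v * f (u :: v :: (a ++ z :: b))) =
          0 := by
        intro v
        rw [← Finset.mul_sum, ← Finset.mul_sum]
        have := hf (u :: v :: a) b (by simp only [List.length_cons] at hab ⊢; omega)
        simp only [List.cons_append] at this
        rw [this]
        ring
      simp [h2]
    simp [this]

theorem zE_pred {q : K} (d : K) (hq : q ≠ 0) (hn : (Fintype.card X : K) = q + 2 + q⁻¹)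
    (hn0 : (Fintype.card X : K) ≠ 0) (c : Kind) (r : ℕ) :
    PRed (zE q d c : Module.End K (Fn X K)) (c.inn + r) (c.out + r) := by
  cases c with
  | cup =>
    intro f hf a b hab
    simp only [Kind.inn, Kind.out, Nat.zero_add] at hab hf
    simp only [zE, LinearMap.smul_apply, Pi.smul_apply, smul_eq_mul, cupE_apply]
    rw [← Finset.mul_sum, Finset.sum_comm, Finset.sum_eq_zero, mul_zero]
    intro x _
    exact hf (x :: x :: a) b (by simp only [List.length_cons]; omega)
  | cap =>
    intro f hf a b hab
    simp only [Kind.inn, Kind.out, Nat.zero_add] at hab hf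
    simp only [zE, LinearMap.smul_apply, Pi.smul_apply, smul_eq_mul]
    rw [← Finset.mul_sum]
    match a with
    | [] =>
      simp only [List.length_nil] at hab
      match b, hab with
      | y :: b, hab =>
        simp only [List.nil_append, capE_cons]
        rw [← Finset.sum_mul]
        simp_rw [cw_symm _ y]
        rw [sum_cw hn0]
        ring
      | [], hab => simp at hab; omega
    | [x] =>
      simp only [List.cons_append, List.nil_append, capE_cons]
      rw [← Finset.sum_mul, sum_cw hn0]
      ring
    | x :: y :: a =>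
      simp only [List.cons_append, capE_cons]
      rw [← Finset.mul_sum, hf a b (by simp only [List.length_cons] at hab; omega)]
      ring
  | left => exact xE_pred hq hn hn0 (Or.inl rfl) r
  | right => exact xE_pred hq hn hn0 (Or.inr rfl) r
  | virt =>
    intro f hf a b hab
    simp only [Kind.inn, Kind.out] at hab hf
    simp only [zE]
    match a with
    | [] =>
      simp only [List.length_nil] at hab
      match b, hab with
      | y :: b, hab =>
        simp only [List.nil_append, vE_cons]
        exact hf [y] b (by simp only [List.length_cons, List.length_nil] at hab ⊢; omega)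
      | [], hab => simp at hab; omega
    | [x] =>
      simp only [List.cons_append, List.nil_append, vE_cons]
      exact hf [] (x :: b) (by simp only [List.length_cons, List.length_nil] at hab ⊢; omega)
    | x :: y :: a =>
      simp only [List.cons_append, vE_cons]
      exact hf (y :: x :: a) b (by simp only [List.length_cons] at hab ⊢; omega)

theorem fits_form {p : Piece} {m n : ℕ} (h : p.Fits m n) :
    ∃ r, m = (p.kind.inn + r) + p.pos ∧ n = (p.kind.out + r) + p.pos := by
  obtain ⟨h1, h2⟩ := h
  exact ⟨m - p.pos - p.kind.inn, by omega, by omega⟩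

theorem piece_loc {T : Kind → Module.End K (Fn X K)}
    (hT : ∀ c r, Loc (T c) (c.inn + r) (c.out + r)) {p : Piece} {m n : ℕ} (h : p.Fits m n) :
    Loc (shift^[p.pos] (T p.kind)) m n := by
  obtain ⟨r, rfl, rfl⟩ := fits_form h
  exact shift_iter_loc (hT _ _) _

theorem opw_loc {T : Kind → Module.End K (Fn X K)}
    (hT : ∀ c r, Loc (T c) (c.inn + r) (c.out + r)) (w : List Piece) :
    ∀ {m n : ℕ}, Valid w m n → Loc (opw T w) m n := by
  induction w with
  | nil =>
    rintro m n rfl f hf a ha
    exact hf a ha
  | cons p w ih =>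
    rintro m n ⟨l, h1, h2⟩
    rw [opw_cons]
    exact (piece_loc hT h1).mul (ih h2)

theorem opw_pred {T : Kind → Module.End K (Fn X K)}
    (hT : ∀ c r, Loc (T c) (c.inn + r) (c.out + r))
    (hT' : ∀ c r, PRed (T c) (c.inn + r) (c.out + r)) (w : List Piece) :
    ∀ {m n : ℕ}, Valid w m n → PRed (opw T w) m n := by
  induction w with
  | nil =>
    rintro m n rfl f hf
    exact hf
  | cons p w ih =>
    rintro m n ⟨l, h1, h2⟩
    rw [opw_cons]
    refine PRed.mul ?_ (ih h2)
    obtain ⟨r, rfl, rfl⟩ := fits_form h1
    exact shift_iter_pred (hT _ _) (hT' _ _) _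

/-- The exponent gained by a kink. -/
def kexp : Kind → ℤ
  | .right => -1
  | .left => 1
  | _ => 0

theorem kf_eq {q : K} (c : Kind) : kf q c = (q ^ 2) ^ (kexp c) := by
  cases c
  · simp [kf, kexp]
  · simp [kf, kexp]
  · simp only [kf, kexp, zpow_one, pow_two]
  · simp only [kf, kexp, zpow_neg, zpow_one, pow_two, mul_inv]
  · simp [kf, kexp]

theorem cross_cases {c : Kind} (hc : c.IsCrossing) : (c = .left ∨ c = .right) ∨ c = .virt := by
  cases c <;> simp_all [Kind.IsCrossing]

theorem zE_classical (q d : K) {c : Kind} (hc : c = .left ∨ c = .right) :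
    (zE q d c : Module.End K (Fn X K)) = xE q c := by
  rcases hc with rfl | rfl <;> rfl

theorem flip_classical {c : Kind} (hc : c = .left ∨ c = .right) :
    c.flip = .left ∨ c.flip = .right := by
  rcases hc with rfl | rfl <;> simp [Kind.flip]

end

section
variable {X K : Type} [Field K]

theorem Red.head_eq [Fintype X] {m n : ℕ} {f : Fn X K} (h : Red m f) (l : List X)
    (hn : n = m) (hl : l.length + 1 = n) : ∑ x, f (x :: l) = 0 := by
  subst hn
  exact h [] l (by simp; omega)

theorem Red.head2_eq [Fintype X] {m n : ℕ} {f : Fn X K} (h : Red m f) (x : X) (l : List X)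
    (hn : n = m) (hl : l.length + 2 = n) : ∑ y, f (x :: y :: l) = 0 := by
  subst hn
  exact h [x] l (by simp; omega)

end

/-- Local moves with the exponent of the kinks. -/
inductive LocalK : List Piece → List Piece → ℤ → Prop
  | far (a b : Kind) (d : ℕ) : LocalK [⟨a, 0⟩, ⟨b, a.out + d⟩] [⟨b, a.inn + d⟩, ⟨a, 0⟩] 0
  | zig : LocalK [⟨.cup, 1⟩, ⟨.cap, 0⟩] [] 0
  | zag : LocalK [⟨.cup, 0⟩, ⟨.cap, 1⟩] [] 0
  | turnCap (c : Kind) (hc : c.IsCrossing) :
      LocalK [⟨c, 1⟩, ⟨.cap, 0⟩] [⟨c.flip, 0⟩, ⟨.cap, 1⟩] 0
  | turnCup (c : Kind) (hc : c.IsCrossing) :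
      LocalK [⟨.cup, 0⟩, ⟨c, 1⟩] [⟨.cup, 1⟩, ⟨c.flip, 0⟩] 0
  | kinkCap (c : Kind) (hc : c.IsCrossing) : LocalK [⟨c, 0⟩, ⟨.cap, 0⟩] [⟨.cap, 0⟩] (kexp c)
  | kinkCup (c : Kind) (hc : c.IsCrossing) : LocalK [⟨.cup, 0⟩, ⟨c, 0⟩] [⟨.cup, 0⟩] (kexp c)
  | two (c : Kind) (hc : c.IsCrossing) : LocalK [⟨c, 0⟩, ⟨c.flip, 0⟩] [] 0
  | three (c : Kind) (hc : c.IsCrossing) :
      LocalK [⟨c, 0⟩, ⟨c, 1⟩, ⟨c, 0⟩] [⟨c, 1⟩, ⟨c, 0⟩, ⟨c, 1⟩] 0
  | mixed (c : Kind) (hc : c.IsCrossing) :
      LocalK [⟨.virt, 0⟩, ⟨.virt, 1⟩, ⟨c, 0⟩] [⟨c, 1⟩, ⟨.virt, 0⟩, ⟨.virt, 1⟩] 0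
  | virtualisation (c : Kind) (hc : c.IsCrossing) :
      LocalK [⟨.virt, 0⟩, ⟨c, 0⟩, ⟨.virt, 0⟩] [⟨c, 0⟩] 0
  | addStrand {L R : List Piece} {k : ℤ} : LocalK L R k →
      LocalK (L.map Piece.succ) (R.map Piece.succ) k

theorem exists_localK {L R : List Piece} (h : Local L R) : ∃ k, LocalK L R k := by
  induction h with
  | far a b d => exact ⟨_, .far a b d⟩
  | zig => exact ⟨_, .zig⟩
  | zag => exact ⟨_, .zag⟩
  | turnCap c hc => exact ⟨_, .turnCap c hc⟩
  | turnCup c hc => exact ⟨_, .turnCup c hc⟩
  | kinkCap c hc => exact ⟨_, .kinkCap c hc⟩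
  | kinkCup c hc => exact ⟨_, .kinkCup c hc⟩
  | two c hc => exact ⟨_, .two c hc⟩
  | three c hc => exact ⟨_, .three c hc⟩
  | mixed c hc => exact ⟨_, .mixed c hc⟩
  | virtualisation c hc => exact ⟨_, .virtualisation c hc⟩
  | addStrand _ ih =>
    obtain ⟨k, hk⟩ := ih
    exact ⟨k, .addStrand hk⟩

theorem local_ne_nil {L R : List Piece} {k : ℤ} (h : LocalK L R k) : L ≠ [] := by
  induction h with
  | addStrand _ ih =>
    intro h
    exact ih (List.map_eq_nil_iff.1 h)
  | _ => simp

theorem valid_succ' (w : List Piece) : ∀ {m n : ℕ}, Valid (w.map Piece.succ) (m + 1) n →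
    ∃ n₀, n = n₀ + 1 ∧ Valid w m n₀ := by
  induction w with
  | nil => intro m n h; exact ⟨m, h.symm, rfl⟩
  | cons p w ih =>
    rintro m n ⟨l, ⟨h1, h2⟩, h3⟩
    simp only [Piece.succ] at h1 h2
    obtain ⟨l₀, rfl⟩ : ∃ l₀, l = l₀ + 1 := ⟨l - 1, by omega⟩
    obtain ⟨n₀, hn, hn'⟩ := ih h3
    exact ⟨n₀, hn, l₀, ⟨by omega, by omega⟩, hn'⟩

/-- Every local move multiplies the operators by a power of `q` which only depends on the move. -/
theorem spin_local {L R : List Piece} {k : ℤ} (hLR : LocalK L R k) :
    ∀ (X K : Type) [Field K] [Fintype X] [DecidableEq X] (q d : K), q ≠ 0 → d ≠ 0 →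
      (Fintype.card X : K) = q + 2 + q⁻¹ → (Fintype.card X : K) ≠ 0 →
      ∀ {m n n' : ℕ}, Valid L m n → Valid R m n' → ∀ f : Fn X K, Red n f →
        ∀ a : List X, a.length = m → opw (zE q d) L f a = (q ^ 2) ^ k * opw (zE q d) R f a := by
  induction hLR with
  | far a b t =>
    rintro X K _ _ _ q d hq hd hn hn0 m n n' - - f hf r hr
    simp only [opw_cons, opw_nil, mul_one, Function.iterate_zero, id, zpow_zero, one_mul]
    rw [zE_far]
  | zig =>
    rintro X K _ _ _ q d hq hd hn hn0 m n n' hL - f hf r hr
    obtain ⟨l, ⟨h1, h2⟩, l', ⟨h3, h4⟩, h5⟩ := hL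
    simp only [Kind.inn, Kind.out, Valid] at h1 h2 h3 h4 h5
    match r, hr with
    | x :: r, hr =>
      simp only [List.length_cons] at hr
      simp only [opw_cons, opw_nil, mul_one, Function.iterate_zero, id, zpow_zero, one_mul,
        Function.iterate_one, zE, Module.End.mul_apply, shift_cons, LinearMap.smul_apply,
        Pi.smul_apply, smul_eq_mul, cupE_apply, capE_cons, Module.End.one_apply]
      rw [← Finset.mul_sum, ← mul_assoc, mul_inv_cancel₀ hd, one_mul, sum_cw_mul,
        hf.head_eq r rfl (by omega)]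
      ring
    | [], hr => simp at hr; omega
  | zag =>
    rintro X K _ _ _ q d hq hd hn hn0 m n n' hL - f hf r hr
    obtain ⟨l, ⟨h1, h2⟩, l', ⟨h3, h4⟩, h5⟩ := hL
    simp only [Kind.inn, Kind.out, Valid] at h1 h2 h3 h4 h5
    match r, hr with
    | x :: r, hr =>
      simp only [List.length_cons] at hr
      simp only [opw_cons, opw_nil, mul_one, Function.iterate_zero, id, zpow_zero, one_mul,
        Function.iterate_one, zE, Module.End.mul_apply, shift_cons, LinearMap.smul_apply,
        Pi.smul_apply, smul_eq_mul, cupE_apply, capE_cons, Module.End.one_apply]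
      simp_rw [cw_symm _ x]
      rw [← Finset.mul_sum, ← mul_assoc, mul_inv_cancel₀ hd, one_mul, sum_cw_mul,
        hf.head_eq r rfl (by omega)]
      ring
    | [], hr => simp at hr; omega
  | turnCap c hc =>
    rintro X K _ _ _ q d hq hd hn hn0 m n n' hL - f hf r hr
    obtain ⟨l, ⟨h1, h2⟩, l', ⟨h3, h4⟩, h5⟩ := hL
    rw [Kind.inn_crossing hc] at h1
    simp only at h1
    match r, hr with
    | x :: y :: z :: r, hr =>
      simp only [opw_cons, opw_nil, mul_one, Function.iterate_zero, id, zpow_zero, one_mul,
        Function.iterate_one, Module.End.mul_apply]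
      rcases cross_cases hc with hc | rfl
      · rw [zE_classical q d hc, zE_classical q d (flip_classical hc)]
        simp only [zE, shift_smul, LinearMap.smul_apply, map_smul, Pi.smul_apply, smul_eq_mul]
        rw [xE_turn_cap hq hn hn0 hc]
      · simp only [zE, Kind.flip, shift_smul, LinearMap.smul_apply, map_smul, Pi.smul_apply,
          smul_eq_mul, shift_cons, vE_cons, capE_cons]
    | [a, b], hr => simp at hr; omega
    | [a], hr => simp at hr; omega
    | [], hr => simp at hr; omega
  | turnCup c hc =>
    rintro X K _ _ _ q d hq hd hn hn0 m n n' hL hR f hf r hr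
    obtain ⟨l, ⟨h1, h2⟩, l', ⟨h3, h4⟩, h5⟩ := hL
    rw [Kind.inn_crossing hc] at h3
    simp only [Kind.inn, Kind.out] at h1 h2 h3
    match r, hr with
    | y :: r, hr =>
      simp only [opw_cons, opw_nil, mul_one, Function.iterate_zero, id, zpow_zero, one_mul,
        Function.iterate_one, Module.End.mul_apply]
      rcases cross_cases hc with hc | rfl
      · rw [zE_classical q d hc, zE_classical q d (flip_classical hc)]
        simp only [zE, shift_smul, LinearMap.smul_apply, map_smul, Pi.smul_apply, smul_eq_mul]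
        rw [cup_xE_turn]
      · simp only [zE, Kind.flip, shift_smul, LinearMap.smul_apply, Pi.smul_apply,
          smul_eq_mul, shift_cons, vE_cons, cupE_apply]
    | [], hr => simp at hr; omega
  | kinkCap c hc =>
    rintro X K _ _ _ q d hq hd hn hn0 m n n' hL - f hf r hr
    obtain ⟨l, ⟨h1, h2⟩, l', ⟨h3, h4⟩, h5⟩ := hL
    rw [Kind.inn_crossing hc] at h1
    simp only at h1
    match r, hr with
    | x :: y :: r, hr =>
      simp only [opw_cons, opw_nil, mul_one, Function.iterate_zero, id, one_mul,
        Function.iterate_one, Module.End.mul_apply]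
      rw [← kf_eq]
      rcases cross_cases hc with hc | rfl
      · rw [zE_classical q d hc]
        simp only [zE, LinearMap.smul_apply, map_smul, Pi.smul_apply, smul_eq_mul]
        rw [xE_cap hq hn hn0 hc]
        ring
      · simp only [zE, LinearMap.smul_apply, map_smul, Pi.smul_apply,
          smul_eq_mul, vE_cons, capE_cons, kf, one_mul]
        rw [cw_symm]
    | [a], hr => simp at hr; omega
    | [], hr => simp at hr; omega
  | kinkCup c hc =>
    rintro X K _ _ _ q d hq hd hn hn0 m n n' hL - f hf r hr
    obtain ⟨l, ⟨h1, h2⟩, l', ⟨h3, h4⟩, h5⟩ := hL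
    simp only [Kind.inn_crossing hc, Kind.out_crossing hc] at h4
    simp only [Kind.inn, Kind.out, Valid] at h1 h2 h5
    simp only [opw_cons, opw_nil, mul_one, Function.iterate_zero, id, one_mul,
      Function.iterate_one, Module.End.mul_apply]
    rw [← kf_eq]
    rcases cross_cases hc with hc | rfl
    · rw [zE_classical q d hc]
      simp only [zE, LinearMap.smul_apply, Pi.smul_apply, smul_eq_mul]
      rw [cup_xE hq hn hn0 hc f r (fun x => hf.head2_eq x r rfl (by omega))]
      ring
    · simp only [zE, LinearMap.smul_apply, Pi.smul_apply,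
          smul_eq_mul, vE_cons, cupE_apply, kf, one_mul]
  | two c hc =>
    rintro X K _ _ _ q d hq hd hn hn0 m n n' hL - f hf r hr
    obtain ⟨l, ⟨h1, h2⟩, l', ⟨h3, h4⟩, h5⟩ := hL
    rw [Kind.inn_crossing hc] at h1
    simp only at h1
    match r, hr with
    | x :: y :: r, hr =>
      simp only [opw_cons, opw_nil, mul_one, Function.iterate_zero, id, zpow_zero, one_mul,
        Function.iterate_one, Module.End.mul_apply, Module.End.one_apply]
      rcases cross_cases hc with hc | rfl
      · rw [zE_classical q d hc, zE_classical q d (flip_classical hc)]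
        rw [xE_two hq hn hn0 hc]
      · simp only [zE, Kind.flip, vE_cons]
    | [a], hr => simp at hr; omega
    | [], hr => simp at hr; omega
  | three c hc =>
    rintro X K _ _ _ q d hq hd hn hn0 m n n' hL hR f hf r hr
    obtain ⟨l, ⟨h1, h2⟩, -⟩ := hR
    rw [Kind.inn_crossing hc] at h1
    simp only at h1
    match r, hr with
    | x :: y :: z :: r, hr =>
      simp only [opw_cons, opw_nil, mul_one, Function.iterate_zero, id, zpow_zero, one_mul,
        Function.iterate_one]
      rcases cross_cases hc with hc | rfl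
      · rw [zE_classical q d hc, xE_braid hq hn hn0 hc]
      · simp only [zE, Module.End.mul_apply, vE_cons, shift_cons]
    | [a, b], hr => simp at hr; omega
    | [a], hr => simp at hr; omega
    | [], hr => simp at hr; omega
  | mixed c hc =>
    rintro X K _ _ _ q d hq hd hn hn0 m n n' hL hR f hf r hr
    obtain ⟨l, ⟨h1, h2⟩, -⟩ := hR
    rw [Kind.inn_crossing hc] at h1
    simp only at h1
    match r, hr with
    | x :: y :: z :: r, hr =>
      simp only [opw_cons, opw_nil, mul_one, Function.iterate_zero, id, zpow_zero, one_mul,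
        Function.iterate_one, Module.End.mul_apply]
      rcases cross_cases hc with hc | rfl
      · rw [zE_classical q d hc]
        simp only [zE]
        rw [xE_mixed]
      · simp only [zE, vE_cons, shift_cons]
    | [a, b], hr => simp at hr; omega
    | [a], hr => simp at hr; omega
    | [], hr => simp at hr; omega
  | virtualisation c hc =>
    rintro X K _ _ _ q d hq hd hn hn0 m n n' hL hR f hf r hr
    obtain ⟨l, ⟨h1, h2⟩, -⟩ := hR
    rw [Kind.inn_crossing hc] at h1
    simp only at h1
    match r, hr with
    | x :: y :: r, hr =>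
      simp only [opw_cons, opw_nil, mul_one, Function.iterate_zero, id, zpow_zero, one_mul,
        Module.End.mul_apply]
      rcases cross_cases hc with hc | rfl
      · rw [zE_classical q d hc]
        simp only [zE]
        rw [xE_virt]
      · simp only [zE, vE_cons]
    | [a], hr => simp at hr; omega
    | [], hr => simp at hr; omega
  | @addStrand L R k hLR ih =>
    rintro X K _ _ _ q d hq hd hn hn0 m n n' hL hR f hf r hr
    match r, hr with
    | [], hr =>
      simp only [List.length_nil] at hr
      subst hr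
      have hnil : ∀ (w : List Piece) {n : ℕ}, Valid (w.map Piece.succ) 0 n → w = [] := by
        intro w n hw
        cases w with
        | nil => rfl
        | cons p w =>
          obtain ⟨l, ⟨h1, -⟩, -⟩ := hw
          simp only [Piece.succ] at h1
          omega
      exact absurd (hnil L hL) (local_ne_nil hLR)
    | x :: r, hr =>
      simp only [List.length_cons] at hr
      subst hr
      obtain ⟨s, rfl, hs⟩ := valid_succ' L hL
      obtain ⟨s', -, hs'⟩ := valid_succ' R hR
      rw [opw_succ, opw_succ]
      exact ih X K q d hq hd hn hn0 hs hs' _ (hf.cons x) r rfl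

/-- The spin model value of a diagram. -/
noncomputable def spinVal {X K : Type} [Field K] [Fintype X] [DecidableEq X] (q d : K)
    (D : Diagram) : K := opw (zE q d) D.word (fun _ : List X => (1 : K)) []

theorem spin_move {D D' : Diagram} {A L R B : List Piece} {k : ℤ} (hLR : LocalK L R k)
    (h1 : D.word = A ++ L ++ B) (h2 : D'.word = A ++ R ++ B) :
    ∀ (X K : Type) [Field K] [Fintype X] [DecidableEq X] (q d : K), q ≠ 0 → d ≠ 0 →
      (Fintype.card X : K) = q + 2 + q⁻¹ → (Fintype.card X : K) ≠ 0 →
      spinVal (X := X) q d D = (q ^ 2) ^ k * spinVal (X := X) q d D' := by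
  intro X K _ _ _ q d hq hd hn hn0
  have hD := D.closed
  have hD' := D'.closed
  rw [h1, List.append_assoc] at hD
  rw [h2, List.append_assoc] at hD'
  obtain ⟨m, hA, hLB⟩ := valid_append A _ hD
  obtain ⟨m', hA', hRB⟩ := valid_append A _ hD'
  obtain rfl := valid_unique A hA hA'
  obtain ⟨n, hL, hB⟩ := valid_append L _ hLB
  obtain ⟨n', hR, -⟩ := valid_append R _ hRB
  unfold spinVal
  rw [h1, h2, List.append_assoc, List.append_assoc, opw_append, opw_append, opw_append, opw_append]
  simp only [Module.End.mul_apply]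
  have hred0 : Red 0 (fun _ : List X => (1 : K)) := by
    intro a b hab
    omega
  have hred : Red n (opw (zE q d) B (fun _ : List X => (1 : K))) :=
    opw_pred (zE_loc q d) (zE_pred d hq hn hn0) B hB _ hred0
  have h3 := (opw_loc (zE_loc q d) A hA).congr (f := opw (zE q d) L
    (opw (zE q d) B (fun _ : List X => (1 : K)))) (g := (q ^ 2) ^ k • opw (zE q d) R
    (opw (zE q d) B (fun _ : List X => (1 : K))))
    (fun b hb => spin_local hLR X K q d hq hd hn hn0 hL hR _ hred b hb) [] rfl
  rw [h3, map_smul]
  rfl

end Pool.Agent.Lib.MP_31c440_gt.H28
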