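import Pool.Agent.Lib.MP_31c440_gt.H28.SModel
import Pool.Agent.Lib.MP_31c440_gt.H28.Spin

/-! # The colour-two polynomial of a classical diagram is a spin model value -/

namespace Pool.Agent.Lib.MP_31c440_gt.H28

open Pool.Agent.Lib.MP_31c440_gt.H23

section
variable {X K : Type} [Field K]

/-- The operators of the two-cable with Jones-Wenzl idempotents. -/
def cab (T : Kind → ℕ → Module.End K (Fn X K)) (δ : K) : Kind → ℕ → Module.End K (Fn X K)
  | .cup, k => T .cup (2 * k) * T .cup (2 * k + 1)
  | .cap, k => (1 - δ⁻¹ • (T .cap (2 * k) * T .cup (2 * k))) *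
      (T .cap (2 * k + 1) * T .cap (2 * k))
  | c, k => T c (2 * k + 1) * (T c (2 * k) * (T c (2 * k + 2) * T c (2 * k + 1)))

theorem cableAt_eq (A : K) (c : Kind) (k : ℕ) : cableAt A c k = cab (bAt A) (loopVal A) c k := by
  cases c <;> rfl

/-- The pieces of the two-cable of a cup or a crossing. -/
def cabw : Kind → ℕ → List Piece
  | .cup, k => [⟨.cup, 2 * k⟩, ⟨.cup, 2 * k + 1⟩]
  | .cap, k => [⟨.cap, 2 * k + 1⟩, ⟨.cap, 2 * k⟩]
  | c, k => [⟨c, 2 * k + 1⟩, ⟨c, 2 * k⟩, ⟨c, 2 * k + 2⟩, ⟨c, 2 * k + 1⟩]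

theorem valid_cabw {c : Kind} {k m l : ℕ} (h : (⟨c, k⟩ : Piece).Fits m l) :
    Valid (cabw c k) (2 * m) (2 * l) := by
  obtain ⟨h1, h2⟩ := h
  simp only at h1 h2
  have hcr : ∀ c : Kind, c.inn = 2 → c.out = 2 → k + 2 ≤ m → l = m →
      Valid [⟨c, 2 * k + 1⟩, ⟨c, 2 * k⟩, ⟨c, 2 * k + 2⟩, ⟨c, 2 * k + 1⟩] (2 * m) (2 * l) := by
    rintro c hi ho hkm rfl
    exact ⟨2 * l, ⟨by simp only [hi]; omega, by simp only [hi, ho]⟩, 2 * l,
      ⟨by simp only [hi]; omega, by simp only [hi, ho]⟩, 2 * l,
      ⟨by simp only [hi]; omega, by simp only [hi, ho]⟩, 2 * l,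
      ⟨by simp only [hi]; omega, by simp only [hi, ho]⟩, rfl⟩
  cases c with
  | cup =>
    simp only [Kind.inn, Kind.out] at h1 h2
    exact ⟨2 * m + 2, ⟨by simp only [Kind.inn]; omega, by simp only [Kind.inn, Kind.out]⟩,
      2 * l, ⟨by simp only [Kind.inn]; omega, by simp only [Kind.inn, Kind.out]; omega⟩, rfl⟩
  | cap =>
    simp only [Kind.inn, Kind.out] at h1 h2
    exact ⟨2 * l + 2, ⟨by simp only [Kind.inn]; omega, by simp only [Kind.inn, Kind.out]; omega⟩,
      2 * l, ⟨by simp only [Kind.inn]; omega, by simp only [Kind.inn, Kind.out]⟩, rfl⟩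
  | left =>
    simp only [Kind.inn, Kind.out] at h1 h2
    exact hcr .left rfl rfl h1 (by omega)
  | right =>
    simp only [Kind.inn, Kind.out] at h1 h2
    exact hcr .right rfl rfl h1 (by omega)
  | virt =>
    simp only [Kind.inn, Kind.out] at h1 h2
    exact hcr .virt rfl rfl h1 (by omega)

theorem valid_cabw_hook {k m l : ℕ} (h : (⟨.cap, k⟩ : Piece).Fits m l) :
    Valid (⟨.cap, 2 * k⟩ :: ⟨.cup, 2 * k⟩ :: cabw .cap k) (2 * m) (2 * l) := by
  have h0 := valid_cabw h
  obtain ⟨h1, h2⟩ := h
  simp only [Kind.inn, Kind.out] at h1 h2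
  exact ⟨2 * m - 2, ⟨by simp only [Kind.inn]; omega, by simp only [Kind.inn, Kind.out]; omega⟩,
      2 * m, ⟨by simp only [Kind.inn]; omega, by simp only [Kind.inn, Kind.out]; omega⟩, h0⟩

/-- If two families of operators have the same values on closed classical words, they have the
same coloured values. -/
theorem cab_congr {Y : Type} {T : Kind → ℕ → Module.End K (Fn X K)}
    {S : Kind → ℕ → Module.End K (Fn Y K)} (δ : K)
    (h : ∀ w, (∀ p ∈ w, p.kind ≠ .virt) → Valid w 0 0 → gval T w = gval S w) (w : List Piece) :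
    ∀ (u : List Piece) (m : ℕ), Valid u 0 (2 * m) → Valid w m 0 → (∀ p ∈ u, p.kind ≠ .virt) →
      (∀ p ∈ w, p.kind ≠ .virt) →
      (gop T u * gop (cab T δ) w) (fun _ => 1) [] = (gop S u * gop (cab S δ) w) (fun _ => 1) [] := by
  induction w with
  | nil =>
    rintro u m hu hw hu' -
    obtain rfl : m = 0 := hw
    simp only [gop_nil, mul_one]
    exact h u hu' hu
  | cons p w ih =>
    rintro u m hu ⟨l, hp, hw⟩ hu' hw'
    have hw'' : ∀ p ∈ w, p.kind ≠ .virt := fun p hp => hw' p (List.mem_cons_of_mem _ hp)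
    have hpk := hw' p List.mem_cons_self
    obtain ⟨c, k⟩ := p
    simp only at hpk
    have hc : ∀ r ∈ cabw c k, r.kind ≠ .virt := by
      intro r hr
      cases c <;> simp only [cabw, List.mem_cons, List.not_mem_nil, or_false] at hr
      · rcases hr with rfl | rfl <;> simp
      · rcases hr with rfl | rfl <;> simp
      · rcases hr with rfl | rfl | rfl | rfl <;> simp
      · rcases hr with rfl | rfl | rfl | rfl <;> simp
      · exact absurd rfl hpk
    have h1 := ih (u ++ cabw c k) l (valid_append_intro u _ hu (valid_cabw hp)) hw (by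
      intro r hr
      rcases List.mem_append.1 hr with hr | hr
      · exact hu' r hr
      · exact hc r hr) hw''
    simp only [gop_append] at h1
    cases c with
    | cup =>
      simp only [cabw, gop_cons, gop_nil, mul_one] at h1
      simp only [gop_cons, cab]
      rw [← mul_assoc, ← mul_assoc (gop S u)]
      exact h1
    | cap =>
      have h2 := ih (u ++ (⟨.cap, 2 * k⟩ :: ⟨.cup, 2 * k⟩ :: cabw .cap k)) l
        (valid_append_intro u _ hu (valid_cabw_hook hp)) hw (by
        intro r hr
        rcases List.mem_append.1 hr with hr | hr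
        · exact hu' r hr
        · rcases List.mem_cons.1 hr with rfl | hr
          · simp
          · rcases List.mem_cons.1 hr with rfl | hr
            · simp
            · exact hc r hr) hw''
      simp only [gop_append, cabw, gop_cons, gop_nil, mul_one] at h1 h2
      simp only [gop_cons, cab]
      have e : ∀ {Z : Type} (U a b c d W : Module.End K (Fn Z K)),
          U * ((1 - δ⁻¹ • (a * b)) * (c * d) * W) =
            U * (c * d) * W - δ⁻¹ • (U * (a * (b * (c * d))) * W) := by
        intro Z U a b c d W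
        rw [sub_mul, one_mul, smul_mul_assoc, sub_mul, mul_sub, smul_mul_assoc, mul_smul_comm]
        simp only [mul_assoc]
      rw [e, e]
      simp only [LinearMap.sub_apply, LinearMap.smul_apply, Pi.sub_apply, Pi.smul_apply,
        smul_eq_mul]
      rw [h1, h2]
    | left =>
      simp only [cabw, gop_cons, gop_nil, mul_one] at h1
      simp only [gop_cons, cab]
      rw [← mul_assoc, ← mul_assoc (gop S u)]
      exact h1
    | right =>
      simp only [cabw, gop_cons, gop_nil, mul_one] at h1
      simp only [gop_cons, cab]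
      rw [← mul_assoc, ← mul_assoc (gop S u)]
      exact h1
    | virt => exact absurd rfl hpk

end

section
variable {X K : Type} [Field K] [Fintype X] [DecidableEq X] {A δ : K}

theorem sAt_even (c : Kind) (k : ℕ) :
    (sAt A δ c (2 * k) : Module.End K (Fn X K)) = shift^[k] (s0E A δ c) := by
  induction k with
  | zero => rfl
  | succ k ih =>
    rw [show 2 * (k + 1) = 2 * k + 2 by omega, Function.iterate_succ_apply', ← ih]
    rfl

theorem sAt_odd (c : Kind) (k : ℕ) :
    (sAt A δ c (2 * k + 1) : Module.End K (Fn X K)) = shift^[k] (s1E A δ c) := by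
  induction k with
  | zero => rfl
  | succ k ih =>
    rw [show 2 * (k + 1) + 1 = (2 * k + 1) + 2 by omega, Function.iterate_succ_apply', ← ih]
    rfl

/-- The diagonal operators. -/
theorem s1_cross (hA : A ≠ 0) (hδ : δ = loopVal A) {c : Kind} (hc : c = .left ∨ c = .right)
    (f : Fn X K) (x y : X) (l : List X) :
    s1E A δ c f (x :: y :: l) =
      (if c = .right then A else A⁻¹) * (wt (A ^ 4) c x y * f (x :: y :: l)) := by
  rcases hc with rfl | rfl
  · simp only [s1E, LinearMap.add_apply, LinearMap.smul_apply, Pi.add_apply, Pi.smul_apply,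
      smul_eq_mul, Module.End.one_apply, Module.End.mul_apply, s1Cap_cons, s1Cup_cons, wt]
    by_cases h : x = y
    · subst h
      simp only [if_true, hδ, loopVal, reduceCtorEq, if_false]
      field_simp
      ring
    · simp [h]
  · simp only [s1E, LinearMap.add_apply, LinearMap.smul_apply, Pi.add_apply, Pi.smul_apply,
      smul_eq_mul, Module.End.one_apply, Module.End.mul_apply, s1Cap_cons, s1Cup_cons, wt]
    by_cases h : x = y
    · subst h
      simp only [if_true, hδ, loopVal]
      field_simp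
      ring
    · simp [h]

/-- The matrix operators. -/
theorem s0_cross (hA : A ≠ 0) (hδ : δ = loopVal A) (hδ0 : δ ≠ 0) {c : Kind}
    (hc : c = .left ∨ c = .right) (f : Fn X K) (x : X) (l : List X) :
    s0E A δ c f (x :: l) =
      (if c = .right then A⁻¹ else A) * (δ⁻¹ * ∑ u, wt (A ^ 4) c.flip x u * f (u :: l)) := by
  have key : ∀ e : K, ∑ u, (1 + e * (if x = u then (1 : K) else 0)) * f (u :: l) =
      ∑ u, f (u :: l) + e * f (x :: l) := by
    intro e
    simp only [add_mul, one_mul, Finset.sum_add_distrib]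
    simp
  rcases hc with rfl | rfl
  · simp only [s0E, LinearMap.add_apply, LinearMap.smul_apply, Pi.add_apply, Pi.smul_apply,
      smul_eq_mul, Module.End.one_apply, Module.End.mul_apply, s0Cap_cons, s0Cup_apply]
    simp_rw [wt_eq]
    rw [key]
    simp only [ex, Kind.flip, reduceCtorEq, if_false]
    have h1 : A⁻¹ = A * (δ⁻¹ * (-(A ^ 4)⁻¹ - 1)) := by
      have : δ = A * (-(A ^ 4)⁻¹ - 1) * A := by
        rw [hδ]; unfold loopVal; field_simp; ring
      field_simp
      rw [this]
      field_simp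
    linear_combination f (x :: l) * h1
  · simp only [s0E, LinearMap.add_apply, LinearMap.smul_apply, Pi.add_apply, Pi.smul_apply,
      smul_eq_mul, Module.End.one_apply, Module.End.mul_apply, s0Cap_cons, s0Cup_apply]
    simp_rw [wt_eq]
    rw [key]
    simp only [ex, Kind.flip, if_true]
    have h1 : A = A⁻¹ * (δ⁻¹ * (-(A ^ 4) - 1)) := by
      have : δ = A⁻¹ * (-(A ^ 4) - 1) * A⁻¹ := by
        rw [hδ]; unfold loopVal; field_simp
      field_simp
      rw [this]
      field_simp
    linear_combination f (x :: l) * h1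

theorem cab_cup (c1 : Module.End K (Fn X K)) (h : c1 = s0Cup * s1Cup δ) : c1 = δ • cupE := by
  subst h
  refine LinearMap.ext fun f => funext fun l => ?_
  simp only [Module.End.mul_apply, s0Cup_apply, s1Cup_cons, LinearMap.smul_apply, Pi.smul_apply,
    smul_eq_mul, cupE_apply, Finset.mul_sum]

theorem cab_cap (hδ0 : δ ≠ 0) (hn : (Fintype.card X : K) = δ * δ) :
    (s1Cap * s0Cap δ + (-δ⁻¹) • (s0Cap δ * s0Cup * (s1Cap * s0Cap δ)) :
      Module.End K (Fn X K)) = δ⁻¹ • capE := by
  refine LinearMap.ext fun f => funext fun l => ?_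
  match l with
  | [] => simp
  | [x] => simp
  | x :: y :: l =>
    simp only [LinearMap.add_apply, LinearMap.smul_apply, Pi.add_apply, Pi.smul_apply,
      smul_eq_mul, Module.End.mul_apply, s1Cap_cons, s0Cap_cons, s0Cup_apply, capE_cons, cw, hn]
    rw [Finset.sum_ite_eq' Finset.univ y]
    simp only [Finset.mem_univ, if_true]
    by_cases h : x = y
    · simp only [h, if_true]
      field_simp
      ring
    · simp only [h, if_false]
      field_simp
      ring

theorem cab_cross (hA : A ≠ 0) (hδ : δ = loopVal A) (hδ0 : δ ≠ 0)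
    (hn : (Fintype.card X : K) = δ * δ) {c : Kind}
    (hc : c = .left ∨ c = .right) (f : Fn X K) (a : List X) (ha : 2 ≤ a.length) :
    (s1E A δ c * (s0E A δ c * (shift (s0E A δ c) * s1E A δ c)) : Module.End K (Fn X K)) f a =
      xE (A ^ 4) c f a := by
  match a, ha with
  | x :: y :: l, _ =>
    simp only [Module.End.mul_apply]
    rw [s1_cross hA hδ hc, s0_cross hA hδ hδ0 hc]
    simp only [shift_cons]
    simp_rw [s0_cross hA hδ hδ0 hc, s1_cross hA hδ hc]
    rw [xE_cons, hn]
    have hr : (if c = .right then A else A⁻¹) * (if c = .right then A⁻¹ else A) = 1 := by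
      split_ifs
      · exact mul_inv_cancel₀ hA
      · exact inv_mul_cancel₀ hA
    generalize (if c = .right then A else A⁻¹) = r at hr ⊢
    generalize (if c = .right then A⁻¹ else A) = s at hr ⊢
    have h1 : ∀ u : X, wt (A ^ 4) c.flip x u * (s * (δ⁻¹ * ∑ v, wt (A ^ 4) c.flip y v *
        (r * (wt (A ^ 4) c u v * f (u :: v :: l))))) =
        δ⁻¹ * (wt (A ^ 4) c.flip x u * ∑ v, wt (A ^ 4) c.flip y v *
        (wt (A ^ 4) c u v * f (u :: v :: l))) := by
      intro u
      have h2 : ∑ v, wt (A ^ 4) c.flip y v * (r * (wt (A ^ 4) c u v * f (u :: v :: l))) =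
          r * ∑ v, wt (A ^ 4) c.flip y v * (wt (A ^ 4) c u v * f (u :: v :: l)) := by
        rw [Finset.mul_sum]
        exact Finset.sum_congr rfl fun v _ => by ring
      rw [h2]
      linear_combination (wt (A ^ 4) c.flip x u * δ⁻¹ * ∑ v, wt (A ^ 4) c.flip y v *
        (wt (A ^ 4) c u v * f (u :: v :: l))) * hr
    simp_rw [h1]
    rw [← Finset.mul_sum, mul_inv]
    linear_combination (δ⁻¹ * δ⁻¹ * (wt (A ^ 4) c x y * ∑ u, wt (A ^ 4) c.flip x u *
      ∑ v, wt (A ^ 4) c.flip y v * (wt (A ^ 4) c u v * f (u :: v :: l)))) * hr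

/-- The coloured operators of the spin model are the operators `zE`. -/
theorem cab_spin (hA : A ≠ 0) (hδ : δ = loopVal A) (hδ0 : δ ≠ 0)
    (hn : (Fintype.card X : K) = δ * δ) {c : Kind} {k m l : ℕ} (hc : c ≠ .virt)
    (h : (⟨c, k⟩ : Piece).Fits m l) (f : Fn X K) (a : List X) (ha : a.length = m) :
    cab (fun c k => (sAt A δ c k : Module.End K (Fn X K))) δ c k f a =
      shift^[k] (zE (A ^ 4) δ c) f a := by
  obtain ⟨h1, h2⟩ := h
  have hcr : ∀ c : Kind, (c = .left ∨ c = .right) → k + 2 ≤ m →
      (sAt A δ c (2 * k + 1) * (sAt A δ c (2 * k) * (sAt A δ c (2 * k + 2) *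
        sAt A δ c (2 * k + 1))) : Module.End K (Fn X K)) f a =
      shift^[k] (xE (A ^ 4) c) f a := by
    intro c hc hkm
    rw [show 2 * k + 2 = 2 * (k + 1) by omega, sAt_even, sAt_even, sAt_odd,
      Function.iterate_succ_apply, ← shift_iter_mul, ← shift_iter_mul, ← shift_iter_mul]
    exact shift_iter_congr (c := 2) (fun f a ha => cab_cross hA hδ hδ0 hn hc f a ha) k f a
      (by omega)
  cases c with
  | cup =>
    simp only [cab]
    rw [sAt_even, sAt_odd, ← shift_iter_mul]
    simp only [s0E, s1E, zE]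
    rw [cab_cup (X := X) (δ := δ) _ rfl]
  | cap =>
    simp only [cab]
    rw [sAt_even, sAt_even, sAt_odd]
    simp only [s0E, s1E, zE]
    have e : ∀ P Q : Module.End K (Fn X K), (1 - δ⁻¹ • P) * Q = Q + (-δ⁻¹) • (P * Q) := by
      intro P Q
      rw [sub_mul, one_mul, smul_mul_assoc, sub_eq_add_neg]
      congr 1
      exact (neg_smul _ _).symm
    rw [e, ← shift_iter_mul, ← shift_iter_mul, ← shift_iter_mul, ← shift_iter_smul,
      ← shift_iter_add, cab_cap hδ0 hn]
  | left =>
    simp only [Kind.inn] at h1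
    exact hcr .left (Or.inl rfl) h1
  | right =>
    simp only [Kind.inn] at h1
    exact hcr .right (Or.inr rfl) h1
  | virt => exact absurd rfl hc

theorem cab_spin_word (hA : A ≠ 0) (hδ : δ = loopVal A) (hδ0 : δ ≠ 0)
    (hn : (Fintype.card X : K) = δ * δ) (w : List Piece) : ∀ m : ℕ, Valid w m 0 →
    (∀ p ∈ w, p.kind ≠ .virt) → ∀ a : List X, a.length = m →
    gop (cab (fun c k => (sAt A δ c k : Module.End K (Fn X K))) δ) w (fun _ => 1) a =
      opw (zE (A ^ 4) δ) w (fun _ => 1) a := by
  induction w with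
  | nil => intro m _ _ a _; rfl
  | cons p w ih =>
    rintro m ⟨l, hp, hw⟩ hc a ha
    rw [gop_cons, opw_cons, Module.End.mul_apply, Module.End.mul_apply,
      cab_spin hA hδ hδ0 hn (hc p List.mem_cons_self) hp _ a ha]
    exact (piece_loc (zE_loc (A ^ 4) δ) hp).congr
      (fun b hb => ih l hw (fun p hp => hc p (List.mem_cons_of_mem _ hp)) b hb) a ha

/-- The colour-two polynomial of a classical diagram is a spin model value. -/
theorem colourTwo_eq_spin (hA : A ≠ 0) (hδ0 : loopVal A ≠ 0)
    (hn : (Fintype.card X : K) = loopVal A * loopVal A) (D : Diagram) (hD : D.Classical) :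
    colourTwo A D = spinVal (X := X) (A ^ 4) (loopVal A) D := by
  have h1 : colourTwo A D = gop (cab (bAt A) (loopVal A)) D.word (fun _ => 1) [] := by
    unfold colourTwo gop
    congr 3
  have h2 := cab_congr (T := bAt A) (S := fun c k => (sAt A (loopVal A) c k :
    Module.End K (Fn X K))) (loopVal A) (fun w hw hv => (bracket_isBracket A hA).unique
      (spin_isBracket hδ0 hn) _ w rfl hw hv) D.word [] 0 rfl D.closed (by simp) hD
  simp only [gop_nil, one_mul] at h2
  rw [h1, h2, cab_spin_word hA rfl hδ0 hn D.word 0 D.closed hD [] rfl]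
  rfl

end

end Pool.Agent.Lib.MP_31c440_gt.H28
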