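import Pool.Agent.Lib.MP_31c440_gt.H28.Elem

/-! # The moves and the operators of the spin model -/

namespace Pool.Agent.Lib.MP_31c440_gt.H28

open Pool.Agent.Lib.MP_31c440_gt.H23

section
variable {X K : Type} [Field K] [Fintype X] [DecidableEq X]

theorem sum_cw_mul (x : X) (g : X → K) :
    ∑ y, cw K x y * g y = g x - (Fintype.card X : K)⁻¹ * ∑ y, g y := by
  simp only [cw, sub_mul, Finset.sum_sub_distrib, ite_mul, one_mul, zero_mul, Finset.sum_ite_eq,
    Finset.mem_univ, if_true, Finset.mul_sum]

theorem cw_symm (x y : X) : cw K x y = cw K y x := by simp [cw, eq_comm]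

theorem sum_cw (hn0 : (Fintype.card X : K) ≠ 0) (x : X) : ∑ y, cw K x y = 0 := by
  have := sum_cw_mul (K := K) x (fun _ : X => (1 : K))
  simp only [mul_one] at this
  rw [this]
  simp [hn0]

/-- Type II relation applied to a function. -/
theorem two_apply {q : K} (hq : q ≠ 0) (hn : (Fintype.card X : K) = q + 2 + q⁻¹) {c : Kind}
    (hc : c = .left ∨ c = .right) (x : X) (g : X → K) :
    ∑ u, wt q c x u * ∑ v, wt q c.flip u v * g v = (Fintype.card X : K) * g x := by
  simp_rw [Finset.mul_sum]
  rw [Finset.sum_comm]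
  calc ∑ v, ∑ u, wt q c x u * (wt q c.flip u v * g v)
      = ∑ v, (if x = v then (Fintype.card X : K) else 0) * g v := by
        refine Finset.sum_congr rfl fun v _ => ?_
        rw [← wt_two hq hn hc x v, Finset.sum_mul]
        exact Finset.sum_congr rfl fun u _ => by ring
    _ = _ := by simp

theorem two_apply' {q : K} (hq : q ≠ 0) (hn : (Fintype.card X : K) = q + 2 + q⁻¹) {c : Kind}
    (hc : c = .left ∨ c = .right) (x : X) (g : X → K) :
    ∑ u, wt q c.flip x u * ∑ v, wt q c u v * g v = (Fintype.card X : K) * g x := by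
  have h := two_apply hq hn (c := c.flip) (by rcases hc with rfl | rfl <;> simp [Kind.flip]) x g
  rwa [Kind.flip_flip] at h

/-- Type II relation, symmetric form. -/
theorem wt_two' {q : K} (hq : q ≠ 0) (hn : (Fintype.card X : K) = q + 2 + q⁻¹) {c : Kind}
    (hc : c = .left ∨ c = .right) (x y : X) :
    ∑ u, wt q c.flip x u * wt q c u y = if x = y then (Fintype.card X : K) else 0 := by
  have h := wt_two hq hn (c := c.flip) (by rcases hc with rfl | rfl <;> simp [Kind.flip]) x y
  rwa [Kind.flip_flip] at h

/-- Factors of the kinks. -/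
def kf (q : K) : Kind → K
  | .right => q⁻¹ * q⁻¹
  | .left => q * q
  | _ => 1

theorem kink_id {q : K} (hq : q ≠ 0) (hn : (Fintype.card X : K) = q + 2 + q⁻¹)
    (hn0 : (Fintype.card X : K) ≠ 0) {c : Kind}
    (hc : c = .left ∨ c = .right) (x y : X) :
    (Fintype.card X : K)⁻¹ * (wt q c x x * (wt q c x y * ∑ u, wt q c.flip x u * wt q c.flip u y)) =
      kf q c * cw K x y + (Fintype.card X : K)⁻¹ := by
  simp_rw [wt_eq]
  rw [sum_two]
  unfold cw
  have h1 : (Fintype.card X : K)⁻¹ * (q + 2 + q⁻¹) = 1 := by
    rw [← hn]; exact inv_mul_cancel₀ hn0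
  generalize (Fintype.card X : K)⁻¹ = i at h1 ⊢
  rw [hn]
  have h2 : i * (q ^ 2 + 2 * q + 1) = q := by
    calc i * (q ^ 2 + 2 * q + 1) = q * (i * (q + 2 + q⁻¹)) := by field_simp
      _ = q := by rw [h1, mul_one]
  by_cases hxy : x = y
  · subst hxy
    rcases hc with rfl | rfl
    · simp only [ex, kf, Kind.flip, if_true]
      field_simp
      linear_combination q ^ 3 * h2
    · simp only [ex, kf, Kind.flip, if_true]
      field_simp
      linear_combination h2
  · rcases hc with rfl | rfl
    · simp only [ex, kf, Kind.flip, if_true, hxy, if_false]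
      field_simp
      ring
    · simp only [ex, kf, Kind.flip, if_true, hxy, if_false]
      field_simp
      ring

theorem xE_cap {q : K} (hq : q ≠ 0) (hn : (Fintype.card X : K) = q + 2 + q⁻¹)
    (hn0 : (Fintype.card X : K) ≠ 0) {c : Kind}
    (hc : c = .left ∨ c = .right) (f : Fn X K) (x y : X) (l : List X) :
    xE q c (capE f) (x :: y :: l) = kf q c * capE f (x :: y :: l) := by
  rw [xE_cons, capE_cons]
  have h1 : ∀ u : X, ∑ v, wt q c.flip y v * (wt q c u v * (cw K u v * f l)) =
      (wt q c x x * (wt q c.flip u y * f l)) -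
        (Fintype.card X : K)⁻¹ * (∑ v, wt q c.flip y v * wt q c v u) * f l := by
    intro u
    calc ∑ v, wt q c.flip y v * (wt q c u v * (cw K u v * f l))
        = ∑ v, cw K u v * (wt q c.flip y v * wt q c u v * f l) :=
          Finset.sum_congr rfl fun v _ => by ring
      _ = _ := by
          rw [sum_cw_mul, wt_symm q c.flip y u]
          congr 1
          · have : wt q c u u = wt q c x x := by simp [wt]
            rw [this]; ring
          · rw [mul_assoc, Finset.sum_mul]
            congr 1
            exact Finset.sum_congr rfl fun v _ => by rw [wt_symm q c u v]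
  simp only [capE_cons]
  simp_rw [h1, wt_two' hq hn hc]
  calc (Fintype.card X : K)⁻¹ * (wt q c x y * ∑ u, wt q c.flip x u *
        (wt q c x x * (wt q c.flip u y * f l) -
          (Fintype.card X : K)⁻¹ * (if y = u then (Fintype.card X : K) else 0) * f l))
      = ((Fintype.card X : K)⁻¹ * (wt q c x x * (wt q c x y * ∑ u, wt q c.flip x u *
          wt q c.flip u y)) - (Fintype.card X : K)⁻¹ * (wt q c x y * wt q c.flip x y)) * f l := by
        have h2 : ∑ u, wt q c.flip x u * (wt q c x x * (wt q c.flip u y * f l) -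
          (Fintype.card X : K)⁻¹ * (if y = u then (Fintype.card X : K) else 0) * f l) =
            (wt q c x x * ∑ u, wt q c.flip x u * wt q c.flip u y) * f l -
              wt q c.flip x y * f l := by
          rw [Finset.mul_sum, Finset.sum_mul]
          have h3 : ∀ u : X, wt q c.flip x u * (wt q c x x * (wt q c.flip u y * f l) -
              (Fintype.card X : K)⁻¹ * (if y = u then (Fintype.card X : K) else 0) * f l) =
              wt q c x x * (wt q c.flip x u * wt q c.flip u y) * f l -
                (if y = u then wt q c.flip x u * f l else 0) := by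
            intro u
            by_cases h : y = u
            · simp only [h, if_true]
              rw [inv_mul_cancel₀ hn0]
              ring
            · simp only [h, if_false]
              ring
          simp_rw [h3]
          rw [Finset.sum_sub_distrib]
          simp
        rw [h2]
        ring
    _ = _ := by
        rw [kink_id hq hn hn0 hc, wt_mul_flip hq]
        ring

theorem cup_xE {q : K} (hq : q ≠ 0) (hn : (Fintype.card X : K) = q + 2 + q⁻¹)
    (hn0 : (Fintype.card X : K) ≠ 0) {c : Kind}
    (hc : c = .left ∨ c = .right) (f : Fn X K) (l : List X)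
    (hf : ∀ x : X, ∑ y, f (x :: y :: l) = 0) :
    cupE (xE q c f) l = kf q c * cupE f l := by
  simp only [cupE_apply, xE_cons]
  have h0 : ∀ x : X, ∀ y : X, wt q c y y = wt q c x x := by intro x y; simp [wt]
  have key : ∀ x u v : X, (Fintype.card X : K)⁻¹ * (wt q c x x * (wt q c.flip x u *
      (wt q c.flip x v * (wt q c u v * f (u :: v :: l))))) =
      ((Fintype.card X : K)⁻¹ * (wt q c u u * (wt q c u v *
        (wt q c.flip u x * wt q c.flip x v)))) * f (u :: v :: l) := by
    intro x u v
    rw [h0 u x, wt_symm q c.flip x u]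
    ring
  calc ∑ x, (Fintype.card X : K)⁻¹ * (wt q c x x * ∑ u, wt q c.flip x u *
        ∑ v, wt q c.flip x v * (wt q c u v * f (u :: v :: l)))
      = ∑ x, ∑ u, ∑ v, ((Fintype.card X : K)⁻¹ * (wt q c u u * (wt q c u v *
        (wt q c.flip u x * wt q c.flip x v)))) * f (u :: v :: l) := by
        simp only [Finset.mul_sum, key]
    _ = ∑ u, ∑ v, ∑ x, ((Fintype.card X : K)⁻¹ * (wt q c u u * (wt q c u v *
        (wt q c.flip u x * wt q c.flip x v)))) * f (u :: v :: l) := by
        rw [Finset.sum_comm]
        exact Finset.sum_congr rfl fun u _ => Finset.sum_comm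
    _ = ∑ u, ∑ v, (kf q c * cw K u v + (Fintype.card X : K)⁻¹) * f (u :: v :: l) := by
        refine Finset.sum_congr rfl fun u _ => Finset.sum_congr rfl fun v _ => ?_
        rw [← kink_id hq hn hn0 hc, ← Finset.sum_mul, Finset.mul_sum, Finset.mul_sum,
          Finset.mul_sum]
    _ = ∑ u, kf q c * f (u :: u :: l) := by
        refine Finset.sum_congr rfl fun u _ => ?_
        simp only [add_mul, Finset.sum_add_distrib, mul_assoc]
        rw [← Finset.mul_sum, ← Finset.mul_sum, hf u, sum_cw_mul, hf u]
        ring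
    _ = _ := (Finset.mul_sum _ _ _).symm

theorem xE_two {q : K} (hq : q ≠ 0) (hn : (Fintype.card X : K) = q + 2 + q⁻¹)
    (hn0 : (Fintype.card X : K) ≠ 0) {c : Kind}
    (hc : c = .left ∨ c = .right) (f : Fn X K) (x y : X) (l : List X) :
    xE q c (xE q c.flip f) (x :: y :: l) = f (x :: y :: l) := by
  simp only [xE_cons, Kind.flip_flip]
  have h1 : ∀ u v : X, wt q c.flip y v * (wt q c u v * ((Fintype.card X : K)⁻¹ *
      (wt q c.flip u v * ∑ s, wt q c u s * ∑ t, wt q c v t * (wt q c.flip s t *
        f (s :: t :: l))))) =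
      (Fintype.card X : K)⁻¹ * (wt q c.flip y v * ∑ t, wt q c v t * ∑ s, (wt q c u s *
        (wt q c.flip s t * f (s :: t :: l)))) := by
    intro u v
    have h2 : ∑ s, wt q c u s * ∑ t, wt q c v t * (wt q c.flip s t * f (s :: t :: l)) =
        ∑ t, wt q c v t * ∑ s, (wt q c u s * (wt q c.flip s t * f (s :: t :: l))) := by
      simp only [Finset.mul_sum]
      rw [Finset.sum_comm]
      exact Finset.sum_congr rfl fun t _ => Finset.sum_congr rfl fun s _ => by ring
    rw [h2]
    have h3 := wt_mul_flip hq (c := c) u v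
    linear_combination (wt q c.flip y v * (Fintype.card X : K)⁻¹ * (∑ t, wt q c v t * ∑ s,
      (wt q c u s * (wt q c.flip s t * f (s :: t :: l))))) * h3
  simp_rw [h1, ← Finset.mul_sum]
  simp_rw [two_apply' hq hn hc y]
  have h4 : ∀ u : X, wt q c.flip x u * ((Fintype.card X : K)⁻¹ * ((Fintype.card X : K) *
      ∑ s, wt q c u s * (wt q c.flip s y * f (s :: y :: l)))) =
      wt q c.flip x u * ∑ s, wt q c u s * (wt q c.flip s y * f (s :: y :: l)) := by
    intro u
    field_simp
  simp_rw [h4]
  rw [two_apply' hq hn hc x]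
  have h3 := wt_mul_flip hq (c := c) x y
  calc (Fintype.card X : K)⁻¹ * (wt q c x y * ((Fintype.card X : K) * (wt q c.flip x y *
        f (x :: y :: l)))) = (wt q c x y * wt q c.flip x y) * f (x :: y :: l) := by
        field_simp
    _ = _ := by rw [h3, one_mul]

theorem xE_turn_cap {q : K} (hq : q ≠ 0) (hn : (Fintype.card X : K) = q + 2 + q⁻¹)
    (hn0 : (Fintype.card X : K) ≠ 0) {c : Kind}
    (hc : c = .left ∨ c = .right) (f : Fn X K) (x y z : X) (l : List X) :
    shift (xE q c) (capE f) (x :: y :: z :: l) = xE q c.flip (shift capE f) (x :: y :: z :: l) := by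
  rw [shift_cons, xE_cons, xE_cons]
  simp only [capE_cons, shift_cons, Kind.flip_flip]
  have h1 : ∑ u, wt q c.flip y u * ∑ v, wt q c.flip z v * (wt q c u v * (cw K x u * f (v :: l))) =
      wt q c.flip y x * (∑ v, wt q c.flip z v * (wt q c x v * f (v :: l))) -
        wt q c.flip z y * f (y :: l) := by
    calc ∑ u, wt q c.flip y u * ∑ v, wt q c.flip z v * (wt q c u v * (cw K x u * f (v :: l)))
        = ∑ u, cw K x u * (wt q c.flip y u * ∑ v, wt q c u v * (wt q c.flip z v * f (v :: l))) := by
          refine Finset.sum_congr rfl fun u _ => ?_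
          simp only [Finset.mul_sum]
          exact Finset.sum_congr rfl fun v _ => by ring
      _ = _ := by
          rw [sum_cw_mul, two_apply' hq hn hc]
          congr 1
          · congr 1
            exact Finset.sum_congr rfl fun v _ => by ring
          · field_simp
  have h2 : ∑ u, wt q c x u * ∑ v, wt q c y v * (wt q c.flip u v * (cw K v z * f (u :: l))) =
      wt q c y z * (∑ v, wt q c.flip z v * (wt q c x v * f (v :: l))) -
        wt q c x y * f (y :: l) := by
    have h3 : ∀ u : X, ∑ v, wt q c y v * (wt q c.flip u v * (cw K v z * f (u :: l))) =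
        wt q c y z * (wt q c.flip u z * f (u :: l)) -
          (Fintype.card X : K)⁻¹ * (∑ v, wt q c y v * wt q c.flip v u) * f (u :: l) := by
      intro u
      calc ∑ v, wt q c y v * (wt q c.flip u v * (cw K v z * f (u :: l)))
          = ∑ v, cw K z v * (wt q c y v * wt q c.flip v u * f (u :: l)) := by
            refine Finset.sum_congr rfl fun v _ => ?_
            rw [cw_symm v z, wt_symm q c.flip u v]
            ring
        _ = _ := by
            rw [sum_cw_mul, wt_symm q c.flip z u, mul_assoc, mul_assoc, Finset.sum_mul]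
    simp_rw [h3, wt_two hq hn hc]
    have h4 : ∀ u : X, wt q c x u * (wt q c y z * (wt q c.flip u z * f (u :: l)) -
        (Fintype.card X : K)⁻¹ * (if y = u then (Fintype.card X : K) else 0) * f (u :: l)) =
        wt q c y z * (wt q c.flip z u * (wt q c x u * f (u :: l))) -
          (if y = u then wt q c x u * f (u :: l) else 0) := by
      intro u
      rw [wt_symm q c.flip u z]
      by_cases h : y = u
      · simp only [h, if_true]
        rw [inv_mul_cancel₀ hn0]
        ring
      · simp only [h, if_false]
        ring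
    simp_rw [h4]
    rw [Finset.sum_sub_distrib, Finset.mul_sum]
    simp
  rw [h1, h2]
  have h3 := wt_mul_flip hq (c := c) y z
  have h4 := wt_mul_flip hq (c := c) x y
  rw [wt_symm q c.flip y x, wt_symm q c.flip z y]
  linear_combination (Fintype.card X : K)⁻¹ * f (y :: l) * (h4 - h3)

theorem cup_xE_turn {q : K} {c : Kind} (f : Fn X K) (b : X) (l : List X) :
    cupE (shift (xE q c) f) (b :: l) = shift cupE (xE q c.flip f) (b :: l) := by
  simp only [cupE_apply, shift_cons, xE_cons, Kind.flip_flip]
  simp only [Finset.mul_sum]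
  calc ∑ x, ∑ u, ∑ v, (Fintype.card X : K)⁻¹ * (wt q c x b * (wt q c.flip x u *
        (wt q c.flip b v * (wt q c u v * f (x :: u :: v :: l)))))
      = ∑ x, ∑ v, ∑ u, (Fintype.card X : K)⁻¹ * (wt q c x b * (wt q c.flip x u *
        (wt q c.flip b v * (wt q c u v * f (x :: u :: v :: l))))) :=
        Finset.sum_congr rfl fun x _ => Finset.sum_comm
    _ = ∑ v, ∑ x, ∑ u, (Fintype.card X : K)⁻¹ * (wt q c x b * (wt q c.flip x u *
        (wt q c.flip b v * (wt q c u v * f (x :: u :: v :: l))))) := Finset.sum_comm
    _ = _ := by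
        refine Finset.sum_congr rfl fun v _ => Finset.sum_congr rfl fun x _ =>
          Finset.sum_congr rfl fun u _ => ?_
        rw [wt_symm q c x b, wt_symm q c u v]
        ring

theorem xE_virt (q : K) (c : Kind) (f : Fn X K) (x y : X) (l : List X) :
    vE (xE q c (vE f)) (x :: y :: l) = xE q c f (x :: y :: l) := by
  simp only [vE_cons, xE_cons, Finset.mul_sum]
  rw [Finset.sum_comm]
  refine Finset.sum_congr rfl fun v _ => Finset.sum_congr rfl fun u _ => ?_
  rw [wt_symm q c y x, wt_symm q c u v]
  ring

theorem xE_mixed (q : K) (c : Kind) (f : Fn X K) (x y z : X) (l : List X) :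
    vE (shift vE (xE q c f)) (x :: y :: z :: l) =
      shift (xE q c) (vE (shift vE f)) (x :: y :: z :: l) := by
  simp only [vE_cons, shift_cons, xE_cons]

/-- Sums over the first label of the operator of a crossing. -/
theorem sum_xE_one {q : K} (hq : q ≠ 0) (hn : (Fintype.card X : K) = q + 2 + q⁻¹)
    (hn0 : (Fintype.card X : K) ≠ 0) {c : Kind}
    (hc : c = .left ∨ c = .right) (f : Fn X K) (y : X) (l : List X) :
    ∑ x, xE q c f (x :: y :: l) = ∑ v, f (y :: v :: l) := by
  simp only [xE_cons]
  rw [← Finset.mul_sum]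
  have h1 : ∑ x, wt q c x y * ∑ u, wt q c.flip x u *
      ∑ v, wt q c.flip y v * (wt q c u v * f (u :: v :: l)) =
      (Fintype.card X : K) * ∑ v, wt q c.flip y v * (wt q c y v * f (y :: v :: l)) := by
    rw [← two_apply hq hn hc y (fun u => ∑ v, wt q c.flip y v * (wt q c u v * f (u :: v :: l)))]
    exact Finset.sum_congr rfl fun x _ => by rw [wt_symm q c x y]
  rw [h1, ← mul_assoc, inv_mul_cancel₀ hn0, one_mul]
  refine Finset.sum_congr rfl fun v _ => ?_
  have h3 := wt_mul_flip hq (c := c) y v
  linear_combination f (y :: v :: l) * h3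

/-- Sums over the second label of the operator of a crossing. -/
theorem sum_xE_two {q : K} (hq : q ≠ 0) (hn : (Fintype.card X : K) = q + 2 + q⁻¹)
    (hn0 : (Fintype.card X : K) ≠ 0) {c : Kind}
    (hc : c = .left ∨ c = .right) (f : Fn X K) (x : X) (l : List X) :
    ∑ y, xE q c f (x :: y :: l) = ∑ u, f (u :: x :: l) := by
  have h := sum_xE_one hq hn hn0 hc (vE f) x l
  simp only [vE_cons] at h
  rw [← h]
  refine Finset.sum_congr rfl fun y _ => ?_
  rw [← xE_virt, vE_cons]

end

end Pool.Agent.Lib.MP_31c440_gt.H28
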