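import Pool.Agent.Lib.MP_31c440_gt.H28.Uniq

/-! # The operators of words and the vertex model of the bracket -/

namespace Pool.Agent.Lib.MP_31c440_gt.H28

open Pool.Agent.Lib.MP_31c440_gt.H23

/-- The operator of a word from operators of the pieces. -/
def gop {X K : Type} [Field K] (T : Kind → ℕ → Module.End K (Fn X K)) (w : List Piece) :
    Module.End K (Fn X K) :=
  (w.map fun p => T p.kind p.pos).prod

/-- The value of a closed word. -/
def gval {X K : Type} [Field K] (T : Kind → ℕ → Module.End K (Fn X K)) (w : List Piece) : K :=
  gop T w (fun _ => 1) []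

section
variable {X K : Type} [Field K] (T : Kind → ℕ → Module.End K (Fn X K))

@[simp] theorem gop_nil : gop T [] = 1 := rfl

@[simp] theorem gop_cons (p : Piece) (w : List Piece) :
    gop T (p :: w) = T p.kind p.pos * gop T w := by simp [gop]

theorem gop_append (u v : List Piece) : gop T (u ++ v) = gop T u * gop T v := by simp [gop]

/-- The pieces act on rows of the lengths given by `ℓ`. -/
def LocAt (ℓ : ℕ → ℕ) : Prop :=
  ∀ (p : Piece) (m n : ℕ), p.Fits m n → Loc (T p.kind p.pos) (ℓ m) (ℓ n)

variable {T}

theorem gop_loc {ℓ : ℕ → ℕ} (hT : LocAt T ℓ) (w : List Piece) : ∀ {m n : ℕ}, Valid w m n →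
    Loc (gop T w) (ℓ m) (ℓ n) := by
  induction w with
  | nil =>
    rintro m n rfl f hf a ha
    exact hf a ha
  | cons p w ih =>
    rintro m n ⟨l, h1, h2⟩
    rw [gop_cons]
    exact (hT p m l h1).mul (ih h2)

/-- Local relations give relations between the values of closed words. -/
theorem gval_replace {ℓ : ℕ → ℕ} (hT : LocAt T ℓ) (h0 : ℓ 0 = 0) {u w w' w'' : List Piece}
    {r s : K} (hv : Valid (u ++ w) 0 0)
    (h : ∀ l, Valid w l 0 → ∀ (f : Fn X K) (a : List X), f = (fun _ => 1) → a.length = ℓ l →
      gop T w f a = r * gop T w' f a + s * gop T w'' f a) :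
    gval T (u ++ w) = r * gval T (u ++ w') + s * gval T (u ++ w'') := by
  obtain ⟨l, h1, h2⟩ := valid_append u w hv
  unfold gval
  rw [gop_append, gop_append, gop_append]
  simp only [Module.End.mul_apply]
  have h3 := (gop_loc hT u h1).congr (f := gop T w (fun _ => 1))
    (g := r • gop T w' (fun _ => 1) + s • gop T w'' (fun _ => 1))
    (fun b hb => h l h2 _ b rfl hb) [] (by rw [h0]; rfl)
  rw [h3, map_add, map_smul, map_smul]
  rfl

end

section
variable {X K : Type} [Field K]

theorem shift_iter_mul (S T : Module.End K (Fn X K)) (k : ℕ) :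
    shift^[k] (S * T) = shift^[k] S * shift^[k] T := by
  induction k with
  | zero => rfl
  | succ k ih => simp only [Function.iterate_succ_apply', ih, shift_mul]

theorem shift_iter_add (S T : Module.End K (Fn X K)) (k : ℕ) :
    shift^[k] (S + T) = shift^[k] S + shift^[k] T := by
  induction k with
  | zero => rfl
  | succ k ih => simp only [Function.iterate_succ_apply', ih, shift_add]

theorem shift_iter_smul (r : K) (T : Module.End K (Fn X K)) (k : ℕ) :
    shift^[k] (r • T) = r • shift^[k] T := by
  induction k with
  | zero => rfl
  | succ k ih => simp only [Function.iterate_succ_apply', ih, shift_smul]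

theorem shift_iter_loc' {T : Module.End K (Fn X K)} {m n : ℕ} (h : Loc T m n) (k : ℕ) :
    Loc (shift^[k] T) (m + k) (n + k) := by
  induction k with
  | zero => exact h
  | succ k ih =>
    rw [Function.iterate_succ_apply']
    exact ih.shift

theorem shift_iter_congr {S S' : Module.End K (Fn X K)} {c : ℕ}
    (h : ∀ f a, c ≤ a.length → S f a = S' f a) (k : ℕ) :
    ∀ f a, k + c ≤ a.length → shift^[k] S f a = shift^[k] S' f a := by
  induction k with
  | zero => intro f a ha; exact h f a (by omega)
  | succ k ih =>
    intro f a ha
    simp only [Function.iterate_succ_apply']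
    cases a with
    | nil => rfl
    | cons x a =>
      simp only [List.length_cons] at ha
      simp only [shift_cons]
      exact ih _ _ (by omega)

theorem shift_iter_one (k : ℕ) (f : Fn X K) (a : List X) (ha : k ≤ a.length) :
    shift^[k] (1 : Module.End K (Fn X K)) f a = f a := by
  induction k generalizing f a with
  | zero => rfl
  | succ k ih =>
    simp only [Function.iterate_succ_apply']
    cases a with
    | nil => simp at ha
    | cons x a =>
      simp only [List.length_cons] at ha
      simp only [shift_cons]
      exact ih _ _ (by omega)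

end

section
variable {K : Type} [Field K] (A : K)

@[simp] theorem bCup_apply (f : Fn Bool K) (l : List Bool) :
    bCup A f l = -A ^ 2 * f (false :: true :: l) + f (true :: false :: l) := rfl

@[simp] theorem bCap_cons (f : Fn Bool K) (x y : Bool) (l : List Bool) :
    bCap A f (x :: y :: l) = capWeight A x y * f l := rfl

@[simp] theorem bCap_nil (f : Fn Bool K) : bCap A f [] = 0 := rfl

@[simp] theorem bCap_one (f : Fn Bool K) (x : Bool) : bCap A f [x] = 0 := rfl

theorem bCup_shift (T : Module.End K (Fn Bool K)) :
    bCup A * shift (shift T) = T * bCup A := by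
  refine LinearMap.ext fun f => funext fun l => ?_
  simp only [Module.End.mul_apply, bCup_apply, shift_cons]
  have : bCup A f = (-A ^ 2) • (fun b => f (false :: true :: b)) +
      (fun b => f (true :: false :: b)) := by
    funext b
    simp
  rw [this, map_add, map_smul]
  rfl

theorem bCap_mul (T : Module.End K (Fn Bool K)) :
    bCap A * T = shift (shift T) * bCap A := by
  refine LinearMap.ext fun f => funext fun l => ?_
  match l with
  | [] => rfl
  | [x] => rfl
  | x :: y :: l =>
    simp only [Module.End.mul_apply, bCap_cons, shift_cons]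
    exact (apply_mul_fun T _ _ _).symm

theorem bCup_bCap (f : Fn Bool K) (l : List Bool) :
    bCup A (bCap A f) l = loopVal A * f l := by
  simp only [bCup_apply, bCap_cons, capWeight, loopVal]
  ring

theorem b_zig (hA : A ≠ 0) (f : Fn Bool K) (x : Bool) (l : List Bool) :
    shift (bCup A) (bCap A f) (x :: l) = f (x :: l) := by
  cases x <;> simp [shift_cons, capWeight, hA]

theorem b_zag (hA : A ≠ 0) (f : Fn Bool K) (x : Bool) (l : List Bool) :
    bCup A (shift (bCap A) f) (x :: l) = f (x :: l) := by
  cases x <;> simp [shift_cons, capWeight, hA]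

theorem bE_loc (c : Kind) (r : ℕ) : Loc (bE A c) (c.inn + r) (c.out + r) := by
  have hcup : ∀ r, Loc (bCup A) r (2 + r) := by
    intro r f hf a ha
    simp only [bCup_apply]
    rw [hf _ (by simp [ha]; omega), hf _ (by simp [ha]; omega)]
    simp
  have hcap : ∀ r, Loc (bCap A) (2 + r) r := by
    intro r f hf a ha
    match a, ha with
    | x :: y :: a, ha =>
      simp only [List.length_cons] at ha
      simp only [bCap_cons]
      rw [hf a (by omega)]
      simp
    | [x], ha => simp at ha; omega
    | [], ha => simp at ha; omega
  have hhook : ∀ r, Loc (bCap A * bCup A) (2 + r) (2 + r) := fun r => (hcap r).mul (hcup r)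
  cases c with
  | cup => simpa [Kind.inn, Kind.out, bE] using hcup r
  | cap => simpa [Kind.inn, Kind.out, bE] using hcap r
  | left =>
    intro f hf a ha
    have h1 := hhook r f hf a ha
    simp only [bE, LinearMap.add_apply, LinearMap.smul_apply, Pi.add_apply, Pi.smul_apply,
      smul_eq_mul, h1, Module.End.one_apply]
    rw [hf a ha]
    simp
  | right =>
    intro f hf a ha
    have h1 := hhook r f hf a ha
    simp only [bE, LinearMap.add_apply, LinearMap.smul_apply, Pi.add_apply, Pi.smul_apply,
      smul_eq_mul, h1, Module.End.one_apply]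
    rw [hf a ha]
    simp
  | virt =>
    intro f hf a ha
    match a, ha with
    | x :: y :: a, ha =>
      exact hf _ (by simp only [Kind.inn, Kind.out, List.length_cons] at ha ⊢; omega)
    | [x], ha => simp [Kind.inn] at ha; omega
    | [], ha => simp [Kind.inn] at ha; omega

theorem bAt_loc : LocAt (bAt A) (fun m => m) := by
  rintro p m n ⟨h1, h2⟩
  obtain ⟨r, rfl, rfl⟩ : ∃ r, m = (p.kind.inn + r) + p.pos ∧ n = (p.kind.out + r) + p.pos :=
    ⟨m - p.pos - p.kind.inn, by omega, by omega⟩
  exact shift_iter_loc' (bE_loc A _ _) _

/-- The vertex model satisfies the relations of the Kauffman bracket. -/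
theorem bracket_isBracket (hA : A ≠ 0) : IsBracket A (loopVal A) (gval (bAt A)) where
  nil := rfl
  loop u w k hv := by
    have h := gval_replace (bAt_loc A) rfl (w' := w) (w'' := w) (r := loopVal A) (s := 0) hv
    rw [h]
    · ring
    · rintro l ⟨_, ⟨h1, _⟩, -⟩ f a - ha
      simp only [Kind.inn] at h1
      simp only [gop_cons, zero_mul, add_zero]
      rw [← mul_assoc, Module.End.mul_apply]
      generalize gop (bAt A) w f = g
      unfold bAt
      rw [← shift_iter_mul]
      have h3 := shift_iter_congr (c := 0) (S := bE A .cup * bE A .cap)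
        (S' := loopVal A • 1) (fun f a _ => bCup_bCap A f a) k g a (by omega)
      rw [h3, shift_iter_smul]
      simp only [LinearMap.smul_apply, Pi.smul_apply, smul_eq_mul]
      rw [shift_iter_one k g a (by omega)]
  zig u w k hv := by
    have h := gval_replace (bAt_loc A) rfl (w' := w) (w'' := w) (r := 1) (s := 0) hv
    rw [h]
    · ring
    · rintro l ⟨_, ⟨h1, _⟩, -⟩ f a - ha
      simp only [Kind.inn] at h1
      simp only [gop_cons, zero_mul, add_zero, one_mul]
      rw [← mul_assoc, Module.End.mul_apply]
      generalize gop (bAt A) w f = g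
      unfold bAt
      rw [Function.iterate_succ_apply, ← shift_iter_mul]
      have h3 := shift_iter_congr (c := 1) (S := shift (bE A .cup) * bE A .cap)
        (S' := 1) (fun f a ha => by
          match a, ha with
          | x :: a, _ => exact b_zig A hA f x a) k g a (by omega)
      rw [h3, shift_iter_one k g a (by omega)]
  zag u w k hv := by
    have h := gval_replace (bAt_loc A) rfl (w' := w) (w'' := w) (r := 1) (s := 0) hv
    rw [h]
    · ring
    · rintro l ⟨l', ⟨h1, h2⟩, l'', ⟨h3, _⟩, -⟩ f a - ha
      simp only [Kind.inn, Kind.out] at h1 h2 h3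
      simp only [gop_cons, zero_mul, add_zero, one_mul]
      rw [← mul_assoc, Module.End.mul_apply]
      generalize gop (bAt A) w f = g
      unfold bAt
      rw [Function.iterate_succ_apply, ← shift_iter_mul]
      have h3 := shift_iter_congr (c := 1) (S := bE A .cup * shift (bE A .cap))
        (S' := 1) (fun f a ha => by
          match a, ha with
          | x :: a, _ => exact b_zag A hA f x a) k g a (by omega)
      rw [h3, shift_iter_one k g a (by omega)]
  farR u w i k hv := by
    have h := gval_replace (bAt_loc A) rfl (w' := ⟨.cap, i + k⟩ :: ⟨.cup, i⟩ :: w) (w'' := w)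
      (r := 1) (s := 0) hv
    rw [h]
    · ring
    · rintro l - f a - ha
      simp only [gop_cons, zero_mul, add_zero, one_mul]
      rw [← mul_assoc, ← mul_assoc]
      have key : bAt A .cup i * bAt A .cap (i + 2 + k) = bAt A .cap (i + k) * bAt A .cup i := by
        unfold bAt
        rw [show i + 2 + k = i + (k + 2) by omega, Function.iterate_add_apply _ i (k + 2),
          Function.iterate_add_apply _ i k, ← shift_iter_mul, ← shift_iter_mul,
          Function.iterate_succ_apply', Function.iterate_succ_apply']
        congr 1
        exact bCup_shift A _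
      rw [key]
  farL u w i k hv := by
    have h := gval_replace (bAt_loc A) rfl (w' := ⟨.cap, k⟩ :: ⟨.cup, k + i⟩ :: w) (w'' := w)
      (r := 1) (s := 0) hv
    rw [h]
    · ring
    · rintro l - f a - ha
      simp only [gop_cons, zero_mul, add_zero, one_mul]
      rw [← mul_assoc, ← mul_assoc]
      have key : bAt A .cup (k + 2 + i) * bAt A .cap k = bAt A .cap k * bAt A .cup (k + i) := by
        unfold bAt
        rw [show k + 2 + i = k + (i + 2) by omega, Function.iterate_add_apply _ k (i + 2),
          Function.iterate_add_apply _ k i, ← shift_iter_mul, ← shift_iter_mul,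
          Function.iterate_succ_apply', Function.iterate_succ_apply']
        congr 1
        exact (bCap_mul A _).symm
      rw [key]
  right u w k hv := by
    refine gval_replace (bAt_loc A) rfl hv ?_
    rintro l ⟨_, ⟨h1, _⟩, -⟩ f a - ha
    simp only [Kind.inn] at h1
    simp only [gop_cons]
    rw [← mul_assoc (bAt A .cap k), Module.End.mul_apply, Module.End.mul_apply]
    generalize gop (bAt A) w f = g
    unfold bAt
    rw [← shift_iter_mul]
    simp only [bE, shift_iter_add, shift_iter_smul, LinearMap.add_apply, LinearMap.smul_apply,
      Pi.add_apply, Pi.smul_apply, smul_eq_mul]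
    rw [shift_iter_one k g a (by omega)]
  left u w k hv := by
    refine gval_replace (bAt_loc A) rfl hv ?_
    rintro l ⟨_, ⟨h1, _⟩, -⟩ f a - ha
    simp only [Kind.inn] at h1
    simp only [gop_cons]
    rw [← mul_assoc (bAt A .cap k), Module.End.mul_apply, Module.End.mul_apply]
    generalize gop (bAt A) w f = g
    unfold bAt
    rw [← shift_iter_mul]
    simp only [bE, shift_iter_add, shift_iter_smul, LinearMap.add_apply, LinearMap.smul_apply,
      Pi.add_apply, Pi.smul_apply, smul_eq_mul]
    rw [shift_iter_one k g a (by omega)]

end

end Pool.Agent.Lib.MP_31c440_gt.H28
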