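import Pool.Agent.Lib.MP_31c440_gt.H28.Spin
import Pool.Agent.Lib.MP_31c440_gt.H28.Vertex

/-! # The symmetric vertex model of the bracket, with virtual crossings -/

namespace Pool.Agent.Lib.MP_31c440_gt.H28

open Pool.Agent.Lib.MP_31c440_gt.H23

section
variable {X K : Type} [Field K] [Fintype X] [DecidableEq X]

/-- The cap of equal labels. -/
def ccE : Module.End K (Fn X K) where
  toFun f l := match l with
    | x :: y :: l => if x = y then f l else 0
    | _ => 0
  map_add' f g := by
    funext l
    match l with
    | [] => simp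
    | [x] => simp
    | x :: y :: l => by_cases h : x = y <;> simp [h]
  map_smul' r f := by
    funext l
    match l with
    | [] => simp
    | [x] => simp
    | x :: y :: l => by_cases h : x = y <;> simp [h]

omit [Fintype X] in
@[simp] theorem ccE_nil (f : Fn X K) : ccE f [] = 0 := rfl
omit [Fintype X] in
@[simp] theorem ccE_one (f : Fn X K) (x : X) : ccE f [x] = 0 := rfl
omit [Fintype X] in
@[simp] theorem ccE_cons (f : Fn X K) (x y : X) (l : List X) :
    ccE f (x :: y :: l) = if x = y then f l else 0 := rfl

/-- Operators of the pieces. -/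
def oE (A : K) : Kind → Module.End K (Fn X K)
  | .cup => cupE
  | .cap => ccE
  | .right => A • (1 : Module.End K (Fn X K)) + A⁻¹ • (ccE * cupE)
  | .left => A⁻¹ • (1 : Module.End K (Fn X K)) + A • (ccE * cupE)
  | .virt => vE

/-- Coefficient of the identity in a crossing. -/
def ca (A : K) : Kind → K
  | .right => A
  | _ => A⁻¹

theorem oE_cross (A : K) {c : Kind} (hc : c = .left ∨ c = .right) (f : Fn X K) (x y : X)
    (l : List X) : oE A c f (x :: y :: l) =
      ca A c * f (x :: y :: l) + ca A c.flip * (if x = y then cupE f l else 0) := by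
  rcases hc with rfl | rfl
  · simp only [oE, LinearMap.add_apply, LinearMap.smul_apply, Pi.add_apply, Pi.smul_apply,
      smul_eq_mul, Module.End.one_apply, Module.End.mul_apply, ccE_cons, ca, Kind.flip]
  · simp only [oE, LinearMap.add_apply, LinearMap.smul_apply, Pi.add_apply, Pi.smul_apply,
      smul_eq_mul, Module.End.one_apply, Module.End.mul_apply, ccE_cons, ca, Kind.flip]

theorem ca_mul {A : K} (hA : A ≠ 0) {c : Kind} (hc : c = .left ∨ c = .right) :
    ca A c * ca A c.flip = 1 := by
  rcases hc with rfl | rfl
  · simp only [ca, Kind.flip]; exact inv_mul_cancel₀ hA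
  · simp only [ca, Kind.flip]; exact mul_inv_cancel₀ hA

theorem ccE_mul (T : Module.End K (Fn X K)) : ccE * T = shift (shift T) * ccE := by
  refine LinearMap.ext fun f => funext fun l => ?_
  match l with
  | [] => rfl
  | [x] => rfl
  | x :: y :: l =>
    simp only [Module.End.mul_apply, ccE_cons, shift_cons]
    by_cases h : x = y
    · simp [h]
    · simp only [h, if_false]
      exact (congrFun (map_zero T) l).symm

theorem oE_far (A : K) (a : Kind) (T : Module.End K (Fn X K)) (k : ℕ) :
    oE A a * shift^[a.out + k] T = shift^[a.inn + k] T * oE A a := by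
  have hh : ∀ T : Module.End K (Fn X K), ccE * cupE * shift (shift T) =
      shift (shift T) * (ccE * cupE) := by
    intro T
    rw [mul_assoc, cupE_mul_shift, ← mul_assoc, ccE_mul, mul_assoc]
  cases a with
  | cup =>
    simp only [Kind.out, Kind.inn, Nat.zero_add, oE, iter_two_add]
    rw [cupE_mul_shift]
  | cap =>
    simp only [Kind.out, Kind.inn, Nat.zero_add, oE, iter_two_add]
    rw [ccE_mul]
  | left =>
    simp only [Kind.out, Kind.inn, oE, iter_two_add]
    rw [add_mul, mul_add, smul_mul_assoc, smul_mul_assoc, mul_smul_comm, mul_smul_comm, one_mul,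
      mul_one, hh]
  | right =>
    simp only [Kind.out, Kind.inn, oE, iter_two_add]
    rw [add_mul, mul_add, smul_mul_assoc, smul_mul_assoc, mul_smul_comm, mul_smul_comm, one_mul,
      mul_one, hh]
  | virt =>
    simp only [Kind.out, Kind.inn, oE, iter_two_add]
    rw [vE_mul_shift]

theorem oE_loc (A : K) (c : Kind) (r : ℕ) :
    Loc (oE A c : Module.End K (Fn X K)) (c.inn + r) (c.out + r) := by
  have hcup : ∀ r, Loc (cupE : Module.End K (Fn X K)) r (2 + r) := by
    intro r f hf a ha
    simp only [cupE_apply]
    exact Finset.sum_eq_zero fun x _ => hf _ (by simp [ha]; omega)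
  have hcap : ∀ r, Loc (ccE : Module.End K (Fn X K)) (2 + r) r := by
    intro r f hf a ha
    match a, ha with
    | x :: y :: a, ha =>
      simp only [List.length_cons] at ha
      simp only [ccE_cons]
      rw [hf a (by omega), ite_self]
    | [x], ha => simp at ha; omega
    | [], ha => simp at ha; omega
  have hhook : ∀ r, Loc (ccE * cupE : Module.End K (Fn X K)) (2 + r) (2 + r) :=
    fun r => (hcap r).mul (hcup r)
  cases c with
  | cup => simpa [Kind.inn, Kind.out, oE] using hcup r
  | cap => simpa [Kind.inn, Kind.out, oE] using hcap r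
  | left =>
    intro f hf a ha
    have h1 := hhook r f hf a ha
    simp only [oE, LinearMap.add_apply, LinearMap.smul_apply, Pi.add_apply, Pi.smul_apply,
      smul_eq_mul, h1, Module.End.one_apply]
    rw [hf a ha]
    simp
  | right =>
    intro f hf a ha
    have h1 := hhook r f hf a ha
    simp only [oE, LinearMap.add_apply, LinearMap.smul_apply, Pi.add_apply, Pi.smul_apply,
      smul_eq_mul, h1, Module.End.one_apply]
    rw [hf a ha]
    simp
  | virt =>
    intro f hf a ha
    match a, ha with
    | x :: y :: a, ha =>
      exact hf _ (by simp only [Kind.inn, Kind.out, List.length_cons] at ha ⊢; omega)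
    | [x], ha => simp [Kind.inn] at ha; omega
    | [], ha => simp [Kind.inn] at ha; omega

/-- Factors of the kinks. -/
theorem kink_factor {A : K} (hA : A ≠ 0) (hN : (Fintype.card X : K) = loopVal A) {c : Kind}
    (hc : c = .left ∨ c = .right) :
    ca A c + ca A c.flip * (Fintype.card X : K) = (-(A ^ 3)) ^ (kexp c) := by
  rw [hN]
  rcases hc with rfl | rfl
  · simp only [ca, Kind.flip, kexp, loopVal, zpow_one]
    field_simp
    ring
  · simp only [ca, Kind.flip, kexp, loopVal, zpow_neg, zpow_one]
    field_simp
    ring

theorem two_factor {A : K} (hA : A ≠ 0) (hN : (Fintype.card X : K) = loopVal A) {c : Kind}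
    (hc : c = .left ∨ c = .right) :
    ca A c * ca A c + ca A c.flip * ca A c.flip + (Fintype.card X : K) = 0 := by
  rw [hN]
  rcases hc with rfl | rfl
  · simp only [ca, Kind.flip, loopVal]
    field_simp
    ring
  · simp only [ca, Kind.flip, loopVal]
    field_simp
    ring

variable {A : K} {c : Kind}

theorem cup_cc (f : Fn X K) (l : List X) : cupE (ccE f) l = (Fintype.card X : K) * f l := by
  simp

theorem cup_oE (hc : c = .left ∨ c = .right) (f : Fn X K) (l : List X) :
    cupE (oE A c f) l = (ca A c + ca A c.flip * (Fintype.card X : K)) * cupE f l := by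
  rw [cupE_apply]
  simp_rw [oE_cross A hc]
  simp only [if_true, Finset.sum_add_distrib, ← Finset.mul_sum, Finset.sum_const,
    Finset.card_univ, nsmul_eq_mul, cupE_apply]
  ring

theorem oE_cc (hc : c = .left ∨ c = .right) (f : Fn X K) (x y : X) (l : List X) :
    oE A c (ccE f) (x :: y :: l) =
      (ca A c + ca A c.flip * (Fintype.card X : K)) * ccE f (x :: y :: l) := by
  rw [oE_cross A hc, cup_cc, ccE_cons]
  by_cases h : x = y
  · simp only [h, if_true]; ring
  · simp only [h, if_false]; ring

theorem oE_turn_cap (hc : c = .left ∨ c = .right) (f : Fn X K) (x y z : X) (l : List X) :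
    shift (oE A c) (ccE f) (x :: y :: z :: l) = oE A c.flip (shift ccE f) (x :: y :: z :: l) := by
  rw [shift_cons, oE_cross A hc, oE_cross A (flip_classical hc)]
  simp only [shift_cons, ccE_cons, cupE_apply, Kind.flip_flip, Finset.sum_ite_eq,
    Finset.sum_ite_eq', Finset.mem_univ, if_true]
  ring

theorem cup_oE_turn (hc : c = .left ∨ c = .right) (f : Fn X K) (b : X) (l : List X) :
    cupE (shift (oE A c) f) (b :: l) = shift cupE (oE A c.flip f) (b :: l) := by
  simp only [cupE_apply, shift_cons, oE_cross A hc, oE_cross A (flip_classical hc), Kind.flip_flip]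
  simp only [Finset.sum_add_distrib, ← Finset.mul_sum, Finset.sum_ite_eq,
    Finset.sum_ite_eq', Finset.mem_univ, if_true]
  ring

theorem oE_two (hA : A ≠ 0) (hN : (Fintype.card X : K) = loopVal A)
    (hc : c = .left ∨ c = .right) (f : Fn X K) (x y : X) (l : List X) :
    oE A c (oE A c.flip f) (x :: y :: l) = f (x :: y :: l) := by
  rw [oE_cross A hc, cup_oE (flip_classical hc), oE_cross A (flip_classical hc), Kind.flip_flip]
  have h1 := ca_mul hA hc
  have h2 := two_factor (X := X) hA hN hc
  by_cases h : x = y
  · simp only [h, if_true]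
    linear_combination (f (y :: y :: l) + (Fintype.card X : K) * cupE f l) * h1 + cupE f l * h2
  · simp only [h, if_false]
    linear_combination f (x :: y :: l) * h1

theorem oE_virt (hc : c = .left ∨ c = .right) (f : Fn X K) (x y : X) (l : List X) :
    vE (oE A c (vE f)) (x :: y :: l) = oE A c f (x :: y :: l) := by
  rw [vE_cons, oE_cross A hc, oE_cross A hc]
  simp only [vE_cons, cupE_apply, eq_comm]

theorem oE_mixed (hc : c = .left ∨ c = .right) (f : Fn X K) (x y z : X) (l : List X) :
    vE (shift vE (oE A c f)) (x :: y :: z :: l) =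
      shift (oE A c) (vE (shift vE f)) (x :: y :: z :: l) := by
  simp only [vE_cons, shift_cons, oE_cross A hc, cupE_apply]

theorem oE_braid (hA : A ≠ 0) (hN : (Fintype.card X : K) = loopVal A)
    (hc : c = .left ∨ c = .right) (f : Fn X K) (x y z : X) (l : List X) :
    oE A c (shift (oE A c) (oE A c f)) (x :: y :: z :: l) =
      shift (oE A c) (oE A c (shift (oE A c) f)) (x :: y :: z :: l) := by
  have h1 := ca_mul hA hc
  have h2 := two_factor (X := X) hA hN hc
  simp only [shift_cons, oE_cross A hc, cupE_apply]
  simp only [Finset.sum_add_distrib, ← Finset.mul_sum, Finset.sum_ite_eq, Finset.sum_ite_eq',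
    Finset.mem_univ, if_true, Finset.sum_const, Finset.card_univ, nsmul_eq_mul]
  generalize ca A c = α at h1 h2 ⊢
  generalize ca A c.flip = β at h1 h2 ⊢
  generalize (Fintype.card X : K) = N at h1 h2 ⊢
  have h3 : β * (α * α + β * β + α * β * N) = 0 := by
    linear_combination β * h2 + β * N * h1
  by_cases hxy : x = y
  · subst hxy
    by_cases hxz : x = z
    · subst hxz
      simp only [if_true]
      linear_combination (∑ i, f (i :: i :: x :: l) - ∑ i, f (x :: i :: i :: l)) * h3
    · simp only [hxz, if_true, if_false]
      linear_combination (∑ i, f (i :: i :: z :: l)) * h3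
  · by_cases hyz : y = z
    · subst hyz
      simp only [hxy, if_true, if_false]
      linear_combination -(∑ i, f (x :: i :: i :: l)) * h3
    · simp only [hxy, hyz, if_false]

end

end Pool.Agent.Lib.MP_31c440_gt.H28
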