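import Pool.Agent.Lib.MP_31c440_gt.H28.OModel

/-! # The symmetric vertex model and the moves -/

namespace Pool.Agent.Lib.MP_31c440_gt.H28

open Pool.Agent.Lib.MP_31c440_gt.H23

/-- Every local move multiplies the operators of the symmetric vertex model by a power of
`-A³`. -/
theorem o_local {L R : List Piece} {k : ℤ} (hLR : LocalK L R k) :
    ∀ (X K : Type) [Field K] [Fintype X] [DecidableEq X] (A : K), A ≠ 0 →
      (Fintype.card X : K) = loopVal A →
      ∀ {m n n' : ℕ}, Valid L m n → Valid R m n' → ∀ f : Fn X K,
        ∀ a : List X, a.length = m → opw (oE A) L f a = (-(A ^ 3)) ^ k * opw (oE A) R f a := by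
  induction hLR with
  | far a b t =>
    rintro X K _ _ _ A hA hN m n n' - - f r hr
    simp only [opw_cons, opw_nil, mul_one, Function.iterate_zero, id, zpow_zero, one_mul]
    rw [oE_far]
  | zig =>
    rintro X K _ _ _ A hA hN m n n' hL - f r hr
    obtain ⟨l, ⟨h1, h2⟩, l', ⟨h3, h4⟩, h5⟩ := hL
    simp only [Kind.inn, Kind.out, Valid] at h1 h2 h3 h4 h5
    match r, hr with
    | x :: r, hr =>
      simp only [opw_cons, opw_nil, mul_one, Function.iterate_zero, id, zpow_zero, one_mul,
        Function.iterate_one, oE, Module.End.mul_apply, shift_cons, cupE_apply, ccE_cons,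
        Module.End.one_apply]
      simp
    | [], hr => simp at hr; omega
  | zag =>
    rintro X K _ _ _ A hA hN m n n' hL - f r hr
    obtain ⟨l, ⟨h1, h2⟩, l', ⟨h3, h4⟩, h5⟩ := hL
    simp only [Kind.inn, Kind.out, Valid] at h1 h2 h3 h4 h5
    match r, hr with
    | x :: r, hr =>
      simp only [opw_cons, opw_nil, mul_one, Function.iterate_zero, id, zpow_zero, one_mul,
        Function.iterate_one, oE, Module.End.mul_apply, shift_cons, cupE_apply, ccE_cons,
        Module.End.one_apply]
      simp
    | [], hr => simp at hr; omega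
  | turnCap c hc =>
    rintro X K _ _ _ A hA hN m n n' hL - f r hr
    obtain ⟨l, ⟨h1, h2⟩, l', ⟨h3, h4⟩, h5⟩ := hL
    rw [Kind.inn_crossing hc] at h1
    simp only at h1
    match r, hr with
    | x :: y :: z :: r, hr =>
      simp only [opw_cons, opw_nil, mul_one, Function.iterate_zero, id, zpow_zero, one_mul,
        Function.iterate_one, Module.End.mul_apply]
      rcases cross_cases hc with hc | rfl
      · exact oE_turn_cap hc f x y z r
      · simp only [oE, Kind.flip, shift_cons, vE_cons, ccE_cons]
    | [a, b], hr => simp at hr; omega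
    | [a], hr => simp at hr; omega
    | [], hr => simp at hr; omega
  | turnCup c hc =>
    rintro X K _ _ _ A hA hN m n n' hL hR f r hr
    obtain ⟨l, ⟨h1, h2⟩, l', ⟨h3, h4⟩, h5⟩ := hL
    rw [Kind.inn_crossing hc] at h3
    simp only [Kind.inn, Kind.out] at h1 h2 h3
    match r, hr with
    | y :: r, hr =>
      simp only [opw_cons, opw_nil, mul_one, Function.iterate_zero, id, zpow_zero, one_mul,
        Function.iterate_one, Module.End.mul_apply]
      rcases cross_cases hc with hc | rfl
      · exact cup_oE_turn hc f y r
      · simp only [oE, Kind.flip, shift_cons, vE_cons, cupE_apply]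
    | [], hr => simp at hr; omega
  | kinkCap c hc =>
    rintro X K _ _ _ A hA hN m n n' hL - f r hr
    obtain ⟨l, ⟨h1, h2⟩, l', ⟨h3, h4⟩, h5⟩ := hL
    rw [Kind.inn_crossing hc] at h1
    simp only at h1
    match r, hr with
    | x :: y :: r, hr =>
      simp only [opw_cons, opw_nil, mul_one, Function.iterate_zero, id, one_mul,
        Function.iterate_one, Module.End.mul_apply]
      rcases cross_cases hc with hc | rfl
      · rw [← kink_factor (X := X) hA hN hc]
        exact oE_cc hc f x y r
      · simp only [oE, vE_cons, ccE_cons, kexp, zpow_zero, one_mul]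
        simp only [eq_comm]
    | [a], hr => simp at hr; omega
    | [], hr => simp at hr; omega
  | kinkCup c hc =>
    rintro X K _ _ _ A hA hN m n n' hL - f r hr
    simp only [opw_cons, opw_nil, mul_one, Function.iterate_zero, id, one_mul,
      Function.iterate_one, Module.End.mul_apply]
    rcases cross_cases hc with hc | rfl
    · rw [← kink_factor (X := X) hA hN hc]
      exact cup_oE hc f r
    · simp only [oE, vE_cons, cupE_apply, kexp, zpow_zero, one_mul]
  | two c hc =>
    rintro X K _ _ _ A hA hN m n n' hL - f r hr
    obtain ⟨l, ⟨h1, h2⟩, l', ⟨h3, h4⟩, h5⟩ := hL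
    rw [Kind.inn_crossing hc] at h1
    simp only at h1
    match r, hr with
    | x :: y :: r, hr =>
      simp only [opw_cons, opw_nil, mul_one, Function.iterate_zero, id, zpow_zero, one_mul,
        Function.iterate_one, Module.End.mul_apply, Module.End.one_apply]
      rcases cross_cases hc with hc | rfl
      · exact oE_two hA hN hc f x y r
      · simp only [oE, Kind.flip, vE_cons]
    | [a], hr => simp at hr; omega
    | [], hr => simp at hr; omega
  | three c hc =>
    rintro X K _ _ _ A hA hN m n n' hL hR f r hr
    obtain ⟨l, ⟨h1, h2⟩, -⟩ := hR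
    rw [Kind.inn_crossing hc] at h1
    simp only at h1
    match r, hr with
    | x :: y :: z :: r, hr =>
      simp only [opw_cons, opw_nil, mul_one, Function.iterate_zero, id, zpow_zero, one_mul,
        Function.iterate_one, Module.End.mul_apply]
      rcases cross_cases hc with hc | rfl
      · exact oE_braid hA hN hc f x y z r
      · simp only [oE, vE_cons, shift_cons]
    | [a, b], hr => simp at hr; omega
    | [a], hr => simp at hr; omega
    | [], hr => simp at hr; omega
  | mixed c hc =>
    rintro X K _ _ _ A hA hN m n n' hL hR f r hr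
    obtain ⟨l, ⟨h1, h2⟩, -⟩ := hR
    rw [Kind.inn_crossing hc] at h1
    simp only at h1
    match r, hr with
    | x :: y :: z :: r, hr =>
      simp only [opw_cons, opw_nil, mul_one, Function.iterate_zero, id, zpow_zero, one_mul,
        Function.iterate_one, Module.End.mul_apply]
      rcases cross_cases hc with hc | rfl
      · exact oE_mixed hc f x y z r
      · simp only [oE, vE_cons, shift_cons]
    | [a, b], hr => simp at hr; omega
    | [a], hr => simp at hr; omega
    | [], hr => simp at hr; omega
  | virtualisation c hc =>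
    rintro X K _ _ _ A hA hN m n n' hL hR f r hr
    obtain ⟨l, ⟨h1, h2⟩, -⟩ := hR
    rw [Kind.inn_crossing hc] at h1
    simp only at h1
    match r, hr with
    | x :: y :: r, hr =>
      simp only [opw_cons, opw_nil, mul_one, Function.iterate_zero, id, zpow_zero, one_mul,
        Module.End.mul_apply]
      rcases cross_cases hc with hc | rfl
      · exact oE_virt hc f x y r
      · simp only [oE, vE_cons]
    | [a], hr => simp at hr; omega
    | [], hr => simp at hr; omega
  | @addStrand L R k hLR ih =>
    rintro X K _ _ _ A hA hN m n n' hL hR f r hr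
    match r, hr with
    | [], hr =>
      simp only [List.length_nil] at hr
      subst hr
      have hnil : ∀ (w : List Piece) {n : ℕ}, Valid (w.map Piece.succ) 0 n → w = [] := by
        intro w n hw
        cases w with
        | nil => rfl
        | cons p w =>
          obtain ⟨l, ⟨h1, -⟩, -⟩ := hw
          simp only [Piece.succ] at h1
          omega
      exact absurd (hnil L hL) (local_ne_nil hLR)
    | x :: r, hr =>
      simp only [List.length_cons] at hr
      subst hr
      obtain ⟨s, rfl, hs⟩ := valid_succ' L hL
      obtain ⟨s', -, hs'⟩ := valid_succ' R hR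
      rw [opw_succ, opw_succ]
      exact ih X K A hA hN hs hs' _ r rfl

/-- The value of a diagram in the symmetric vertex model. -/
noncomputable def oVal {X K : Type} [Field K] [Fintype X] [DecidableEq X] (A : K)
    (D : Diagram) : K := opw (oE A) D.word (fun _ : List X => (1 : K)) []

theorem o_move {D D' : Diagram} {A L R B : List Piece} {k : ℤ} (hLR : LocalK L R k)
    (h1 : D.word = A ++ L ++ B) (h2 : D'.word = A ++ R ++ B) :
    ∀ (X K : Type) [Field K] [Fintype X] [DecidableEq X] (a : K), a ≠ 0 →
      (Fintype.card X : K) = loopVal a →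
      oVal (X := X) a D = (-(a ^ 3)) ^ k * oVal (X := X) a D' := by
  intro X K _ _ _ a ha hN
  have hD := D.closed
  have hD' := D'.closed
  rw [h1, List.append_assoc] at hD
  rw [h2, List.append_assoc] at hD'
  obtain ⟨m, hA, hLB⟩ := valid_append A _ hD
  obtain ⟨m', hA', hRB⟩ := valid_append A _ hD'
  obtain rfl := valid_unique A hA hA'
  obtain ⟨n, hL, hB⟩ := valid_append L _ hLB
  obtain ⟨n', hR, -⟩ := valid_append R _ hRB
  unfold oVal
  rw [h1, h2, List.append_assoc, List.append_assoc, opw_append, opw_append, opw_append, opw_append]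
  simp only [Module.End.mul_apply]
  have h3 := (opw_loc (oE_loc a) A hA).congr (f := opw (oE a) L
    (opw (oE a) B (fun _ : List X => (1 : K)))) (g := (-(a ^ 3)) ^ k • opw (oE a) R
    (opw (oE a) B (fun _ : List X => (1 : K))))
    (fun b hb => o_local hLR X K a ha hN hL hR _ b hb) [] rfl
  rw [h3, map_smul]
  rfl

/-- Related diagrams have the same values in both models, up to the same power. -/
theorem related_both {D D' : Diagram} (h : D.Related D') : ∃ k : ℤ,
    (∀ (X K : Type) [Field K] [Fintype X] [DecidableEq X] (q d : K), q ≠ 0 → d ≠ 0 →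
      (Fintype.card X : K) = q + 2 + q⁻¹ → (Fintype.card X : K) ≠ 0 →
      spinVal (X := X) q d D' = (q ^ 2) ^ k * spinVal (X := X) q d D) ∧
    (∀ (X K : Type) [Field K] [Fintype X] [DecidableEq X] (a : K), a ≠ 0 →
      (Fintype.card X : K) = loopVal a →
      oVal (X := X) a D' = (-(a ^ 3)) ^ k * oVal (X := X) a D) := by
  induction h with
  | rel D D' h' =>
    obtain ⟨A, L, R, B, hLR, h1, h2⟩ := h'
    obtain ⟨k, hk⟩ := exists_localK hLR
    refine ⟨-k, ?_, ?_⟩
    · intro X K _ _ _ q d hq hd hn hn0
      rw [spin_move hk h1 h2 X K q d hq hd hn hn0, ← mul_assoc,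
        ← zpow_add₀ (pow_ne_zero 2 hq)]
      simp
    · intro X K _ _ _ a ha hN
      rw [o_move hk h1 h2 X K a ha hN, ← mul_assoc,
        ← zpow_add₀ (neg_ne_zero.2 (pow_ne_zero 3 ha))]
      simp
  | refl _ => exact ⟨0, by intros; simp, by intros; simp⟩
  | symm _ _ _ ih =>
    obtain ⟨k, hk, hk'⟩ := ih
    refine ⟨-k, ?_, ?_⟩
    · intro X K _ _ _ q d hq hd hn hn0
      rw [hk X K q d hq hd hn hn0, ← mul_assoc, ← zpow_add₀ (pow_ne_zero 2 hq)]
      simp
    · intro X K _ _ _ a ha hN
      rw [hk' X K a ha hN, ← mul_assoc, ← zpow_add₀ (neg_ne_zero.2 (pow_ne_zero 3 ha))]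
      simp
  | trans _ _ _ _ _ ih1 ih2 =>
    obtain ⟨k, hk, hk'⟩ := ih1
    obtain ⟨j, hj, hj'⟩ := ih2
    refine ⟨j + k, ?_, ?_⟩
    · intro X K _ _ _ q d hq hd hn hn0
      rw [hj X K q d hq hd hn hn0, hk X K q d hq hd hn hn0, ← mul_assoc,
        ← zpow_add₀ (pow_ne_zero 2 hq)]
    · intro X K _ _ _ a ha hN
      rw [hj' X K a ha hN, hk' X K a ha hN, ← mul_assoc,
        ← zpow_add₀ (neg_ne_zero.2 (pow_ne_zero 3 ha))]

section
variable {X K : Type} [Field K] [Fintype X] [DecidableEq X]

/-- The operator of a piece at a position. -/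
def oAt (A : K) (c : Kind) (k : ℕ) : Module.End K (Fn X K) := shift^[k] (oE A c)

theorem oAt_loc (A : K) : LocAt (oAt (X := X) A) (fun m => m) := by
  rintro p m n ⟨h1, h2⟩
  obtain ⟨r, rfl, rfl⟩ : ∃ r, m = (p.kind.inn + r) + p.pos ∧ n = (p.kind.out + r) + p.pos :=
    ⟨m - p.pos - p.kind.inn, by omega, by omega⟩
  exact shift_iter_loc' (oE_loc A _ _) _

/-- The symmetric vertex model satisfies the relations of the Kauffman bracket. -/
theorem o_isBracket {A : K} (hN : (Fintype.card X : K) = loopVal A) :
    IsBracket A (loopVal A) (gval (oAt (X := X) A)) where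
  nil := rfl
  loop u w k hv := by
    have h := gval_replace (oAt_loc (X := X) A) rfl (w' := w) (w'' := w) (r := loopVal A)
      (s := 0) hv
    rw [h]
    · ring
    · rintro l ⟨_, ⟨h1, _⟩, -⟩ f a - ha
      simp only [Kind.inn] at h1
      simp only [gop_cons, zero_mul, add_zero]
      rw [← mul_assoc, Module.End.mul_apply]
      generalize gop (oAt (X := X) A) w f = g
      unfold oAt
      rw [← shift_iter_mul]
      have h3 := shift_iter_congr (c := 0) (S := oE (X := X) A .cup * oE A .cap)
        (S' := loopVal A • 1) (fun f a _ => by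
          rw [← hN]
          exact cup_cc f a) k g a (by omega)
      rw [h3, shift_iter_smul]
      simp only [LinearMap.smul_apply, Pi.smul_apply, smul_eq_mul]
      rw [shift_iter_one k g a (by omega)]
  zig u w k hv := by
    have h := gval_replace (oAt_loc (X := X) A) rfl (w' := w) (w'' := w) (r := 1) (s := 0) hv
    rw [h]
    · ring
    · rintro l ⟨_, ⟨h1, _⟩, -⟩ f a - ha
      simp only [Kind.inn] at h1
      simp only [gop_cons, zero_mul, add_zero, one_mul]
      rw [← mul_assoc, Module.End.mul_apply]
      generalize gop (oAt (X := X) A) w f = g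
      unfold oAt
      rw [Function.iterate_succ_apply, ← shift_iter_mul]
      have h3 := shift_iter_congr (c := 1) (S := shift (oE (X := X) A .cup) * oE A .cap)
        (S' := 1) (fun f a ha => by
          match a, ha with
          | x :: a, _ => simp [oE]) k g a (by omega)
      rw [h3, shift_iter_one k g a (by omega)]
  zag u w k hv := by
    have h := gval_replace (oAt_loc (X := X) A) rfl (w' := w) (w'' := w) (r := 1) (s := 0) hv
    rw [h]
    · ring
    · rintro l ⟨l', ⟨h1, h2⟩, l'', ⟨h3, _⟩, -⟩ f a - ha
      simp only [Kind.inn, Kind.out] at h1 h2 h3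
      simp only [gop_cons, zero_mul, add_zero, one_mul]
      rw [← mul_assoc, Module.End.mul_apply]
      generalize gop (oAt (X := X) A) w f = g
      unfold oAt
      rw [Function.iterate_succ_apply, ← shift_iter_mul]
      have h3 := shift_iter_congr (c := 1) (S := oE (X := X) A .cup * shift (oE A .cap))
        (S' := 1) (fun f a ha => by
          match a, ha with
          | x :: a, _ => simp [oE]) k g a (by omega)
      rw [h3, shift_iter_one k g a (by omega)]
  farR u w i k hv := by
    have h := gval_replace (oAt_loc (X := X) A) rfl (w' := ⟨.cap, i + k⟩ :: ⟨.cup, i⟩ :: w)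
      (w'' := w) (r := 1) (s := 0) hv
    rw [h]
    · ring
    · rintro l - f a - ha
      simp only [gop_cons, zero_mul, add_zero, one_mul]
      rw [← mul_assoc, ← mul_assoc]
      have key : oAt (X := X) A .cup i * oAt A .cap (i + 2 + k) =
          oAt A .cap (i + k) * oAt A .cup i := by
        unfold oAt
        rw [show i + 2 + k = i + (k + 2) by omega, Function.iterate_add_apply _ i (k + 2),
          Function.iterate_add_apply _ i k, ← shift_iter_mul, ← shift_iter_mul,
          Function.iterate_succ_apply', Function.iterate_succ_apply']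
        congr 1
        exact cupE_mul_shift _
      rw [key]
  farL u w i k hv := by
    have h := gval_replace (oAt_loc (X := X) A) rfl (w' := ⟨.cap, k⟩ :: ⟨.cup, k + i⟩ :: w)
      (w'' := w) (r := 1) (s := 0) hv
    rw [h]
    · ring
    · rintro l - f a - ha
      simp only [gop_cons, zero_mul, add_zero, one_mul]
      rw [← mul_assoc, ← mul_assoc]
      have key : oAt (X := X) A .cup (k + 2 + i) * oAt A .cap k =
          oAt A .cap k * oAt A .cup (k + i) := by
        unfold oAt
        rw [show k + 2 + i = k + (i + 2) by omega, Function.iterate_add_apply _ k (i + 2),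
          Function.iterate_add_apply _ k i, ← shift_iter_mul, ← shift_iter_mul,
          Function.iterate_succ_apply', Function.iterate_succ_apply']
        congr 1
        exact (ccE_mul _).symm
      rw [key]
  right u w k hv := by
    refine gval_replace (oAt_loc (X := X) A) rfl hv ?_
    rintro l ⟨_, ⟨h1, _⟩, -⟩ f a - ha
    simp only [Kind.inn] at h1
    simp only [gop_cons]
    rw [← mul_assoc (oAt A .cap k), Module.End.mul_apply, Module.End.mul_apply]
    generalize gop (oAt (X := X) A) w f = g
    unfold oAt
    rw [← shift_iter_mul]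
    simp only [oE, shift_iter_add, shift_iter_smul, LinearMap.add_apply, LinearMap.smul_apply,
      Pi.add_apply, Pi.smul_apply, smul_eq_mul]
    rw [shift_iter_one k g a (by omega)]
  left u w k hv := by
    refine gval_replace (oAt_loc (X := X) A) rfl hv ?_
    rintro l ⟨_, ⟨h1, _⟩, -⟩ f a - ha
    simp only [Kind.inn] at h1
    simp only [gop_cons]
    rw [← mul_assoc (oAt A .cap k), Module.End.mul_apply, Module.End.mul_apply]
    generalize gop (oAt (X := X) A) w f = g
    unfold oAt
    rw [← shift_iter_mul]
    simp only [oE, shift_iter_add, shift_iter_smul, LinearMap.add_apply, LinearMap.smul_apply,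
      Pi.add_apply, Pi.smul_apply, smul_eq_mul]
    rw [shift_iter_one k g a (by omega)]

/-- The bracket of a classical diagram is its value in the symmetric vertex model. -/
theorem bracket_eq_oVal {A : K} (hA : A ≠ 0) (hN : (Fintype.card X : K) = loopVal A)
    (D : Diagram) (hD : D.Classical) : bracket A D = oVal (X := X) A D :=
  (bracket_isBracket A hA).unique (o_isBracket (X := X) hN) _ D.word rfl hD D.closed

end

end Pool.Agent.Lib.MP_31c440_gt.H28
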