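import Pool.Agent.Lib.MP_31c440_gt.H23.Invariance
import Pool.Agent.Lib.MP_31c440_gt.H28.Defs

/-! # Linear operators on functions of lists -/

namespace Pool.Agent.Lib.MP_31c440_gt.H28

open Pool.Agent.Lib.MP_31c440_gt.H23

section
variable {X K : Type} [Field K]

@[simp] theorem shift_nil (T : Module.End K (Fn X K)) (f : Fn X K) : shift T f [] = 0 := rfl

@[simp] theorem shift_cons (T : Module.End K (Fn X K)) (f : Fn X K) (x : X) (l : List X) :
    shift T f (x :: l) = T (fun b => f (x :: b)) l := rfl

theorem shift_mul (S T : Module.End K (Fn X K)) : shift (S * T) = shift S * shift T := by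
  ext f l
  cases l with
  | nil => rfl
  | cons x l => rfl

theorem shift_smul (r : K) (T : Module.End K (Fn X K)) : shift (r • T) = r • shift T := by
  ext f l
  cases l with
  | nil => simp
  | cons x l => rfl

theorem shift_add (S T : Module.End K (Fn X K)) : shift (S + T) = shift S + shift T := by
  ext f l
  cases l with
  | nil => simp
  | cons x l => rfl

theorem shift_zero : shift (0 : Module.End K (Fn X K)) = 0 := by
  ext f l
  cases l with
  | nil => rfl
  | cons x l => rfl

end

/-- Operators of the words from operators of the kinds of pieces. -/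
def opw {X K : Type} [Field K] (T : Kind → Module.End K (Fn X K)) (w : List Piece) :
    Module.End K (Fn X K) :=
  (w.map fun p => shift^[p.pos] (T p.kind)).prod

section
variable {X K : Type} [Field K] (T : Kind → Module.End K (Fn X K))

@[simp] theorem opw_nil : opw T [] = 1 := rfl

@[simp] theorem opw_cons (p : Piece) (w : List Piece) :
    opw T (p :: w) = shift^[p.pos] (T p.kind) * opw T w := by simp [opw]

theorem opw_append (u v : List Piece) : opw T (u ++ v) = opw T u * opw T v := by simp [opw]

theorem opw_succ (w : List Piece) : ∀ (f : Fn X K) (x : X) (a : List X),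
    opw T (w.map Piece.succ) f (x :: a) = opw T w (fun b => f (x :: b)) a := by
  induction w with
  | nil => intro f x a; rfl
  | cons p w ih =>
    intro f x a
    simp only [List.map_cons, opw_cons, Piece.succ, Function.iterate_succ_apply', Module.End.mul_apply,
      shift_cons]
    have h1 : (fun b => opw T (w.map Piece.succ) f (x :: b)) = opw T w (fun b => f (x :: b)) :=
      funext (ih f x)
    rw [h1]

/-- The value of the operators on rows of length `n` at rows of length `m` is linear: zero
functions on rows of length `n` are mapped to zero functions on rows of length `m`. -/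
def Loc (S : Module.End K (Fn X K)) (m n : ℕ) : Prop :=
  ∀ f : Fn X K, (∀ b : List X, b.length = n → f b = 0) → ∀ a : List X, a.length = m → S f a = 0

theorem Loc.shift {S : Module.End K (Fn X K)} {m n : ℕ} (h : Loc S m n) :
    Loc (shift S) (m + 1) (n + 1) := by
  intro f hf a ha
  cases a with
  | nil => simp at ha
  | cons x a =>
    rw [shift_cons]
    exact h _ (fun b hb => hf _ (by simp [hb])) a (by simpa using ha)

theorem Loc.mul {S S' : Module.End K (Fn X K)} {m l n : ℕ} (h : Loc S m l) (h' : Loc S' l n) :
    Loc (S * S') m n := by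
  intro f hf a ha
  exact h _ (fun b hb => h' f hf b hb) a ha

theorem Loc.congr {S : Module.End K (Fn X K)} {m n : ℕ} (h : Loc S m n) {f g : Fn X K}
    (hfg : ∀ b : List X, b.length = n → f b = g b) (a : List X) (ha : a.length = m) :
    S f a = S g a := by
  have := h (f - g) (fun b hb => by simp [hfg b hb]) a ha
  rw [map_sub] at this
  exact sub_eq_zero.1 this

end

/-- Functions all of whose sums over one label vanish, on rows of length `m`. -/
def Red {X K : Type} [Field K] [Fintype X] (m : ℕ) (f : Fn X K) : Prop :=
  ∀ a b : List X, a.length + b.length + 1 = m → ∑ x, f (a ++ x :: b) = 0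

section
variable {X K : Type} [Field K] [Fintype X]

theorem Red.cons {m : ℕ} {f : Fn X K} (h : Red (m + 1) f) (x : X) :
    Red m (fun b => f (x :: b)) := by
  intro a b hab
  exact h (x :: a) b (by simp; omega)

theorem Red.head {m : ℕ} {f : Fn X K} (h : Red (m + 1) f) (l : List X) (hl : l.length = m) :
    ∑ x, f (x :: l) = 0 := h [] l (by simp [hl])

theorem Red.head2 {m : ℕ} {f : Fn X K} (h : Red (m + 2) f) (x : X) (l : List X)
    (hl : l.length = m) : ∑ y, f (x :: y :: l) = 0 := h [x] l (by simp [hl]; omega)

theorem Red.smul {m : ℕ} {f : Fn X K} (h : Red m f) (r : K) : Red m (fun b => r * f b) := by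
  intro a b hab
  rw [← Finset.mul_sum, h a b hab, mul_zero]

/-- A reduced function stays reduced under the operator. -/
def PRed (S : Module.End K (Fn X K)) (m n : ℕ) : Prop := ∀ f : Fn X K, Red n f → Red m (S f)

theorem PRed.mul {S S' : Module.End K (Fn X K)} {m l n : ℕ} (h : PRed S m l) (h' : PRed S' l n) :
    PRed (S * S') m n := fun f hf => h _ (h' f hf)

omit [Fintype X] in
theorem apply_sum_fun (S : Module.End K (Fn X K)) {ι : Type} (s : Finset ι) (g : ι → Fn X K)
    (a : List X) : S (fun b => ∑ i ∈ s, g i b) a = ∑ i ∈ s, S (g i) a := by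
  have h1 : (fun b => ∑ i ∈ s, g i b) = ∑ i ∈ s, g i := by
    funext b; simp
  rw [h1, map_sum]
  simp

omit [Fintype X] in
theorem apply_mul_fun (S : Module.End K (Fn X K)) (r : K) (g : Fn X K)
    (a : List X) : S (fun b => r * g b) a = r * S g a := by
  have h1 : (fun b => r * g b) = r • g := rfl
  rw [h1, map_smul]
  rfl

theorem PRed.shift {S : Module.End K (Fn X K)} {m n : ℕ} (h : PRed S m n) (h' : Loc S m n) :
    PRed (shift S) (m + 1) (n + 1) := by
  intro f hf a b hab
  cases a with
  | nil =>
    simp only [List.nil_append, shift_cons]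
    rw [← apply_sum_fun S Finset.univ (fun x b => f (x :: b)) b]
    simp only [List.length_nil] at hab
    exact h' _ (fun c hc => hf.head c hc) b (by omega)
  | cons y a =>
    simp only [List.cons_append, shift_cons]
    simp only [List.length_cons] at hab
    exact h _ (hf.cons y) a b (by omega)

end

end Pool.Agent.Lib.MP_31c440_gt.H28
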