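import Pool.Agent.Lib.MP_31c440_gt.H28.Link
import Pool.Agent.Lib.MP_31c440_gt.H28.OMoves

/-! # The colour-two polynomial and the moves -/

namespace Pool.Agent.Lib.MP_31c440_gt.H28

open Pool.Agent.Lib.MP_31c440_gt.H23 Polynomial

/-- Rational functions of `A` with poles only at the roots of `A (A⁴ + 1)`. -/
def IsRat (g : ℂ → ℂ) : Prop :=
  ∃ (P : ℂ[X]) (N : ℕ), ∀ A : ℂ, A ≠ 0 → A ^ 4 ≠ -1 → g A * (A * (A ^ 4 + 1)) ^ N = P.eval A

theorem IsRat.const (c : ℂ) : IsRat (fun _ => c) := ⟨C c, 0, by intros; simp⟩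

theorem IsRat.var : IsRat (fun A => A) := ⟨X, 0, by intros; simp⟩

theorem IsRat.inv : IsRat (fun A => A⁻¹) := by
  refine ⟨X ^ 4 + 1, 1, ?_⟩
  intro A hA _
  simp only [pow_one, eval_add, eval_pow, eval_X, eval_one]
  field_simp

theorem add_ne {A : ℂ} (h : A ^ 4 ≠ -1) : A ^ 4 + 1 ≠ 0 := fun h' => h (by linear_combination h')

theorem loopVal_ne {A : ℂ} (hA : A ≠ 0) (h : A ^ 4 ≠ -1) : loopVal A ≠ 0 := by
  intro h'
  apply add_ne h
  unfold loopVal at h'
  field_simp at h'
  linear_combination -h'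

theorem IsRat.loop : IsRat (fun A => (loopVal A)⁻¹) := by
  refine ⟨-X ^ 3, 1, ?_⟩
  intro A hA h4
  have h1 := loopVal_ne hA h4
  simp only [pow_one, eval_neg, eval_pow, eval_X]
  have h2 : A * (A ^ 4 + 1) = loopVal A * (-A ^ 3) := by
    unfold loopVal
    field_simp
    ring
  rw [h2, ← mul_assoc, inv_mul_cancel₀ h1, one_mul]

theorem IsRat.add {f g : ℂ → ℂ} (hf : IsRat f) (hg : IsRat g) : IsRat (fun A => f A + g A) := by
  obtain ⟨P, N, h1⟩ := hf
  obtain ⟨Q, M, h2⟩ := hg
  refine ⟨P * (X * (X ^ 4 + 1)) ^ M + Q * (X * (X ^ 4 + 1)) ^ N, N + M, ?_⟩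
  intro A hA h4
  simp only [eval_add, eval_mul, eval_pow, eval_X, eval_one]
  rw [← h1 A hA h4, ← h2 A hA h4]
  ring

theorem IsRat.mul {f g : ℂ → ℂ} (hf : IsRat f) (hg : IsRat g) : IsRat (fun A => f A * g A) := by
  obtain ⟨P, N, h1⟩ := hf
  obtain ⟨Q, M, h2⟩ := hg
  refine ⟨P * Q, N + M, ?_⟩
  intro A hA h4
  simp only [eval_mul]
  rw [← h1 A hA h4, ← h2 A hA h4]
  ring

theorem IsRat.pow {f : ℂ → ℂ} (hf : IsRat f) (n : ℕ) : IsRat (fun A => f A ^ n) := by
  induction n with
  | zero => simpa using IsRat.const 1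
  | succ n ih => simpa only [pow_succ] using ih.mul hf

theorem IsRat.zpow (k : ℤ) : IsRat (fun A => A ^ k) := by
  obtain ⟨n, rfl | rfl⟩ := k.eq_nat_or_neg
  · simpa only [zpow_natCast] using IsRat.var.pow n
  · simpa only [zpow_neg, zpow_natCast, inv_pow] using IsRat.inv.pow n

theorem IsRat.eq_zero {g : ℂ → ℂ} (hg : IsRat g) {S : Set ℂ} (hS : S.Infinite)
    (h : ∀ A ∈ S, A ≠ 0 ∧ A ^ 4 ≠ -1 ∧ g A = 0) {A : ℂ} (hA : A ≠ 0) (h4 : A ^ 4 ≠ -1) :
    g A = 0 := by
  obtain ⟨P, N, hP⟩ := hg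
  have hP0 : P = 0 := by
    refine Polynomial.eq_zero_of_infinite_isRoot P (hS.mono ?_)
    intro B hB
    obtain ⟨h1, h2, h3⟩ := h B hB
    change P.eval B = 0
    rw [← hP B h1 h2, h3, zero_mul]
  have h5 := hP A hA h4
  rw [hP0, eval_zero] at h5
  rcases mul_eq_zero.1 h5 with h6 | h6
  · exact h6
  · exact absurd h6 (pow_ne_zero _ (mul_ne_zero hA (add_ne h4)))

/-- Operators depending rationally on `A`. -/
def RatOp (T : ℂ → Module.End ℂ (Fn Bool ℂ)) : Prop :=
  ∀ F : ℂ → Fn Bool ℂ, (∀ b, IsRat (fun A => F A b)) → ∀ a, IsRat (fun A => T A (F A) a)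

theorem RatOp.one : RatOp (fun _ => 1) := fun _ hF a => hF a

theorem RatOp.mul {S T : ℂ → Module.End ℂ (Fn Bool ℂ)} (hS : RatOp S) (hT : RatOp T) :
    RatOp (fun A => S A * T A) := fun F hF a => hS _ (fun b => hT F hF b) a

theorem RatOp.add {S T : ℂ → Module.End ℂ (Fn Bool ℂ)} (hS : RatOp S) (hT : RatOp T) :
    RatOp (fun A => S A + T A) := fun F hF a => (hS F hF a).add (hT F hF a)

theorem RatOp.smul {r : ℂ → ℂ} (hr : IsRat r) {T : ℂ → Module.End ℂ (Fn Bool ℂ)}
    (hT : RatOp T) : RatOp (fun A => r A • T A) := fun F hF a => hr.mul (hT F hF a)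

theorem RatOp.shift {T : ℂ → Module.End ℂ (Fn Bool ℂ)} (hT : RatOp T) :
    RatOp (fun A => H28.shift (T A)) := by
  intro F hF a
  cases a with
  | nil => exact IsRat.const 0
  | cons x a => exact hT (fun A b => F A (x :: b)) (fun b => hF (x :: b)) a

theorem RatOp.shift_iter {T : ℂ → Module.End ℂ (Fn Bool ℂ)} (hT : RatOp T) (k : ℕ) :
    RatOp (fun A => H28.shift^[k] (T A)) := by
  induction k with
  | zero => exact hT
  | succ k ih =>
    simp only [Function.iterate_succ_apply']
    exact ih.shift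

theorem RatOp.cup : RatOp (fun A => bCup A) := by
  intro F hF a
  have h : IsRat (fun A : ℂ => -A ^ 2) := by
    have := (IsRat.const (-1)).mul (IsRat.var.pow 2)
    simpa only [neg_mul, one_mul] using this
  exact (h.mul (hF _)).add (hF _)

theorem RatOp.cap : RatOp (fun A => bCap A) := by
  intro F hF a
  match a with
  | [] => exact IsRat.const 0
  | [x] => exact IsRat.const 0
  | x :: y :: l =>
    refine IsRat.mul ?_ (hF l)
    cases x <;> cases y
    · exact IsRat.const 0
    · exact IsRat.const 1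
    · change IsRat (fun A : ℂ => -(A ^ 2)⁻¹)
      have := (IsRat.const (-1)).mul (IsRat.inv.pow 2)
      simpa only [neg_mul, one_mul, inv_pow] using this
    · exact IsRat.const 0

theorem RatOp.swap : RatOp (fun _ => vE) := by
  intro F hF a
  match a with
  | [] => exact IsRat.const 0
  | [x] => exact IsRat.const 0
  | x :: y :: l => exact hF _

theorem RatOp.bE (c : Kind) : RatOp (fun A => H28.bE A c) := by
  cases c with
  | cup => exact RatOp.cup
  | cap => exact RatOp.cap
  | left => exact (RatOp.one.smul IsRat.inv).add ((RatOp.cap.mul RatOp.cup).smul IsRat.var)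
  | right => exact (RatOp.one.smul IsRat.var).add ((RatOp.cap.mul RatOp.cup).smul IsRat.inv)
  | virt => exact RatOp.swap

theorem RatOp.bAt (c : Kind) (k : ℕ) : RatOp (fun A => H28.bAt A c k) := (RatOp.bE c).shift_iter k

theorem RatOp.cableAt (c : Kind) (k : ℕ) : RatOp (fun A => H28.cableAt A c k) := by
  have hcr : ∀ c : Kind, RatOp (fun A => H28.bAt A c (2 * k + 1) * (H28.bAt A c (2 * k) *
      (H28.bAt A c (2 * k + 2) * H28.bAt A c (2 * k + 1)))) := fun c =>
    (RatOp.bAt _ _).mul ((RatOp.bAt _ _).mul ((RatOp.bAt _ _).mul (RatOp.bAt _ _)))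
  cases c with
  | cup => exact (RatOp.bAt _ _).mul (RatOp.bAt _ _)
  | cap =>
    refine RatOp.mul ?_ ((RatOp.bAt _ _).mul (RatOp.bAt _ _))
    have h1 : RatOp (fun A => (1 : Module.End ℂ (Fn Bool ℂ)) + ((-1) * (loopVal A)⁻¹) •
        (H28.bAt A .cap (2 * k) * H28.bAt A .cup (2 * k))) :=
      RatOp.one.add (((RatOp.bAt _ _).mul (RatOp.bAt _ _)).smul ((IsRat.const (-1)).mul IsRat.loop))
    have h2 : (fun A : ℂ => jonesWenzl A (2 * k)) = (fun A => (1 : Module.End ℂ (Fn Bool ℂ)) +
        ((-1) * (loopVal A)⁻¹) • (H28.bAt A .cap (2 * k) * H28.bAt A .cup (2 * k))) := by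
      funext A
      unfold jonesWenzl
      rw [sub_eq_add_neg, neg_one_mul]
      congr 1
      exact (neg_smul _ _).symm
    rw [h2]
    exact h1
  | left => exact hcr _
  | right => exact hcr _
  | virt => exact hcr _

theorem rat_colourTwo (D : Diagram) : IsRat (fun A => colourTwo A D) := by
  have h : ∀ w : List Piece, RatOp (fun A =>
      (w.map fun p => cableAt A p.kind p.pos).prod) := by
    intro w
    induction w with
    | nil => exact RatOp.one
    | cons p w ih =>
      simp only [List.map_cons, List.prod_cons]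
      exact (RatOp.cableAt _ _).mul ih
  exact h D.word (fun _ _ => 1) (fun _ => IsRat.const 1) []

theorem exists_loopVal (n : ℕ) : ∃ A : ℂ, A ≠ 0 ∧ (n : ℂ) = loopVal A * loopVal A := by
  obtain ⟨A, hA⟩ := IsAlgClosed.exists_root (X ^ 8 + C (2 - (n : ℂ)) * X ^ 4 + 1 : ℂ[X]) (by
    have : (X ^ 8 + C (2 - (n : ℂ)) * X ^ 4 + 1 : ℂ[X]).degree = 8 := by
      compute_degree!
    rw [this]
    norm_num)
  simp only [IsRoot.def, eval_add, eval_mul, eval_pow, eval_X, eval_C, eval_one] at hA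
  have hA0 : A ≠ 0 := by
    rintro rfl
    norm_num at hA
  refine ⟨A, hA0, ?_⟩
  unfold loopVal
  field_simp
  linear_combination -hA

/-- A rational function which vanishes whenever the square of the loop value is a positive integer
vanishes everywhere. -/
theorem IsRat.ext_spin {g : ℂ → ℂ} (hg : IsRat g)
    (h : ∀ (n : ℕ) (A : ℂ), A ≠ 0 → loopVal A ≠ 0 →
      ((n + 1 : ℕ) : ℂ) = loopVal A * loopVal A → g A = 0) {A : ℂ} (hA : A ≠ 0)
    (h4 : A ^ 4 ≠ -1) : g A = 0 := by
  choose B hB0 hB using exists_loopVal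
  have hloop : ∀ n : ℕ, loopVal (B (n + 1)) ≠ 0 := by
    intro n h0
    have := hB (n + 1)
    rw [h0, mul_zero] at this
    exact Nat.cast_ne_zero.2 (Nat.succ_ne_zero n) this
  have hinf : (Set.range fun n : ℕ => B (n + 1)).Infinite := by
    refine Set.infinite_range_of_injective ?_
    intro n m hnm
    simp only at hnm
    have h1 := hB (n + 1)
    have h2 := hB (m + 1)
    rw [hnm, ← h2] at h1
    have := Nat.cast_injective (R := ℂ) h1
    omega
  refine hg.eq_zero hinf ?_ hA h4
  rintro _ ⟨n, rfl⟩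
  simp only
  have hn := hB (n + 1)
  have hl := hloop n
  have hA := hB0 (n + 1)
  refine ⟨hA, ?_, h n _ hA hl hn⟩
  generalize B (n + 1) = A at hn hl hA ⊢
  intro h4
  apply hl
  unfold loopVal
  field_simp
  linear_combination -h4

theorem card_fin_eq {n : ℕ} {A : ℂ} (hA : A ≠ 0)
    (hn : ((n + 1 : ℕ) : ℂ) = loopVal A * loopVal A) :
    (Fintype.card (Fin (n + 1)) : ℂ) = A ^ 4 + 2 + (A ^ 4)⁻¹ := by
  rw [Fintype.card_fin, hn]
  unfold loopVal
  field_simp
  ring

theorem rat_bracket (D : Diagram) : IsRat (fun A => bracket A D) := by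
  have h : ∀ w : List Piece, RatOp (fun A =>
      (w.map fun p => bAt A p.kind p.pos).prod) := by
    intro w
    induction w with
    | nil => exact RatOp.one
    | cons p w ih =>
      simp only [List.map_cons, List.prod_cons]
      exact (RatOp.bAt _ _).mul ih
  exact h D.word (fun _ _ => 1) (fun _ => IsRat.const 1) []

theorem exists_loopVal' (n : ℕ) : ∃ A : ℂ, A ≠ 0 ∧ (n : ℂ) = loopVal A := by
  obtain ⟨A, hA⟩ := IsAlgClosed.exists_root (X ^ 4 + C (n : ℂ) * X ^ 2 + 1 : ℂ[X]) (by
    have : (X ^ 4 + C (n : ℂ) * X ^ 2 + 1 : ℂ[X]).degree = 4 := by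
      compute_degree!
    rw [this]
    norm_num)
  simp only [IsRoot.def, eval_add, eval_mul, eval_pow, eval_X, eval_C, eval_one] at hA
  have hA0 : A ≠ 0 := by
    rintro rfl
    norm_num at hA
  refine ⟨A, hA0, ?_⟩
  unfold loopVal
  field_simp
  linear_combination hA

/-- A rational function which vanishes whenever the loop value is a positive integer vanishes
everywhere. -/
theorem IsRat.ext_loop {g : ℂ → ℂ} (hg : IsRat g)
    (h : ∀ (n : ℕ) (A : ℂ), A ≠ 0 → ((n + 1 : ℕ) : ℂ) = loopVal A → g A = 0) {A : ℂ}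
    (hA : A ≠ 0) (h4 : A ^ 4 ≠ -1) : g A = 0 := by
  choose B hB0 hB using exists_loopVal'
  have hinf : (Set.range fun n : ℕ => B (n + 1)).Infinite := by
    refine Set.infinite_range_of_injective ?_
    intro n m hnm
    simp only at hnm
    have h1 := hB (n + 1)
    have h2 := hB (m + 1)
    rw [hnm, ← h2] at h1
    have := Nat.cast_injective (R := ℂ) h1
    omega
  refine hg.eq_zero hinf ?_ hA h4
  rintro _ ⟨n, rfl⟩
  simp only
  have hn := hB (n + 1)
  have hA := hB0 (n + 1)
  refine ⟨hA, ?_, h n _ hA hn⟩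
  generalize B (n + 1) = A at hn hA ⊢
  intro h4
  have hl : loopVal A = 0 := by
    unfold loopVal
    field_simp
    linear_combination -h4
  rw [hl] at hn
  exact Nat.cast_ne_zero.2 (Nat.succ_ne_zero n) hn

/-- Classical diagrams related by generalised Reidemeister moves and virtualisations have the
same Kauffman bracket and the same colour-two Jones polynomial, up to the same number of kinks. -/
theorem invariance {D D' : Diagram} (hD : D.Classical) (hD' : D'.Classical)
    (h : D.Related D') : ∃ k : ℤ, ∀ A : ℂ, A ≠ 0 → A ^ 4 ≠ -1 →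
      bracket A D' = (-(A ^ 3)) ^ k * bracket A D ∧
      colourTwo A D' = A ^ (8 * k) * colourTwo A D := by
  obtain ⟨k, hk, hk'⟩ := related_both h
  refine ⟨k, ?_⟩
  intro A hA h4
  constructor
  · have hneg : IsRat (fun A : ℂ => (-(A ^ 3)) ^ k) := by
      have h1 := ((IsRat.zpow (k := 3 * k))).mul (IsRat.const ((-1) ^ k))
      have : (fun A : ℂ => A ^ (3 * k) * (-1) ^ k) = fun A : ℂ => (-(A ^ 3)) ^ k := by
        funext A
        rw [zpow_mul, ← mul_zpow, mul_neg_one]
        norm_cast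
      rw [← this]
      exact h1
    have hrat : IsRat (fun A => bracket A D' + (-1) * ((-(A ^ 3)) ^ k * bracket A D)) :=
      (rat_bracket D').add ((IsRat.const (-1)).mul (hneg.mul (rat_bracket D)))
    have h0 := hrat.ext_loop (by
      intro n A hA hn
      have hcard : (Fintype.card (Fin (n + 1)) : ℂ) = loopVal A := by
        rw [Fintype.card_fin]; exact hn
      rw [bracket_eq_oVal (X := Fin (n + 1)) hA hcard D hD,
        bracket_eq_oVal (X := Fin (n + 1)) hA hcard D' hD', hk' (Fin (n + 1)) ℂ A hA hcard]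
      ring) hA h4
    linear_combination h0
  · have hrat : IsRat (fun A => colourTwo A D' + (-1) * (A ^ (8 * k) * colourTwo A D)) :=
      (rat_colourTwo D').add ((IsRat.const (-1)).mul ((IsRat.zpow _).mul (rat_colourTwo D)))
    have h0 := hrat.ext_spin (by
      intro n A hA hl hn
      have hn0 : ((n + 1 : ℕ) : ℂ) ≠ 0 := Nat.cast_ne_zero.2 (Nat.succ_ne_zero n)
      have hcard : (Fintype.card (Fin (n + 1)) : ℂ) = loopVal A * loopVal A := by
        rw [Fintype.card_fin]; exact hn
      rw [colourTwo_eq_spin (X := Fin (n + 1)) hA hl hcard D hD,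
        colourTwo_eq_spin (X := Fin (n + 1)) hA hl hcard D' hD',
        hk (Fin (n + 1)) ℂ (A ^ 4) (loopVal A) (pow_ne_zero 4 hA) hl
          (card_fin_eq hA hn) (by rw [Fintype.card_fin]; exact hn0)]
      have : ((A ^ 4) ^ 2) ^ k = A ^ (8 * k) := by
        rw [zpow_mul]
        congr 1
        rw [← pow_mul]
        norm_cast
      rw [this]
      ring) hA h4
    linear_combination h0

end Pool.Agent.Lib.MP_31c440_gt.H28
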