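import Pool.Agent.Lib.MP_31c440_gt.H28.Vertex

/-! # The spin model of the bracket: labels on every second region -/

namespace Pool.Agent.Lib.MP_31c440_gt.H28

open Pool.Agent.Lib.MP_31c440_gt.H23

section
variable {X K : Type} [Field K] [Fintype X] [DecidableEq X]

/-- Creation of a labelled region. -/
def s0Cup : Module.End K (Fn X K) where
  toFun f l := ∑ x, f (x :: l)
  map_add' f g := by
    funext l
    simp [Finset.sum_add_distrib]
  map_smul' r f := by
    funext l
    simp [Finset.mul_sum]

/-- Closing of a labelled region. -/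
def s0Cap (δ : K) : Module.End K (Fn X K) where
  toFun f l := match l with
    | [] => 0
    | _ :: l => δ⁻¹ * f l
  map_add' f g := by
    funext l
    match l with
    | [] => simp
    | x :: l => simp [mul_add]
  map_smul' r f := by
    funext l
    match l with
    | [] => simp
    | x :: l => simp; ring

/-- Splitting of a labelled region. -/
def s1Cup (δ : K) : Module.End K (Fn X K) where
  toFun f l := match l with
    | [] => 0
    | x :: l => δ * f (x :: x :: l)
  map_add' f g := by
    funext l
    match l with
    | [] => simp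
    | x :: l => simp [mul_add]
  map_smul' r f := by
    funext l
    match l with
    | [] => simp
    | x :: l => simp; ring

/-- Merging of two labelled regions. -/
def s1Cap : Module.End K (Fn X K) where
  toFun f l := match l with
    | x :: y :: l => if x = y then f (x :: l) else 0
    | _ => 0
  map_add' f g := by
    funext l
    match l with
    | [] => simp
    | [x] => simp
    | x :: y :: l => by_cases h : x = y <;> simp [h]
  map_smul' r f := by
    funext l
    match l with
    | [] => simp
    | [x] => simp
    | x :: y :: l => by_cases h : x = y <;> simp [h]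

omit [DecidableEq X] in
@[simp] theorem s0Cup_apply (f : Fn X K) (l : List X) : s0Cup f l = ∑ x, f (x :: l) := rfl
omit [Fintype X] [DecidableEq X] in
@[simp] theorem s0Cap_nil (δ : K) (f : Fn X K) : s0Cap δ f [] = 0 := rfl
omit [Fintype X] [DecidableEq X] in
@[simp] theorem s0Cap_cons (δ : K) (f : Fn X K) (x : X) (l : List X) :
    s0Cap δ f (x :: l) = δ⁻¹ * f l := rfl
omit [Fintype X] [DecidableEq X] in
@[simp] theorem s1Cup_nil (δ : K) (f : Fn X K) : s1Cup δ f [] = 0 := rfl
omit [Fintype X] [DecidableEq X] in
@[simp] theorem s1Cup_cons (δ : K) (f : Fn X K) (x : X) (l : List X) :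
    s1Cup δ f (x :: l) = δ * f (x :: x :: l) := rfl
omit [Fintype X] in
@[simp] theorem s1Cap_nil (f : Fn X K) : s1Cap f [] = 0 := rfl
omit [Fintype X] in
@[simp] theorem s1Cap_one (f : Fn X K) (x : X) : s1Cap f [x] = 0 := rfl
omit [Fintype X] in
@[simp] theorem s1Cap_cons (f : Fn X K) (x y : X) (l : List X) :
    s1Cap f (x :: y :: l) = if x = y then f (x :: l) else 0 := rfl

/-- The operators at even positions. -/
def s0E (A δ : K) : Kind → Module.End K (Fn X K)
  | .cup => s0Cup
  | .cap => s0Cap δ
  | .right => A • (1 : Module.End K (Fn X K)) + A⁻¹ • (s0Cap δ * s0Cup)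
  | .left => A⁻¹ • (1 : Module.End K (Fn X K)) + A • (s0Cap δ * s0Cup)
  | .virt => 0

/-- The operators at odd positions. -/
def s1E (A δ : K) : Kind → Module.End K (Fn X K)
  | .cup => s1Cup δ
  | .cap => s1Cap
  | .right => A • (1 : Module.End K (Fn X K)) + A⁻¹ • (s1Cap * s1Cup δ)
  | .left => A⁻¹ • (1 : Module.End K (Fn X K)) + A • (s1Cap * s1Cup δ)
  | .virt => 0

/-- The operators of the pieces. -/
def sAt (A δ : K) (c : Kind) : ℕ → Module.End K (Fn X K)
  | 0 => s0E A δ c
  | 1 => s1E A δ c
  | k + 2 => shift (sAt A δ c k)

/-- The number of labelled regions of a row. -/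
def len (m : ℕ) : ℕ := (m + 1) / 2

theorem s0_loc (A δ : K) (c : Kind) (m n : ℕ) (h : (⟨c, 0⟩ : Piece).Fits m n) :
    Loc (s0E A δ c : Module.End K (Fn X K)) (len m) (len n) := by
  obtain ⟨h1, h2⟩ := h
  have hcup : ∀ r, Loc (s0Cup : Module.End K (Fn X K)) r (r + 1) := by
    intro r f hf a ha
    rw [s0Cup_apply]
    exact Finset.sum_eq_zero fun x _ => hf _ (by simp [ha])
  have hcap : ∀ r, Loc (s0Cap δ : Module.End K (Fn X K)) (r + 1) r := by
    intro r f hf a ha
    match a, ha with
    | x :: a, ha =>
      simp only [List.length_cons] at ha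
      rw [s0Cap_cons, hf a (by omega), mul_zero]
    | [], ha => simp at ha
  have hhook : ∀ r, Loc (s0Cap δ * s0Cup : Module.End K (Fn X K)) (r + 1) (r + 1) :=
    fun r => (hcap r).mul (hcup r)
  cases c with
  | cup =>
    simp only [Kind.inn, Kind.out] at h1 h2
    have e : len n = len m + 1 := by unfold len; omega
    rw [e]
    exact hcup _
  | cap =>
    simp only [Kind.inn, Kind.out] at h1 h2
    have e : len m = len n + 1 := by unfold len; omega
    rw [e]
    exact hcap _
  | left =>
    simp only [Kind.inn, Kind.out] at h1 h2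
    obtain rfl : n = m := by omega
    obtain ⟨r, hr⟩ : ∃ r, len n = r + 1 := ⟨len n - 1, by unfold len; omega⟩
    rw [hr]
    intro f hf a ha
    have h1 := hhook r f hf a ha
    simp only [s0E, LinearMap.add_apply, LinearMap.smul_apply, Pi.add_apply, Pi.smul_apply,
      smul_eq_mul, h1, Module.End.one_apply]
    rw [hf a ha]
    simp
  | right =>
    simp only [Kind.inn, Kind.out] at h1 h2
    obtain rfl : n = m := by omega
    obtain ⟨r, hr⟩ : ∃ r, len n = r + 1 := ⟨len n - 1, by unfold len; omega⟩
    rw [hr]
    intro f hf a ha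
    have h1 := hhook r f hf a ha
    simp only [s0E, LinearMap.add_apply, LinearMap.smul_apply, Pi.add_apply, Pi.smul_apply,
      smul_eq_mul, h1, Module.End.one_apply]
    rw [hf a ha]
    simp
  | virt =>
    intro f hf a ha
    rfl

theorem s1_loc (A δ : K) (c : Kind) (m n : ℕ) (h : (⟨c, 1⟩ : Piece).Fits m n) :
    Loc (s1E A δ c : Module.End K (Fn X K)) (len m) (len n) := by
  obtain ⟨h1, h2⟩ := h
  have hcup : ∀ r, Loc (s1Cup δ : Module.End K (Fn X K)) (r + 1) (r + 2) := by
    intro r f hf a ha
    match a, ha with
    | x :: a, ha =>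
      simp only [List.length_cons] at ha
      rw [s1Cup_cons, hf _ (by simp only [List.length_cons]; omega), mul_zero]
    | [], ha => simp at ha
  have hcap : ∀ r, Loc (s1Cap : Module.End K (Fn X K)) (r + 2) (r + 1) := by
    intro r f hf a ha
    match a, ha with
    | x :: y :: a, ha =>
      simp only [List.length_cons] at ha
      rw [s1Cap_cons, hf _ (by simp only [List.length_cons]; omega), ite_self]
    | [x], ha => simp at ha
    | [], ha => simp at ha
  have hhook : ∀ r, Loc (s1Cap * s1Cup δ : Module.End K (Fn X K)) (r + 2) (r + 2) :=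
    fun r => (hcap r).mul (hcup r)
  cases c with
  | cup =>
    simp only [Kind.inn, Kind.out] at h1 h2
    obtain ⟨r, hr⟩ : ∃ r, len m = r + 1 := ⟨len m - 1, by unfold len; omega⟩
    have e : len n = r + 2 := by unfold len at hr ⊢; omega
    rw [e, hr]
    exact hcup _
  | cap =>
    simp only [Kind.inn, Kind.out] at h1 h2
    obtain ⟨r, hr⟩ : ∃ r, len n = r + 1 := ⟨len n - 1, by unfold len; omega⟩
    have e : len m = r + 2 := by unfold len at hr ⊢; omega
    rw [e, hr]
    exact hcap _
  | left =>
    simp only [Kind.inn, Kind.out] at h1 h2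
    obtain rfl : n = m := by omega
    obtain ⟨r, hr⟩ : ∃ r, len n = r + 2 := ⟨len n - 2, by unfold len; omega⟩
    rw [hr]
    intro f hf a ha
    have h1 := hhook r f hf a ha
    simp only [s1E, LinearMap.add_apply, LinearMap.smul_apply, Pi.add_apply, Pi.smul_apply,
      smul_eq_mul, h1, Module.End.one_apply]
    rw [hf a ha]
    simp
  | right =>
    simp only [Kind.inn, Kind.out] at h1 h2
    obtain rfl : n = m := by omega
    obtain ⟨r, hr⟩ : ∃ r, len n = r + 2 := ⟨len n - 2, by unfold len; omega⟩
    rw [hr]
    intro f hf a ha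
    have h1 := hhook r f hf a ha
    simp only [s1E, LinearMap.add_apply, LinearMap.smul_apply, Pi.add_apply, Pi.smul_apply,
      smul_eq_mul, h1, Module.End.one_apply]
    rw [hf a ha]
    simp
  | virt =>
    intro f hf a ha
    rfl

theorem sAt_loc (A δ : K) : LocAt (fun c k => (sAt A δ c k : Module.End K (Fn X K))) len := by
  rintro ⟨c, k⟩
  induction k using Nat.twoStepInduction with
  | zero => exact fun m n h => s0_loc A δ c m n h
  | one => exact fun m n h => s1_loc A δ c m n h
  | more k ih _ =>
    rintro m n ⟨h1, h2⟩
    simp only at h1 h2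
    obtain ⟨m', rfl⟩ : ∃ m', m = m' + 2 := ⟨m - 2, by omega⟩
    obtain ⟨n', rfl⟩ : ∃ n', n = n' + 2 := ⟨n - 2, by omega⟩
    have e1 : len (m' + 2) = len m' + 1 := by unfold len; omega
    have e2 : len (n' + 2) = len n' + 1 := by unfold len; omega
    rw [e1, e2]
    exact (ih m' n' ⟨by simp only; omega, by simp only; omega⟩).shift

variable {A δ : K}

theorem s_loop (hδ : δ ≠ 0) (hn : (Fintype.card X : K) = δ * δ) (k : ℕ) :
    ∀ (f : Fn X K) (a : List X), (k + 1) / 2 ≤ a.length →
      sAt A δ .cup k (sAt A δ .cap k f) a = δ * f a := by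
  induction k using Nat.twoStepInduction with
  | zero =>
    intro f a _
    simp only [sAt, s0E, s0Cup_apply, s0Cap_cons, Finset.sum_const, Finset.card_univ,
      nsmul_eq_mul, hn]
    field_simp
  | one =>
    intro f a ha
    match a, ha with
    | x :: a, _ =>
      simp only [sAt, s1E, s1Cup_cons, s1Cap_cons, if_true]
    | [], ha => simp at ha
  | more k ih _ =>
    intro f a ha
    match a, ha with
    | x :: a, ha =>
      simp only [List.length_cons] at ha
      simp only [sAt, shift_cons]
      exact ih _ a (by omega)
    | [], ha => simp at ha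

theorem s_zig (hδ : δ ≠ 0) (k : ℕ) :
    ∀ (f : Fn X K) (a : List X), (k + 2) / 2 ≤ a.length →
      sAt A δ .cup (k + 1) (sAt A δ .cap k f) a = f a := by
  induction k using Nat.twoStepInduction with
  | zero =>
    intro f a ha
    match a, ha with
    | x :: a, _ =>
      simp only [sAt, s0E, s1E, s1Cup_cons, s0Cap_cons]
      field_simp
    | [], ha => simp at ha
  | one =>
    intro f a ha
    match a, ha with
    | x :: a, _ =>
      simp only [sAt, s0E, s1E, shift_cons, s0Cup_apply, s1Cap_cons]
      simp
    | [], ha => simp at ha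
  | more k ih _ =>
    intro f a ha
    match a, ha with
    | x :: a, ha =>
      simp only [List.length_cons] at ha
      have e : k + 2 + 1 = (k + 1) + 2 := by omega
      rw [e]
      simp only [sAt, shift_cons]
      exact ih _ a (by omega)
    | [], ha => simp at ha

theorem s_zag (hδ : δ ≠ 0) (k : ℕ) :
    ∀ (f : Fn X K) (a : List X), (k + 2) / 2 ≤ a.length →
      sAt A δ .cup k (sAt A δ .cap (k + 1) f) a = f a := by
  induction k using Nat.twoStepInduction with
  | zero =>
    intro f a ha
    match a, ha with
    | x :: a, _ =>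
      simp only [sAt, s0E, s1E, s0Cup_apply, s1Cap_cons]
      simp
    | [], ha => simp at ha
  | one =>
    intro f a ha
    match a, ha with
    | x :: a, _ =>
      simp only [sAt, s0E, s1E, shift_cons, s1Cup_cons, s0Cap_cons]
      field_simp
    | [], ha => simp at ha
  | more k ih _ =>
    intro f a ha
    match a, ha with
    | x :: a, ha =>
      simp only [List.length_cons] at ha
      have e : k + 2 + 1 = (k + 1) + 2 := by omega
      rw [e]
      simp only [sAt, shift_cons]
      exact ih _ a (by omega)
    | [], ha => simp at ha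

theorem s_farR (k i : ℕ) :
    (sAt A δ .cup i * sAt A δ .cap (i + 2 + k) : Module.End K (Fn X K)) =
      sAt A δ .cap (i + k) * sAt A δ .cup i := by
  induction i using Nat.twoStepInduction with
  | zero =>
    rw [show 0 + 2 + k = k + 2 by omega, Nat.zero_add]
    refine LinearMap.ext fun f => funext fun l => ?_
    simp only [Module.End.mul_apply]
    simp only [sAt, s0E, s0Cup_apply, shift_cons]
    have : (s0Cup f : Fn X K) = fun b => ∑ x, f (x :: b) := rfl
    rw [this, apply_sum_fun]
  | one =>
    rw [show 1 + 2 + k = (k + 1) + 2 by omega, Nat.add_comm 1 k]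
    refine LinearMap.ext fun f => funext fun l => ?_
    simp only [Module.End.mul_apply]
    match l with
    | [] =>
      simp only [sAt, s1E, s1Cup_nil]
      cases k with
      | zero => rfl
      | succ k => rfl
    | x :: l =>
      cases k with
      | zero =>
        simp only [sAt, s1E, s1Cup_cons, shift_cons]
        match l with
        | [] => simp
        | y :: l =>
          simp only [s1Cap_cons, s1Cup_cons]
          by_cases h : x = y <;> simp [h]
      | succ k =>
        simp only [sAt, s1E, s1Cup_cons, shift_cons]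
        rw [apply_mul_fun]
  | more i ih _ =>
    rw [show i + 2 + 2 + k = (i + 2 + k) + 2 by omega, show i + 2 + k = (i + k) + 2 by omega]
    simp only [sAt]
    rw [← shift_mul, ← shift_mul, ← ih, show i + 2 + k = (i + k) + 2 by omega]
    simp only [sAt]

theorem s_farL (i k : ℕ) :
    (sAt A δ .cup (k + 2 + i) * sAt A δ .cap k : Module.End K (Fn X K)) =
      sAt A δ .cap k * sAt A δ .cup (k + i) := by
  induction k using Nat.twoStepInduction with
  | zero =>
    rw [show 0 + 2 + i = i + 2 by omega, Nat.zero_add]
    refine LinearMap.ext fun f => funext fun l => ?_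
    simp only [Module.End.mul_apply]
    match l with
    | [] => rfl
    | x :: l =>
      simp only [sAt, s0E, s0Cap_cons, shift_cons]
      rw [apply_mul_fun]
  | one =>
    rw [show 1 + 2 + i = (i + 1) + 2 by omega, Nat.add_comm 1 i]
    refine LinearMap.ext fun f => funext fun l => ?_
    simp only [Module.End.mul_apply]
    match l with
    | [] => rfl
    | [x] =>
      simp only [sAt, s1E, s1Cap_one, shift_cons]
      cases i with
      | zero => rfl
      | succ i => rfl
    | x :: y :: l =>
      cases i with
      | zero =>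
        simp only [sAt, s1E, s1Cup_cons, s1Cap_cons, shift_cons]
        by_cases h : x = y <;> simp [h]
      | succ i =>
        simp only [sAt, s1E, s1Cap_cons, shift_cons]
        by_cases h : x = y
        · simp [h]
        · simp only [h, if_false]
          exact congrFun (map_zero (sAt A δ Kind.cup i)) l
  | more k ih _ =>
    rw [show k + 2 + 2 + i = (k + 2 + i) + 2 by omega, show k + 2 + i = (k + i) + 2 by omega]
    simp only [sAt]
    rw [← shift_mul, ← shift_mul, ← ih, show k + 2 + i = (k + i) + 2 by omega]
    simp only [sAt]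

theorem s_right (k : ℕ) :
    ∀ (f : Fn X K) (a : List X), (k + 1) / 2 ≤ a.length →
      sAt A δ .right k f a = A * f a + A⁻¹ * sAt A δ .cap k (sAt A δ .cup k f) a := by
  induction k using Nat.twoStepInduction with
  | zero => intro f a _; rfl
  | one => intro f a _; rfl
  | more k ih _ =>
    intro f a ha
    match a, ha with
    | x :: a, ha =>
      simp only [List.length_cons] at ha
      simp only [sAt, shift_cons]
      exact ih _ a (by omega)
    | [], ha => simp at ha

theorem s_left (k : ℕ) :
    ∀ (f : Fn X K) (a : List X), (k + 1) / 2 ≤ a.length →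
      sAt A δ .left k f a = A⁻¹ * f a + A * sAt A δ .cap k (sAt A δ .cup k f) a := by
  induction k using Nat.twoStepInduction with
  | zero => intro f a _; rfl
  | one => intro f a _; rfl
  | more k ih _ =>
    intro f a ha
    match a, ha with
    | x :: a, ha =>
      simp only [List.length_cons] at ha
      simp only [sAt, shift_cons]
      exact ih _ a (by omega)
    | [], ha => simp at ha

/-- The spin model satisfies the relations of the Kauffman bracket. -/
theorem spin_isBracket (hδ : δ ≠ 0) (hn : (Fintype.card X : K) = δ * δ) :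
    IsBracket A δ (gval (fun c k => (sAt A δ c k : Module.End K (Fn X K)))) where
  nil := rfl
  loop u w k hv := by
    have h := gval_replace (sAt_loc (X := X) A δ) rfl (w' := w) (w'' := w) (r := δ) (s := 0) hv
    rw [h]
    · ring
    · rintro l ⟨_, ⟨h1, _⟩, -⟩ f a - ha
      simp only [Kind.inn] at h1
      simp only [gop_cons, zero_mul, add_zero, Module.End.mul_apply]
      exact s_loop hδ hn k _ a (by unfold len at ha; omega)
  zig u w k hv := by
    have h := gval_replace (sAt_loc (X := X) A δ) rfl (w' := w) (w'' := w) (r := 1) (s := 0) hv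
    rw [h]
    · ring
    · rintro l ⟨_, ⟨h1, _⟩, -⟩ f a - ha
      simp only [Kind.inn] at h1
      simp only [gop_cons, zero_mul, add_zero, one_mul, Module.End.mul_apply]
      exact s_zig hδ k _ a (by unfold len at ha; omega)
  zag u w k hv := by
    have h := gval_replace (sAt_loc (X := X) A δ) rfl (w' := w) (w'' := w) (r := 1) (s := 0) hv
    rw [h]
    · ring
    · rintro l ⟨l', ⟨h1, h2⟩, l'', ⟨h3, _⟩, -⟩ f a - ha
      simp only [Kind.inn, Kind.out] at h1 h2 h3
      simp only [gop_cons, zero_mul, add_zero, one_mul, Module.End.mul_apply]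
      exact s_zag hδ k _ a (by unfold len at ha; omega)
  farR u w i k hv := by
    have h := gval_replace (sAt_loc (X := X) A δ) rfl (w' := ⟨.cap, i + k⟩ :: ⟨.cup, i⟩ :: w)
      (w'' := w) (r := 1) (s := 0) hv
    rw [h]
    · ring
    · rintro l - f a - ha
      simp only [gop_cons, zero_mul, add_zero, one_mul]
      rw [← mul_assoc, ← mul_assoc, s_farR]
  farL u w i k hv := by
    have h := gval_replace (sAt_loc (X := X) A δ) rfl (w' := ⟨.cap, k⟩ :: ⟨.cup, k + i⟩ :: w)
      (w'' := w) (r := 1) (s := 0) hv
    rw [h]
    · ring
    · rintro l - f a - ha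
      simp only [gop_cons, zero_mul, add_zero, one_mul]
      rw [← mul_assoc, ← mul_assoc, s_farL]
  right u w k hv := by
    refine gval_replace (sAt_loc A δ) rfl hv ?_
    rintro l ⟨_, ⟨h1, _⟩, -⟩ f a - ha
    simp only [Kind.inn] at h1
    simp only [gop_cons, Module.End.mul_apply]
    exact s_right k _ a (by unfold len at ha; omega)
  left u w k hv := by
    refine gval_replace (sAt_loc A δ) rfl hv ?_
    rintro l ⟨_, ⟨h1, _⟩, -⟩ f a - ha
    simp only [Kind.inn] at h1
    simp only [gop_cons, Module.End.mul_apply]
    exact s_left k _ a (by unfold len at ha; omega)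

end

end Pool.Agent.Lib.MP_31c440_gt.H28
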