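import Pool.Agent.Lib.MP_31c440_gt.H28.Ops

/-! # Uniqueness of the Kauffman bracket of closed classical words -/

namespace Pool.Agent.Lib.MP_31c440_gt.H28

open Pool.Agent.Lib.MP_31c440_gt.H23

/-- Values of words which satisfy the relations of the Kauffman bracket. -/
structure IsBracket {K : Type} [Field K] (A δ : K) (v : List Piece → K) : Prop where
  nil : v [] = 1
  loop : ∀ u w k, Valid (u ++ ⟨.cup, k⟩ :: ⟨.cap, k⟩ :: w) 0 0 →
    v (u ++ ⟨.cup, k⟩ :: ⟨.cap, k⟩ :: w) = δ * v (u ++ w)
  zig : ∀ u w k, Valid (u ++ ⟨.cup, k + 1⟩ :: ⟨.cap, k⟩ :: w) 0 0 →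
    v (u ++ ⟨.cup, k + 1⟩ :: ⟨.cap, k⟩ :: w) = v (u ++ w)
  zag : ∀ u w k, Valid (u ++ ⟨.cup, k⟩ :: ⟨.cap, k + 1⟩ :: w) 0 0 →
    v (u ++ ⟨.cup, k⟩ :: ⟨.cap, k + 1⟩ :: w) = v (u ++ w)
  farR : ∀ u w i k, Valid (u ++ ⟨.cup, i⟩ :: ⟨.cap, i + 2 + k⟩ :: w) 0 0 →
    v (u ++ ⟨.cup, i⟩ :: ⟨.cap, i + 2 + k⟩ :: w) = v (u ++ ⟨.cap, i + k⟩ :: ⟨.cup, i⟩ :: w)
  farL : ∀ u w i k, Valid (u ++ ⟨.cup, k + 2 + i⟩ :: ⟨.cap, k⟩ :: w) 0 0 →
    v (u ++ ⟨.cup, k + 2 + i⟩ :: ⟨.cap, k⟩ :: w) = v (u ++ ⟨.cap, k⟩ :: ⟨.cup, k + i⟩ :: w)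
  right : ∀ u w k, Valid (u ++ ⟨.right, k⟩ :: w) 0 0 →
    v (u ++ ⟨.right, k⟩ :: w) = A * v (u ++ w) + A⁻¹ * v (u ++ ⟨.cap, k⟩ :: ⟨.cup, k⟩ :: w)
  left : ∀ u w k, Valid (u ++ ⟨.left, k⟩ :: w) 0 0 →
    v (u ++ ⟨.left, k⟩ :: w) = A⁻¹ * v (u ++ w) + A * v (u ++ ⟨.cap, k⟩ :: ⟨.cup, k⟩ :: w)

theorem valid_append_intro (u v : List Piece) : ∀ {m l n : ℕ}, Valid u m l → Valid v l n →
    Valid (u ++ v) m n := by
  induction u with
  | nil => rintro m l n rfl h; exact h
  | cons p u ih =>
    rintro m l n ⟨l', h1, h2⟩ h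
    exact ⟨l', h1, ih h2 h⟩

theorem valid_replace {u w w' : List Piece} {m n : ℕ} (h : Valid (u ++ w) m n)
    (h' : ∀ l, Valid w l n → Valid w' l n) : Valid (u ++ w') m n := by
  obtain ⟨l, h1, h2⟩ := valid_append u w h
  exact valid_append_intro u w' h1 (h' l h2)

theorem valid_loop {w : List Piece} {k l n : ℕ}
    (h : Valid (⟨.cup, k⟩ :: ⟨.cap, k⟩ :: w) l n) : Valid w l n := by
  obtain ⟨a, ⟨h1, h2⟩, b, ⟨h3, h4⟩, h5⟩ := h
  simp only [Kind.inn, Kind.out] at h1 h2 h3 h4
  obtain rfl : b = l := by omega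
  exact h5

theorem valid_zig {w : List Piece} {k l n : ℕ}
    (h : Valid (⟨.cup, k + 1⟩ :: ⟨.cap, k⟩ :: w) l n) : Valid w l n := by
  obtain ⟨a, ⟨h1, h2⟩, b, ⟨h3, h4⟩, h5⟩ := h
  simp only [Kind.inn, Kind.out] at h1 h2 h3 h4
  obtain rfl : b = l := by omega
  exact h5

theorem valid_zag {w : List Piece} {k l n : ℕ}
    (h : Valid (⟨.cup, k⟩ :: ⟨.cap, k + 1⟩ :: w) l n) : Valid w l n := by
  obtain ⟨a, ⟨h1, h2⟩, b, ⟨h3, h4⟩, h5⟩ := h
  simp only [Kind.inn, Kind.out] at h1 h2 h3 h4
  obtain rfl : b = l := by omega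
  exact h5

theorem valid_farR {w : List Piece} {i k l n : ℕ}
    (h : Valid (⟨.cup, i⟩ :: ⟨.cap, i + 2 + k⟩ :: w) l n) :
    Valid (⟨.cap, i + k⟩ :: ⟨.cup, i⟩ :: w) l n := by
  obtain ⟨a, ⟨h1, h2⟩, b, ⟨h3, h4⟩, h5⟩ := h
  simp only [Kind.inn, Kind.out] at h1 h2 h3 h4
  obtain rfl : b = l := by omega
  exact ⟨b - 2, ⟨by simp only [Kind.inn]; omega, by simp only [Kind.inn, Kind.out]; omega⟩, b,
    ⟨by simp only [Kind.inn]; omega, by simp only [Kind.inn, Kind.out]; omega⟩, h5⟩

theorem valid_farL {w : List Piece} {i k l n : ℕ}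
    (h : Valid (⟨.cup, k + 2 + i⟩ :: ⟨.cap, k⟩ :: w) l n) :
    Valid (⟨.cap, k⟩ :: ⟨.cup, k + i⟩ :: w) l n := by
  obtain ⟨a, ⟨h1, h2⟩, b, ⟨h3, h4⟩, h5⟩ := h
  simp only [Kind.inn, Kind.out] at h1 h2 h3 h4
  obtain rfl : b = l := by omega
  exact ⟨b - 2, ⟨by simp only [Kind.inn]; omega, by simp only [Kind.inn, Kind.out]; omega⟩, b,
    ⟨by simp only [Kind.inn]; omega, by simp only [Kind.inn, Kind.out]; omega⟩, h5⟩

theorem valid_cross_id {w : List Piece} {c : Kind} (hc : c = .left ∨ c = .right) {k l n : ℕ}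
    (h : Valid (⟨c, k⟩ :: w) l n) : Valid w l n := by
  obtain ⟨a, ⟨h1, h2⟩, h5⟩ := h
  obtain rfl : a = l := by
    rcases hc with rfl | rfl <;> simp only [Kind.inn, Kind.out] at h2 <;> omega
  exact h5

theorem valid_cross_hook {w : List Piece} {c : Kind} (hc : c = .left ∨ c = .right) {k l n : ℕ}
    (h : Valid (⟨c, k⟩ :: w) l n) : Valid (⟨.cap, k⟩ :: ⟨.cup, k⟩ :: w) l n := by
  have h0 := valid_cross_id hc h
  obtain ⟨a, ⟨h1, h2⟩, h5⟩ := h
  have h1' : k + 2 ≤ l := by
    rcases hc with rfl | rfl <;> simp only [Kind.inn, Kind.out] at h1 <;> omega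
  exact ⟨l - 2, ⟨by simp only [Kind.inn]; omega, by simp only [Kind.inn, Kind.out]; omega⟩, l,
    ⟨by simp only [Kind.inn]; omega, by simp only [Kind.inn, Kind.out]; omega⟩, h0⟩

theorem valid_cups (u : List Piece) (hu : ∀ p ∈ u, p.kind = .cup) : ∀ {m n : ℕ}, Valid u m n →
    n = m + 2 * u.length := by
  induction u with
  | nil => rintro m n h; simp only [Valid] at h; simp [h]
  | cons p u ih =>
    rintro m n ⟨l, ⟨h1, h2⟩, h3⟩
    have := ih (fun p hp => hu p (List.mem_cons_of_mem _ hp)) h3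
    rw [hu p List.mem_cons_self] at h2
    simp only [Kind.inn, Kind.out] at h2
    simp only [List.length_cons]
    omega

theorem split_cups (w : List Piece) (hw : ∀ p ∈ w, p.kind = .cup ∨ p.kind = .cap) :
    (∀ p ∈ w, p.kind = .cup) ∨
      ∃ u k w', w = u ++ ⟨.cap, k⟩ :: w' ∧ ∀ p ∈ u, p.kind = .cup := by
  induction w with
  | nil => left; simp
  | cons p w ih =>
    rcases hw p List.mem_cons_self with hp | hp
    · rcases ih (fun p hp => hw p (List.mem_cons_of_mem _ hp)) with h | ⟨u, k, w', h1, h2⟩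
      · left
        intro r hr
        rcases List.mem_cons.1 hr with rfl | hr
        · exact hp
        · exact h r hr
      · right
        refine ⟨p :: u, k, w', by rw [h1]; rfl, ?_⟩
        intro r hr
        rcases List.mem_cons.1 hr with rfl | hr
        · exact hp
        · exact h2 r hr
    · right
      refine ⟨[], p.pos, w, ?_, by simp⟩
      rw [← hp]
      rfl

section
variable {K : Type} [Field K] {A δ : K} {v v' : List Piece → K}

/-- Agreement on crossingless words, given agreement on shorter ones. -/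
theorem IsBracket.step (h : IsBracket A δ v) (h' : IsBracket A δ v') (N : ℕ)
    (ih : ∀ w : List Piece, w.length < N → (∀ p ∈ w, p.kind = .cup ∨ p.kind = .cap) →
      Valid w 0 0 → v w = v' w) (r : ℕ) :
    ∀ (u w : List Piece) (k : ℕ), u.length = r → (∀ p ∈ u, p.kind = .cup) →
      (∀ p ∈ w, p.kind = .cup ∨ p.kind = .cap) → (u ++ ⟨.cap, k⟩ :: w).length = N →
      Valid (u ++ ⟨.cap, k⟩ :: w) 0 0 → v (u ++ ⟨.cap, k⟩ :: w) = v' (u ++ ⟨.cap, k⟩ :: w) := by
  induction r with
  | zero =>
    intro u w k hu hc hw hN hv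
    obtain rfl := List.length_eq_zero_iff.1 hu
    obtain ⟨l, ⟨h1, h2⟩, -⟩ := hv
    simp only [Kind.inn] at h1
    omega
  | succ r ihr =>
    intro u w k hu hc hw hN hv
    obtain ⟨u', p, rfl⟩ : ∃ u' p, u = u' ++ [p] := by
      rcases List.eq_nil_or_concat u with rfl | ⟨u', p, hp⟩
      · simp at hu
      · exact ⟨u', p, by simpa using hp⟩
    obtain ⟨i, rfl⟩ : ∃ i, p = ⟨.cup, i⟩ := by
      refine ⟨p.pos, ?_⟩
      have := hc p (by simp)
      rw [← this]
    simp only [List.length_append, List.length_cons, List.length_nil, Nat.zero_add,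
      Nat.add_right_cancel_iff] at hu hN
    have hcups : ∀ p ∈ u', p.kind = .cup := fun p hp => hc p (by simp [hp])
    simp only [List.append_assoc, List.cons_append, List.nil_append] at hv ⊢
    have hshort : Valid (u' ++ w) 0 0 → v (u' ++ w) = v' (u' ++ w) := by
      intro hval
      refine ih _ (by simp only [List.length_append]; omega) ?_ hval
      intro p hp
      rcases List.mem_append.1 hp with hp | hp
      · exact Or.inl (hcups p hp)
      · exact hw p hp
    rcases lt_trichotomy i k with hik | rfl | hik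
    · obtain ⟨t, rfl⟩ : ∃ t, k = i + 1 + t := ⟨k - i - 1, by omega⟩
      cases t with
      | zero =>
        rw [h.zag u' w i hv, h'.zag u' w i hv]
        exact hshort (valid_replace hv fun l hl => valid_zag hl)
      | succ t =>
        have e : i + 1 + (t + 1) = i + 2 + t := by omega
        rw [e] at hv ⊢
        rw [h.farR u' w i t hv, h'.farR u' w i t hv]
        refine ihr u' (⟨.cup, i⟩ :: w) (i + t) hu hcups ?_ ?_
          (valid_replace hv fun l hl => valid_farR hl)
        · intro p hp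
          rcases List.mem_cons.1 hp with rfl | hp
          · exact Or.inl rfl
          · exact hw p hp
        · simp only [List.length_append, List.length_cons]
          omega
    · rw [h.loop u' w i hv, h'.loop u' w i hv]
      rw [hshort (valid_replace hv fun l hl => valid_loop hl)]
    · obtain ⟨t, rfl⟩ : ∃ t, i = k + 1 + t := ⟨i - k - 1, by omega⟩
      cases t with
      | zero =>
        rw [h.zig u' w k hv, h'.zig u' w k hv]
        exact hshort (valid_replace hv fun l hl => valid_zig hl)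
      | succ t =>
        have e : k + 1 + (t + 1) = k + 2 + t := by omega
        rw [e] at hv ⊢
        rw [h.farL u' w t k hv, h'.farL u' w t k hv]
        refine ihr u' (⟨.cup, k + t⟩ :: w) k hu hcups ?_ ?_
          (valid_replace hv fun l hl => valid_farL hl)
        · intro p hp
          rcases List.mem_cons.1 hp with rfl | hp
          · exact Or.inl rfl
          · exact hw p hp
        · simp only [List.length_append, List.length_cons]
          omega

theorem IsBracket.unique_cups (h : IsBracket A δ v) (h' : IsBracket A δ v') (N : ℕ) :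
    ∀ w : List Piece, w.length = N → (∀ p ∈ w, p.kind = .cup ∨ p.kind = .cap) →
      Valid w 0 0 → v w = v' w := by
  induction N using Nat.strong_induction_on with
  | _ N ih =>
    intro w hw hk hv
    rcases split_cups w hk with hc | ⟨u, k, w', rfl, hu⟩
    · have := valid_cups w hc hv
      have hw0 : w = [] := List.length_eq_zero_iff.1 (by omega)
      rw [hw0, h.nil, h'.nil]
    · refine h.step h' N (fun w hw => ih _ hw w rfl) u.length u w' k rfl hu ?_ hw hv
      intro p hp
      exact hk p (by simp [hp])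

/-- The number of crossings of a word. -/
def ncross (w : List Piece) : ℕ := (w.filter fun p => p.kind = .left ∨ p.kind = .right).length

/-- Two values satisfying the relations of the bracket agree on closed classical words. -/
theorem IsBracket.unique (h : IsBracket A δ v) (h' : IsBracket A δ v') (N : ℕ) :
    ∀ w : List Piece, ncross w = N → (∀ p ∈ w, p.kind ≠ .virt) →
      Valid w 0 0 → v w = v' w := by
  induction N using Nat.strong_induction_on with
  | _ N ih =>
    intro w hN hw hv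
    by_cases hc : ∃ p ∈ w, p.kind = .left ∨ p.kind = .right
    · obtain ⟨p, hp, hpk⟩ := hc
      obtain ⟨u, w', rfl⟩ := List.append_of_mem hp
      have hn1 : ncross (u ++ w') < N := by
        rw [← hN]
        simp only [ncross, List.filter_append, List.length_append, List.filter_cons]
        simp [hpk]
      have hn2 : ncross (u ++ ⟨.cap, p.pos⟩ :: ⟨.cup, p.pos⟩ :: w') < N := by
        rw [← hN]
        simp only [ncross, List.filter_append, List.length_append, List.filter_cons]
        simp [hpk]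
      have hval1 := valid_replace hv fun l hl => valid_cross_id (k := p.pos) hpk hl
      have hval2 := valid_replace hv fun l hl => valid_cross_hook (k := p.pos) hpk hl
      have e1 := ih _ hn1 (u ++ w') rfl (by
        intro r hr
        rcases List.mem_append.1 hr with hr | hr
        · exact hw r (by simp [hr])
        · exact hw r (by simp [hr])) hval1
      have e2 := ih _ hn2 (u ++ ⟨.cap, p.pos⟩ :: ⟨.cup, p.pos⟩ :: w') rfl (by
        intro r hr
        rcases List.mem_append.1 hr with hr | hr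
        · exact hw r (by simp [hr])
        · rcases List.mem_cons.1 hr with rfl | hr
          · simp
          · rcases List.mem_cons.1 hr with rfl | hr
            · simp
            · exact hw r (by simp [hr])) hval2
      obtain ⟨c, k⟩ := p
      simp only at hpk e1 e2
      rcases hpk with rfl | rfl
      · rw [h.left u w' k hv, h'.left u w' k hv, e1, e2]
      · rw [h.right u w' k hv, h'.right u w' k hv, e1, e2]
    · refine h.unique_cups h' w.length w rfl ?_ hv
      intro p hp
      have h1 := hw p hp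
      have h2 : ¬ (p.kind = .left ∨ p.kind = .right) := fun h => hc ⟨p, hp, h⟩
      cases hk : p.kind <;> simp_all

end

end Pool.Agent.Lib.MP_31c440_gt.H28
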