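import Pool.Agent.Lib.MP_31c440_gt.H28.Ops

/-! # Weights of the Potts spin model -/

namespace Pool.Agent.Lib.MP_31c440_gt.H28

open Pool.Agent.Lib.MP_31c440_gt.H23

variable {X K : Type} [Field K] [DecidableEq X]

/-- Boltzmann weights of the Potts model. -/
def wt (q : K) (c : Kind) (x y : X) : K :=
  if x = y then (match c with | .right => -q⁻¹ | .left => -q | _ => 1) else 1

/-- Excess of the weight on the diagonal. -/
def ex (q : K) : Kind → K
  | .right => -q⁻¹ - 1
  | .left => -q - 1
  | _ => 0

/-- The constant in the star-triangle relation. -/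
def dd (q : K) : Kind → K
  | .right => -(q + 1)
  | .left => -(q⁻¹ + 1)
  | _ => 1

theorem wt_eq (q : K) (c : Kind) (x y : X) :
    wt q c x y = 1 + ex q c * (if x = y then 1 else 0) := by
  unfold wt ex
  split_ifs <;> cases c <;> simp

theorem wt_symm (q : K) (c : Kind) (x y : X) : wt q c x y = wt q c y x := by
  simp [wt, eq_comm]

theorem wt_mul_flip {q : K} (hq : q ≠ 0) {c : Kind} (x y : X) :
    wt q c x y * wt q c.flip x y = 1 := by
  unfold wt
  split_ifs <;> cases c <;> simp [Kind.flip, hq]

theorem wt_ne {q : K} (hq : q ≠ 0) (c : Kind) (x y : X) : wt q c x y ≠ 0 := by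
  unfold wt
  split_ifs <;> cases c <;> simp [hq]

variable [Fintype X]

theorem sum_two (a b : K) (x y : X) :
    ∑ u, (1 + a * (if x = u then 1 else 0)) * (1 + b * (if u = y then 1 else 0)) =
      (Fintype.card X : K) + a + b + a * b * (if x = y then 1 else 0) := by
  have h1 : ∀ u : X, (1 + a * (if x = u then 1 else 0)) * (1 + b * (if u = y then 1 else 0)) =
      1 + a * (if x = u then 1 else 0) + b * (if u = y then 1 else 0) +
        a * b * (if x = u then (if x = y then 1 else 0) else 0) := by
    intro u
    by_cases h : x = u
    · subst h
      by_cases h2 : x = y <;> simp [h2]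
      ring
    · simp [h]
  simp_rw [h1]
  simp only [Finset.sum_add_distrib, ← Finset.mul_sum, Finset.sum_ite_eq, Finset.sum_ite_eq',
    Finset.mem_univ, if_true]
  simp

theorem sum_three (a b c : K) (x y z : X) :
    ∑ u, (1 + a * (if x = u then 1 else 0)) * (1 + b * (if y = u then 1 else 0)) *
        (1 + c * (if z = u then 1 else 0)) =
      (Fintype.card X : K) + a + b + c + a * b * (if x = y then 1 else 0) +
        a * c * (if x = z then 1 else 0) + b * c * (if y = z then 1 else 0) +
        a * b * c * (if x = y then (if x = z then 1 else 0) else 0) := by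
  have h1 : ∀ u : X, (1 + a * (if x = u then 1 else 0)) * (1 + b * (if y = u then 1 else 0)) *
        (1 + c * (if z = u then 1 else 0)) =
      1 + a * (if x = u then 1 else 0) + b * (if y = u then 1 else 0) +
        c * (if z = u then 1 else 0) +
        a * b * (if x = u then (if x = y then 1 else 0) else 0) +
        a * c * (if x = u then (if x = z then 1 else 0) else 0) +
        b * c * (if y = u then (if y = z then 1 else 0) else 0) +
        a * b * c * (if x = u then (if x = y then (if x = z then 1 else 0) else 0) else 0) := by
    intro u
    by_cases h : x = u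
    · subst h
      by_cases h2 : x = y
      · subst h2
        by_cases h3 : x = z
        · subst h3
          simp
          ring
        · have h3' : ¬ z = x := fun h => h3 h.symm
          simp [h3, h3']
          ring
      · have h2' : ¬ y = x := fun h => h2 h.symm
        by_cases h3 : x = z
        · subst h3
          simp [h2, h2']
          ring
        · have h3' : ¬ z = x := fun h => h3 h.symm
          simp [h2, h2', h3, h3']
    · by_cases h2 : y = u
      · subst h2
        by_cases h3 : y = z
        · subst h3
          simp [h]
          ring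
        · have h3' : ¬ z = y := fun h => h3 h.symm
          simp [h, h3, h3']
      · simp [h, h2]
  simp_rw [h1]
  simp only [Finset.sum_add_distrib, ← Finset.mul_sum, Finset.sum_ite_eq, Finset.sum_ite_eq',
    Finset.mem_univ, if_true]
  simp

/-- Type II relation. -/
theorem wt_two {q : K} (hq : q ≠ 0) (hn : (Fintype.card X : K) = q + 2 + q⁻¹) {c : Kind}
    (hc : c = .left ∨ c = .right) (x y : X) :
    ∑ u, wt q c x u * wt q c.flip u y = if x = y then (Fintype.card X : K) else 0 := by
  simp_rw [wt_eq]
  rw [sum_two, hn]
  rcases hc with rfl | rfl <;> simp only [ex, Kind.flip] <;> split_ifs <;> field_simp <;> ring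

/-- Star-triangle relation. -/
theorem wt_star {q : K} (hq : q ≠ 0) (hn : (Fintype.card X : K) = q + 2 + q⁻¹) {c : Kind}
    (hc : c = .left ∨ c = .right) (x y z : X) :
    ∑ u, wt q c.flip x u * wt q c.flip y u * wt q c z u =
      dd q c * wt q c.flip x y * wt q c x z * wt q c y z := by
  simp_rw [wt_eq]
  rw [sum_three, hn]
  by_cases hxy : x = y
  · subst hxy
    by_cases hxz : x = z
    · subst hxz
      rcases hc with rfl | rfl <;> simp only [ex, dd, Kind.flip, if_true] <;> field_simp <;> ring
    · rcases hc with rfl | rfl <;> simp only [ex, dd, Kind.flip, if_true, hxz, if_false] <;>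
        field_simp <;> ring
  · by_cases hxz : x = z
    · subst hxz
      have hxy' : ¬ y = x := fun h => hxy h.symm
      rcases hc with rfl | rfl <;> simp only [ex, dd, Kind.flip, if_true, hxy, hxy', if_false] <;>
        field_simp <;> ring
    · by_cases hyz : y = z
      · subst hyz
        rcases hc with rfl | rfl <;> simp only [ex, dd, Kind.flip, if_true, hxy, if_false] <;>
          field_simp <;> ring
      · rcases hc with rfl | rfl <;> simp only [ex, dd, Kind.flip, hxy, hxz, hyz, if_false] <;>
          field_simp <;> ring

omit [DecidableEq X] in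
theorem dd_ne {q : K} (hq : q ≠ 0) (hn : (Fintype.card X : K) = q + 2 + q⁻¹)
    (hn0 : (Fintype.card X : K) ≠ 0) (c : Kind) : dd q c ≠ 0 := by
  have h1 : q + 1 ≠ 0 := by
    intro h
    apply hn0
    rw [hn]
    have : q = -1 := by linear_combination h
    subst this
    norm_num
  cases c
  · simp [dd]
  · simp [dd]
  · simp only [dd]
    intro h
    apply h1
    field_simp at h
    linear_combination -h
  · simp only [dd]
    intro h
    apply h1
    linear_combination -h
  · simp [dd]

end Pool.Agent.Lib.MP_31c440_gt.H28
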